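import Pool.Agent.McT.Defs

/-! The property of the absolute values used in the sequel. -/

set_option autoImplicit false

namespace Pool.McT

/-- The absolute values `g = |x*|` and `h = |x|` are close for every `x` which nearly commutes
with `F`. -/
def AD {A : Type*} [CStarAlgebra A] (τ : A →ₗ[ℂ] ℂ) (F : Finset A) (α Λ : ℝ) : Prop :=
  ∀ x : A, ∃ g h : A, IsSelfAdjoint g ∧ IsSelfAdjoint h ∧ g * g = x * star x ∧
    h * h = star x * x ∧ N τ (g - h) ≤ α * N τ x + Λ * S τ F x

end Pool.McT
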