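import Pool.Agent.McT.GridA

/-! The sums of squares of the differences of the grid functions. -/

set_option autoImplicit false

namespace Pool.McT

private theorem gb_scale {D : ℝ} (hD : 0 < D) (x : ℝ) :
    D * max 0 (min 1 (x / D)) = max 0 (min D x) := by
  rw [mul_max_of_nonneg _ _ hD.le, mul_min_of_nonneg _ _ hD.le, mul_zero, mul_one,
    mul_div_cancel₀ _ hD.ne']

/-- telescoping over an interval -/
private theorem gb_ico (h : ℤ → ℝ) (i : ℤ) (k : ℕ) :
    ∑ n ∈ Finset.Ico i (i + k), (h (n + 1) - h n) = h (i + k) - h i := by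
  induction k with
  | zero => simp
  | succ k ih =>
    have h1 : i + ((k + 1 : ℕ) : ℤ) = i + k + 1 := by
      push_cast
      ring
    rw [h1, ← Finset.insert_Ico_right_eq_Ico_add_one (by omega : i ≤ i + (k : ℤ)),
      Finset.sum_insert Finset.right_notMem_Ico, ih]
    ring

/-- telescoping -/
private theorem gb_tele (h : ℤ → ℝ) (hm : ∀ n, 0 ≤ h (n + 1) - h n) {L U : ℝ}
    (hL : ∀ n, L ≤ h n) (hU : ∀ n, h n ≤ U) (I : Finset ℤ) :
    ∑ n ∈ I, (h (n + 1) - h n) ≤ U - L := by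
  obtain ⟨m, hmI⟩ : ∃ m : ℕ, ∀ n ∈ I, n.natAbs < m := by
    refine ⟨∑ n ∈ I, n.natAbs + 1, fun n hn => ?_⟩
    have h1 : n.natAbs ≤ ∑ n ∈ I, n.natAbs :=
      Finset.single_le_sum (f := fun n : ℤ => n.natAbs) (fun _ _ => Nat.zero_le _) hn
    omega
  have hsub : I ⊆ Finset.Ico (-(m : ℤ)) (-(m : ℤ) + ((2 * m : ℕ) : ℤ)) := by
    intro n hn
    have h1 := hmI n hn
    rw [Finset.mem_Ico]
    push_cast
    omega
  calc ∑ n ∈ I, (h (n + 1) - h n) ≤
        ∑ n ∈ Finset.Ico (-(m : ℤ)) (-(m : ℤ) + ((2 * m : ℕ) : ℤ)), (h (n + 1) - h n) :=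
        Finset.sum_le_sum_of_subset_of_nonneg hsub fun n _ _ => hm n
    _ = h (-(m : ℤ) + ((2 * m : ℕ) : ℤ)) - h (-(m : ℤ)) := gb_ico h _ _
    _ ≤ U - L := sub_le_sub (hU _) (hL _)

/-- the sum of squares -/
private theorem gb_sq {η : ℝ} (hη : 0 < η) (I : Finset ℤ) (F d : ℤ → ℝ) {X : ℝ} (hX : 0 ≤ X)
    (hd : ∀ n, 0 ≤ d n) (hF : ∀ n, (η * qq η n) ^ 2 * F n ^ 2 ≤ d n ^ 2)
    (hs : ∑ n ∈ I, d n ≤ X) : ∑ n ∈ I, (qq η n) ^ 2 * F n ^ 2 ≤ X ^ 2 / η ^ 2 := by
  have h1 : ∑ n ∈ I, d n ^ 2 ≤ X ^ 2 := by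
    calc ∑ n ∈ I, d n ^ 2 ≤ ∑ n ∈ I, d n * X := by
          refine Finset.sum_le_sum fun n hn => ?_
          rw [pow_two]
          exact mul_le_mul_of_nonneg_left
            ((Finset.single_le_sum (fun n _ => hd n) hn).trans hs) (hd n)
      _ = (∑ n ∈ I, d n) * X := by rw [Finset.sum_mul]
      _ ≤ X * X := mul_le_mul_of_nonneg_right hs hX
      _ = X ^ 2 := by ring
  rw [le_div_iff₀ (by positivity)]
  calc (∑ n ∈ I, (qq η n) ^ 2 * F n ^ 2) * η ^ 2
      = ∑ n ∈ I, (η * qq η n) ^ 2 * F n ^ 2 := by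
        rw [Finset.sum_mul]
        exact Finset.sum_congr rfl fun n _ => by ring
    _ ≤ ∑ n ∈ I, d n ^ 2 := Finset.sum_le_sum fun n _ => hF n
    _ ≤ X ^ 2 := h1

private theorem gb_min {Q D a b : ℝ} (hD : 0 < D) (hab : b ≤ a) :
    0 ≤ (min a (Q + D) - min a Q) - (min b (Q + D) - min b Q) := by
  simp only [min_def]
  split_ifs <;> linarith

private theorem gb_clamp {Q D s : ℝ} (hQ : 0 < Q) (hD : 0 < D) :
    max 0 (min D (s - Q)) - max 0 (min D (-s - Q)) =
      max (-(Q + D)) (min s (Q + D)) - max (-Q) (min s Q) := by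
  simp only [min_def, max_def]
  split_ifs <;> linarith

private theorem gb_clamp_mono {Q D s r : ℝ} (hQ : 0 < Q) (hD : 0 < D) (hrs : r ≤ s) :
    0 ≤ (max (-(Q + D)) (min s (Q + D)) - max (-Q) (min s Q)) -
      (max (-(Q + D)) (min r (Q + D)) - max (-Q) (min r Q)) := by
  rw [← gb_clamp hQ hD, ← gb_clamp hQ hD]
  have h1 : max 0 (min D (r - Q)) ≤ max 0 (min D (s - Q)) :=
    max_le_max le_rfl (min_le_min le_rfl (by linarith))
  have h2 : max 0 (min D (-s - Q)) ≤ max 0 (min D (-r - Q)) :=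
    max_le_max le_rfl (min_le_min le_rfl (by linarith))
  linarith

private theorem gb_clamp_bd {Q s r : ℝ} (hQ : 0 < Q) (hrs : r ≤ s) :
    0 ≤ max (-Q) (min s Q) - max (-Q) (min r Q) ∧
      max (-Q) (min s Q) - max (-Q) (min r Q) ≤ s - r := by
  simp only [min_def, max_def]
  constructor <;> split_ifs <;> linarith

/-- `η q^n (1 - f_n (a)) = min (a, q^(n+1)) - min (a, q^n)` for `a ≥ 0`. -/
theorem eta_fG {η : ℝ} (hη : 0 < η) (n : ℤ) (s : ℝ) :
    η * qq η n * (1 - fG η n s) = min |s| (qq η (n + 1)) - min |s| (qq η n) := by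
  have hQ := qq_pos hη n
  have hD : 0 < η * qq η n := mul_pos hη hQ
  unfold fG
  rw [mul_sub, mul_one, gb_scale hD, qq_succ hη n]
  simp only [min_def, max_def]
  split_ifs <;> linarith

private theorem gb_fG {η : ℝ} (hη : 0 < η) (I : Finset ℤ) (s r : ℝ) (hrs : |r| ≤ |s|) :
    ∑ n ∈ I, (qq η n) ^ 2 * (fG η n s - fG η n r) ^ 2 ≤ (s - r) ^ 2 / η ^ 2 := by
  have hkey : ∑ n ∈ I, (qq η n) ^ 2 * (fG η n s - fG η n r) ^ 2 ≤ (|s| - |r|) ^ 2 / η ^ 2 := by
    refine gb_sq hη I (fun n => fG η n s - fG η n r)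
      (fun n => (min |s| (qq η (n + 1)) - min |r| (qq η (n + 1))) -
        (min |s| (qq η n) - min |r| (qq η n))) (by linarith) ?_ ?_ ?_
    · intro n
      have h1 := gb_min (Q := qq η n) (mul_pos hη (qq_pos hη n)) hrs
      rw [← qq_succ hη n] at h1
      linarith
    · intro n
      have h1 := eta_fG hη n s
      have h2 := eta_fG hη n r
      have h3 : (min |s| (qq η (n + 1)) - min |r| (qq η (n + 1))) -
          (min |s| (qq η n) - min |r| (qq η n)) =
          -(η * qq η n * (fG η n s - fG η n r)) := by linarith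
      simp only [h3]
      exact le_of_eq (by ring)
    · have h1 := gb_tele (fun n => min |s| (qq η n) - min |r| (qq η n)) (L := 0)
        (U := |s| - |r|) (fun n => by
          have h1 := gb_min (Q := qq η n) (mul_pos hη (qq_pos hη n)) hrs
          rw [← qq_succ hη n] at h1
          linarith) (fun n => by
          have := min_le_min hrs (le_refl (qq η n))
          linarith) (fun n => by
          simp only [min_def]
          split_ifs <;> linarith) I
      linarith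
  refine hkey.trans (div_le_div_of_nonneg_right ?_ (by positivity))
  have h1 := abs_sub_abs_le_abs_sub s r
  have h2 : 0 ≤ |s| - |r| := by linarith
  calc (|s| - |r|) ^ 2 ≤ |s - r| ^ 2 := pow_le_pow_left₀ h2 h1 2
    _ = (s - r) ^ 2 := sq_abs _

/-- Enlarge `I` to an interval `Ico i j` (all terms of
`∑ η q^n |f_n s - f_n r|` have one sign), telescope with `eta_fG`, and use
`∑ d² ≤ (∑ d)²` for `d ≥ 0`. -/
theorem sum_fG_le {η : ℝ} (hη : 0 < η) (I : Finset ℤ) (s r : ℝ) :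
    ∑ n ∈ I, (qq η n) ^ 2 * (fG η n s - fG η n r) ^ 2 ≤ (s - r) ^ 2 / η ^ 2 := by
  rcases le_total |r| |s| with h | h
  · exact gb_fG hη I s r h
  · have h1 := gb_fG hη I r s h
    have h2 : ∀ n, (fG η n s - fG η n r) ^ 2 = (fG η n r - fG η n s) ^ 2 := fun n => by ring
    have h3 : (s - r) ^ 2 = (r - s) ^ 2 := by ring
    simp only [h2, h3]
    exact h1

/-- the odd function as a difference of clamps -/
private theorem gb_eta_oG {η : ℝ} (hη : 0 < η) (n : ℤ) (s : ℝ) :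
    η * qq η (n + 1) * oG η n s =
      max (-qq η (n + 1 + 1)) (min s (qq η (n + 1 + 1))) -
        max (-qq η (n + 1)) (min s (qq η (n + 1))) := by
  have hQ := qq_pos hη (n + 1)
  have hD : 0 < η * qq η (n + 1) := mul_pos hη hQ
  unfold oG
  rw [mul_sub, gb_scale hD, gb_scale hD, gb_clamp hQ hD, ← qq_succ hη (n + 1)]

private theorem gb_oG {η : ℝ} (hη : 0 < η) (I : Finset ℤ) (s r : ℝ) (hrs : r ≤ s) :
    ∑ n ∈ I, (qq η n) ^ 2 * (oG η n s - oG η n r) ^ 2 ≤ (s - r) ^ 2 / η ^ 2 := by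
  have hinc : ∀ n : ℤ, 0 ≤ (max (-qq η (n + 1)) (min s (qq η (n + 1))) -
      max (-qq η (n + 1)) (min r (qq η (n + 1)))) -
      (max (-qq η n) (min s (qq η n)) - max (-qq η n) (min r (qq η n))) := by
    intro n
    have h1 := gb_clamp_mono (qq_pos hη n) (mul_pos hη (qq_pos hη n)) hrs
    rw [← qq_succ hη n] at h1
    linarith
  refine gb_sq hη I (fun n => oG η n s - oG η n r)
    (fun n => (max (-qq η (n + 1 + 1)) (min s (qq η (n + 1 + 1))) -
      max (-qq η (n + 1 + 1)) (min r (qq η (n + 1 + 1)))) -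
      (max (-qq η (n + 1)) (min s (qq η (n + 1))) -
        max (-qq η (n + 1)) (min r (qq η (n + 1))))) (by linarith) (fun n => hinc (n + 1)) ?_ ?_
  · intro n
    have h1 := gb_eta_oG hη n s
    have h2 := gb_eta_oG hη n r
    have h3 : (max (-qq η (n + 1 + 1)) (min s (qq η (n + 1 + 1))) -
        max (-qq η (n + 1 + 1)) (min r (qq η (n + 1 + 1)))) -
        (max (-qq η (n + 1)) (min s (qq η (n + 1))) -
          max (-qq η (n + 1)) (min r (qq η (n + 1)))) =
        η * qq η (n + 1) * (oG η n s - oG η n r) := by linarith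
    simp only [h3]
    have h5 : (η * qq η (n + 1) * (oG η n s - oG η n r)) ^ 2 =
        (η * qq η (n + 1)) ^ 2 * (oG η n s - oG η n r) ^ 2 := mul_pow _ _ _
    rw [h5]
    refine mul_le_mul_of_nonneg_right ?_ (sq_nonneg (oG η n s - oG η n r))
    have hQ := qq_pos hη n
    have h4 : qq η n ≤ qq η (n + 1) := by
      rw [qq_succ hη n]
      have := mul_pos hη hQ
      linarith
    exact pow_le_pow_left₀ (by positivity) (mul_le_mul_of_nonneg_left h4 hη.le) 2
  · have h1 := gb_tele (fun n => max (-qq η (n + 1)) (min s (qq η (n + 1))) -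
      max (-qq η (n + 1)) (min r (qq η (n + 1)))) (L := 0) (U := s - r)
      (fun n => hinc (n + 1)) (fun n => (gb_clamp_bd (qq_pos hη (n + 1)) hrs).1)
      (fun n => (gb_clamp_bd (qq_pos hη (n + 1)) hrs).2) I
    rw [sub_zero] at h1
    exact h1

/-- The same for the odd functions: `η q^(n+1) φ_n (s)` is monotone in `s`, equal to
`min (s⁺, q^(n+2)) - min (s⁺, q^(n+1)) - (min (s⁻, q^(n+2)) - min (s⁻, q^(n+1)))`. -/
theorem sum_oG_le {η : ℝ} (hη : 0 < η) (I : Finset ℤ) (s r : ℝ) :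
    ∑ n ∈ I, (qq η n) ^ 2 * (oG η n s - oG η n r) ^ 2 ≤ (s - r) ^ 2 / η ^ 2 := by
  rcases le_total r s with h | h
  · exact gb_oG hη I s r h
  · have h1 := gb_oG hη I r s h
    have h2 : ∀ n, (oG η n s - oG η n r) ^ 2 = (oG η n r - oG η n s) ^ 2 := fun n => by ring
    have h3 : (s - r) ^ 2 = (r - s) ^ 2 := by ring
    simp only [h2, h3]
    exact h1

end Pool.McT
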