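import Pool.Agent.McT.GridC

/-! Detection by the grids of all scales `η = 2^(-j)`, `3 ≤ j ≤ J`. -/

set_option autoImplicit false

namespace Pool.McT

/-- One scale: `c` and `M` are the smaller and the larger of the two absolute values. -/
private theorem gridD_scale {η : ℝ} (hη : 0 < η) (hη8 : η ≤ 1 / 8) (m : ℕ) {c M : ℝ}
    (hcM : (1 + 4 * η) * c < M) (hM : M ≤ qq η (m + 2)) (hlow : qq η (2 - m) < M) :
    ∃ n ∈ Finset.Icc (-(m : ℤ)) m, c ≤ qq η n ∧ qq η (n + 2) ≤ M ∧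
      M ≤ (1 + η) ^ 3 * qq η n := by
  have h1 : (1 : ℝ) < 1 + η := by linarith
  have hM0 : 0 < M := (qq_pos hη _).trans hlow
  obtain ⟨k, hk1, hk2⟩ := exists_mem_Ico_zpow hM0 h1
  have hk3 : (2 : ℤ) - m < k + 1 := by
    by_contra hcon
    have h2 : (1 + η) ^ (k + 1) ≤ (1 + η) ^ ((2 : ℤ) - m) :=
      zpow_le_zpow_right₀ h1.le (not_lt.1 hcon)
    unfold qq at hlow
    linarith
  have hk4 : k ≤ (m : ℤ) + 2 := by
    by_contra hcon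
    have h2 : (1 + η) ^ ((m : ℤ) + 2) < (1 + η) ^ k :=
      zpow_lt_zpow_right₀ h1 (not_le.1 hcon)
    unfold qq at hM
    linarith
  have h3 : (1 + η) ^ 3 * qq η (k - 2) = (1 + η) ^ (k + 1) := by
    unfold qq
    rw [show (k + 1 : ℤ) = (k - 2) + 3 by ring, zpow_add₀ (by positivity)]
    rw [mul_comm]
    norm_cast
  refine ⟨k - 2, Finset.mem_Icc.2 ⟨by linarith, by linarith⟩, ?_, ?_, ?_⟩
  · have hq := qq_pos hη (k - 2)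
    have h4 : (1 + η) ^ 3 ≤ 1 + 4 * η := by nlinarith [mul_pos hη hη]
    have h5 : (1 + 4 * η) * c < (1 + 4 * η) * qq η (k - 2) := by
      calc (1 + 4 * η) * c < M := hcM
        _ ≤ (1 + η) ^ (k + 1) := hk2.le
        _ = (1 + η) ^ 3 * qq η (k - 2) := h3.symm
        _ ≤ (1 + 4 * η) * qq η (k - 2) := mul_le_mul_of_nonneg_right h4 hq.le
    exact (lt_of_mul_lt_mul_left h5 (by positivity)).le
  · rw [sub_add_cancel]
    exact hk1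
  · rw [h3]
    exact hk2.le

private theorem gridD_sum_nonneg {J : ℕ} (m : ℕ → ℕ) (s r : ℝ) :
    ∀ j ∈ Finset.Icc 3 J, 0 ≤ ∑ n ∈ Finset.Icc (-(m j : ℤ)) (m j),
        130 * (1 / 4 : ℝ) ^ j * (qq ((1 / 2 : ℝ) ^ j) n) ^ 2 *
        (fG ((1 / 2 : ℝ) ^ j) n s ^ 2 * oG ((1 / 2 : ℝ) ^ j) n r ^ 2
          + oG ((1 / 2 : ℝ) ^ j) n s ^ 2 * fG ((1 / 2 : ℝ) ^ j) n r ^ 2) :=
  fun _ _ => Finset.sum_nonneg fun _ _ => by positivity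

private theorem gridD_term {J : ℕ} (m : ℕ → ℕ) (s r : ℝ) {j : ℕ}
    (hj : j ∈ Finset.Icc 3 J) {n : ℤ} (hn : n ∈ Finset.Icc (-(m j : ℤ)) (m j))
    (h : 1 ≤ fG ((1 / 2 : ℝ) ^ j) n s ^ 2 * oG ((1 / 2 : ℝ) ^ j) n r ^ 2
          + oG ((1 / 2 : ℝ) ^ j) n s ^ 2 * fG ((1 / 2 : ℝ) ^ j) n r ^ 2) :
    130 * (1 / 4 : ℝ) ^ j * (qq ((1 / 2 : ℝ) ^ j) n) ^ 2 ≤
      ∑ j ∈ Finset.Icc 3 J, ∑ n ∈ Finset.Icc (-(m j : ℤ)) (m j),
        130 * (1 / 4 : ℝ) ^ j * (qq ((1 / 2 : ℝ) ^ j) n) ^ 2 *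
        (fG ((1 / 2 : ℝ) ^ j) n s ^ 2 * oG ((1 / 2 : ℝ) ^ j) n r ^ 2
          + oG ((1 / 2 : ℝ) ^ j) n s ^ 2 * fG ((1 / 2 : ℝ) ^ j) n r ^ 2) := by
  refine le_trans ?_ (Finset.single_le_sum (gridD_sum_nonneg m s r) hj)
  refine le_trans ?_ (Finset.single_le_sum (fun n _ => by positivity) hn)
  exact le_mul_of_one_le_right (by positivity) h

/-- Let `a = |s|`, `b = |r|`, `d = |a - b|`, `c = min a b`. If `d ≤ 4 * 2^(-J) c` then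
`d² ≤ 16 * 4^(-J) a²`. Otherwise let `j` in `[3, J]` be minimal with `d > 4 η c`, `η = 2^(-j)`,
`q = 1 + η`. Then `q³ c ≤ (1 + 4 η) c < max a b`. If `max a b ≤ q^(2 - m j)` the term `ρ`
suffices. Otherwise there is `n` in `[-m j, m j]` with `q^(n+2) ≤ max a b ≤ q^(n+3)`, so
`c < q^n`, and one of the two products is `1` (`fG_eq_one`, `oG_sq_eq_one`). If `j = 3`,
`d² ≤ (max a b)² ≤ q^6 q^(2n) ≤ 130 η² q^(2n)`; if `j > 3`, minimality gives `d ≤ 8 η c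
≤ 8 η q^n`, `d² ≤ 64 η² q^(2n)`. -/
theorem detectM {J : ℕ} (hJ : 3 ≤ J) (m : ℕ → ℕ) {ρ : ℝ}
    (hρ : ∀ j ∈ Finset.Icc 3 J, (qq ((1 / 2 : ℝ) ^ j) (2 - m j)) ^ 2 ≤ ρ) {s r : ℝ}
    (hs : ∀ j ∈ Finset.Icc 3 J, |s| ≤ qq ((1 / 2 : ℝ) ^ j) (m j + 2))
    (hr : ∀ j ∈ Finset.Icc 3 J, |r| ≤ qq ((1 / 2 : ℝ) ^ j) (m j + 2)) :
    (|s| - |r|) ^ 2 ≤ 16 * (1 / 4 : ℝ) ^ J * s ^ 2 + ρ
      + ∑ j ∈ Finset.Icc 3 J, ∑ n ∈ Finset.Icc (-(m j : ℤ)) (m j),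
        130 * (1 / 4 : ℝ) ^ j * (qq ((1 / 2 : ℝ) ^ j) n) ^ 2 *
        (fG ((1 / 2 : ℝ) ^ j) n s ^ 2 * oG ((1 / 2 : ℝ) ^ j) n r ^ 2
          + oG ((1 / 2 : ℝ) ^ j) n s ^ 2 * fG ((1 / 2 : ℝ) ^ j) n r ^ 2) := by
  have hJJ : J ∈ Finset.Icc 3 J := Finset.mem_Icc.2 ⟨hJ, le_rfl⟩
  have hρ0 : 0 ≤ ρ := (sq_nonneg _).trans (hρ J hJJ)
  have hsum := Finset.sum_nonneg (gridD_sum_nonneg (J := J) m s r)
  have hs0 : 0 ≤ 16 * (1 / 4 : ℝ) ^ J * s ^ 2 := by positivity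
  -- the smaller and the larger absolute value
  obtain ⟨c, M, hc0, hd, hd2, hcs, hMle, hprod⟩ : ∃ c M : ℝ, 0 ≤ c ∧ c ≤ M ∧
      (|s| - |r|) ^ 2 = (M - c) ^ 2 ∧ c ≤ |s| ∧
      (∀ j ∈ Finset.Icc 3 J, M ≤ qq ((1 / 2 : ℝ) ^ j) (m j + 2)) ∧
      (∀ (η : ℝ) (n : ℤ), 0 < η → c ≤ qq η n → qq η (n + 2) ≤ M →
        1 ≤ fG η n s ^ 2 * oG η n r ^ 2 + oG η n s ^ 2 * fG η n r ^ 2) := by
    rcases le_total |s| |r| with h | h
    · refine ⟨|s|, |r|, abs_nonneg _, h, by ring, le_rfl, hr, ?_⟩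
      intro η n hη h1 h2
      rw [fG_eq_one hη h1, oG_sq_eq_one hη h2]
      have : 0 ≤ oG η n s ^ 2 * fG η n r ^ 2 := by positivity
      linarith
    · refine ⟨|r|, |s|, abs_nonneg _, h, by ring, h, hs, ?_⟩
      intro η n hη h1 h2
      rw [fG_eq_one hη h1, oG_sq_eq_one hη h2]
      have : 0 ≤ fG η n s ^ 2 * oG η n r ^ 2 := by positivity
      linarith
  rw [hd2]
  by_cases hex : ∃ j, 3 ≤ j ∧ j ≤ J ∧ 4 * (1 / 2 : ℝ) ^ j * c < M - c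
  · obtain ⟨hj3, hjJ, hjd⟩ := Nat.find_spec hex
    set j := Nat.find hex with hjdef
    have hmin : ∀ i, i < j → ¬ (3 ≤ i ∧ i ≤ J ∧ 4 * (1 / 2 : ℝ) ^ i * c < M - c) :=
      fun i hi => Nat.find_min hex hi
    have hjm : j ∈ Finset.Icc 3 J := Finset.mem_Icc.2 ⟨hj3, hjJ⟩
    have hη : (0 : ℝ) < (1 / 2 : ℝ) ^ j := by positivity
    have hη8 : (1 / 2 : ℝ) ^ j ≤ 1 / 8 := by
      calc (1 / 2 : ℝ) ^ j ≤ (1 / 2 : ℝ) ^ 3 :=
            pow_le_pow_of_le_one (by norm_num) (by norm_num) hj3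
        _ = 1 / 8 := by norm_num
    have h4 : (1 / 4 : ℝ) ^ j = ((1 / 2 : ℝ) ^ j) ^ 2 := by
      rw [← pow_mul, mul_comm, pow_mul]; norm_num
    rcases le_or_gt M (qq ((1 / 2 : ℝ) ^ j) (2 - m j)) with hlow | hlow
    · have h5 : (M - c) ^ 2 ≤ (qq ((1 / 2 : ℝ) ^ j) (2 - m j)) ^ 2 := by
        apply pow_le_pow_left₀ (by linarith)
        linarith
      have h6 := hρ j hjm
      linarith
    · obtain ⟨n, hn, hn1, hn2, hn3⟩ := gridD_scale hη hη8 (m j) (c := c) (M := M)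
        (by linarith) (hMle j hjm) hlow
      have h7 := gridD_term (J := J) m s r hjm hn (hprod _ n hη hn1 hn2)
      have hq := qq_pos hη n
      have h8 : (M - c) ^ 2 ≤ 130 * (1 / 4 : ℝ) ^ j * (qq ((1 / 2 : ℝ) ^ j) n) ^ 2 := by
        rw [h4]
        rcases Nat.eq_or_lt_of_le hj3 with h3 | h3
        · have h9 : (1 / 2 : ℝ) ^ j = 1 / 8 := by rw [← h3]; norm_num
          have h10 : M - c ≤ (1 + (1 / 2 : ℝ) ^ j) ^ 3 * qq ((1 / 2 : ℝ) ^ j) n := by linarith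
          calc (M - c) ^ 2 ≤ ((1 + (1 / 2 : ℝ) ^ j) ^ 3 * qq ((1 / 2 : ℝ) ^ j) n) ^ 2 :=
                pow_le_pow_left₀ (by linarith) h10 2
            _ ≤ 130 * ((1 / 2 : ℝ) ^ j) ^ 2 * (qq ((1 / 2 : ℝ) ^ j) n) ^ 2 := by
                rw [mul_pow]
                apply mul_le_mul_of_nonneg_right _ (by positivity)
                rw [h9]; norm_num
        · have h9 := hmin (j - 1) (by omega)
          have h10 : M - c ≤ 4 * (1 / 2 : ℝ) ^ (j - 1) * c := by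
            by_contra hcon
            exact h9 ⟨by omega, by omega, not_le.1 hcon⟩
          have h11 : (1 / 2 : ℝ) ^ (j - 1) = 2 * (1 / 2 : ℝ) ^ j := by
            obtain ⟨i, hi⟩ : ∃ i, j = i + 1 := ⟨j - 1, by omega⟩
            rw [hi, Nat.add_sub_cancel, pow_succ]
            ring
          rw [h11] at h10
          have h12 : M - c ≤ 8 * (1 / 2 : ℝ) ^ j * qq ((1 / 2 : ℝ) ^ j) n := by
            calc M - c ≤ 4 * (2 * (1 / 2 : ℝ) ^ j) * c := h10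
              _ = 8 * (1 / 2 : ℝ) ^ j * c := by ring
              _ ≤ 8 * (1 / 2 : ℝ) ^ j * qq ((1 / 2 : ℝ) ^ j) n :=
                  mul_le_mul_of_nonneg_left hn1 (by positivity)
          calc (M - c) ^ 2 ≤ (8 * (1 / 2 : ℝ) ^ j * qq ((1 / 2 : ℝ) ^ j) n) ^ 2 :=
                pow_le_pow_left₀ (by linarith) h12 2
            _ = 64 * (((1 / 2 : ℝ) ^ j) ^ 2 * (qq ((1 / 2 : ℝ) ^ j) n) ^ 2) := by ring
            _ ≤ 130 * (((1 / 2 : ℝ) ^ j) ^ 2 * (qq ((1 / 2 : ℝ) ^ j) n) ^ 2) :=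
                mul_le_mul_of_nonneg_right (by norm_num) (by positivity)
            _ = 130 * ((1 / 2 : ℝ) ^ j) ^ 2 * (qq ((1 / 2 : ℝ) ^ j) n) ^ 2 := by ring
      linarith
  · have h5 : M - c ≤ 4 * (1 / 2 : ℝ) ^ J * c := by
      by_contra hcon
      exact hex ⟨J, hJ, le_rfl, not_le.1 hcon⟩
    have h6 : M - c ≤ 4 * (1 / 2 : ℝ) ^ J * |s| :=
      h5.trans (mul_le_mul_of_nonneg_left hcs (by positivity))
    have h7 : (M - c) ^ 2 ≤ 16 * (1 / 4 : ℝ) ^ J * s ^ 2 := by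
      calc (M - c) ^ 2 ≤ (4 * (1 / 2 : ℝ) ^ J * |s|) ^ 2 :=
            pow_le_pow_left₀ (by linarith) h6 2
        _ = 16 * ((1 / 2 : ℝ) ^ J) ^ 2 * |s| ^ 2 := by ring
        _ = 16 * (1 / 4 : ℝ) ^ J * s ^ 2 := by
            rw [sq_abs, ← pow_mul, mul_comm J 2, pow_mul]; norm_num
    linarith

end Pool.McT
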