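import Pool.Agent.McT.MatCfc

/-! The elements of square zero made from `x`. -/

set_option autoImplicit false

namespace Pool.McT

variable {A : Type*} [CStarAlgebra A] {τ : A →ₗ[ℂ] ℂ}

private theorem nil_cfc_mul {f g : ℝ → ℝ} (hf : Continuous f) (hg : Continuous g)
    (X : M2 A) : cfc f X * cfc g X = cfc (fun s => f s * g s) X :=
  (cfc_mul f g X hf.continuousOn hg.continuousOn).symm

private theorem nil_cm_zero (u : A) : cm (0 : A) u = 0 := by
  unfold cm
  rw [zero_mul, mul_zero, sub_zero]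

/-- Let `X = XX x`, `P = cfc f X = diag (P₀, P₁)`, `W = cfc g X = ((0, w), (w*, 0))`
(`cfc_even`, `cfc_odd`, `W` selfadjoint). `P * W = cfc (f g) X = 0`: `P₀ w = 0` and
`w P₁ = 0` (adjoint of `P₁ w* = 0`). `v = P₁ w` has `v² = 0` and
`N v = τ (w* P₁² w) = τ (w w* P₁²) = T (W² E P² E*)` (`tr2_E01`; `W² = diag (w w*, w* w)`,
`P² = diag (P₀², P₁²)`; `cfc (g ^ 2) X = W²`, `cfc (f ^ 2) X = P²`). `v' = P₀ w*`: `v'² = 0`
since `w* P₀ = (P₀ w)* = 0`, and `N v' = τ (w P₀² w*) = τ (P₀² w* w)`, which is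
`T (P² E W² E*)`... Then `NM`, `N_cm_mul_le` for `P₁ w` and `P₀ w*`, and `N_cm_UU`. -/
theorem nil_bound (hτ : IsTr τ) {F : Finset A} {κ : ℝ} (hκ : 0 ≤ κ) (hNM : NM τ F κ) (x : A)
    {f g : ℝ → ℝ} (hf : Continuous f) (hg : Continuous g) (hfe : ∀ s, f (-s) = f s)
    (hgo : ∀ s, g (-s) = - g s) (hfg : ∀ s, f s * g s = 0) (hf1 : ∀ s, |f s| ≤ 1)
    (hg1 : ∀ s, |g s| ≤ 1) :
    (tr2 τ (cfc (fun s => f s ^ 2) (XX x) * E01 * cfc (fun s => g s ^ 2) (XX x)
        * star E01)).re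
      + (tr2 τ (cfc (fun s => g s ^ 2) (XX x) * E01 * cfc (fun s => f s ^ 2) (XX x)
        * star E01)).re
      ≤ 2 * κ * ∑ u ∈ F, (N (tr2 τ) (cm (cfc f (XX x)) (UU u))
        + N (tr2 τ) (cm (cfc g (XX x)) (UU u))) := by
  have hP2 : cfc (fun s => f s ^ 2) (XX x) = cfc f (XX x) * cfc f (XX x) := by
    rw [nil_cfc_mul hf hf]
    congr 1
    funext s
    ring
  have hW2 : cfc (fun s => g s ^ 2) (XX x) = cfc g (XX x) * cfc g (XX x) := by
    rw [nil_cfc_mul hg hg]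
    congr 1
    funext s
    ring
  have hPW : cfc f (XX x) * cfc g (XX x) = 0 := by
    rw [nil_cfc_mul hf hg]
    simp only [hfg]
    exact cfc_const_zero ℝ (XX x)
  obtain ⟨hp01, hp10⟩ := cfc_even x hf hfe
  obtain ⟨hw00, hw11⟩ := cfc_odd x hg hgo
  have hPs : star (cfc f (XX x)) = cfc f (XX x) :=
    (cfc_predicate (R := ℝ) f (XX x) : IsSelfAdjoint _)
  have hWs : star (cfc g (XX x)) = cfc g (XX x) :=
    (cfc_predicate (R := ℝ) g (XX x) : IsSelfAdjoint _)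
  have hPn : ‖cfc f (XX x)‖ ≤ 1 := norm_cfc_le_one _ hf1
  have hWn : ‖cfc g (XX x)‖ ≤ 1 := norm_cfc_le_one _ hg1
  rw [hP2, hW2, tr2_E01, tr2_E01]
  generalize cfc f (XX x) = P at *
  generalize cfc g (XX x) = W at *
  obtain ⟨p0, hp0⟩ : ∃ p, p = ent P 0 0 := ⟨_, rfl⟩
  obtain ⟨p1, hp1⟩ : ∃ p, p = ent P 1 1 := ⟨_, rfl⟩
  obtain ⟨w, hw⟩ : ∃ p, p = ent W 0 1 := ⟨_, rfl⟩
  have hw' : ent W 1 0 = star w := by
    rw [hw, ← ent_star, hWs]
  have hp0s : star p0 = p0 := by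
    rw [hp0, ← ent_star, hPs]
  have hp1s : star p1 = p1 := by
    rw [hp1, ← ent_star, hPs]
  have hp0n : ‖p0‖ ≤ 1 := by
    rw [hp0]
    exact (norm_ent_le _ _ _).trans hPn
  have hp1n : ‖p1‖ ≤ 1 := by
    rw [hp1]
    exact (norm_ent_le _ _ _).trans hPn
  have hwn : ‖w‖ ≤ 1 := by
    rw [hw]
    exact (norm_ent_le _ _ _).trans hWn
  have hwn' : ‖star w‖ ≤ 1 := by
    rw [norm_star]
    exact hwn
  have z1 : p0 * w = 0 := by
    have := congrArg (fun M => ent M 0 1) hPW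
    simp only [ent_mul, ent_zero, hw11, mul_zero, add_zero] at this
    rw [hp0, hw]
    exact this
  have z2 : p1 * star w = 0 := by
    have := congrArg (fun M => ent M 1 0) hPW
    simp only [ent_mul, ent_zero, hw00, mul_zero, zero_add] at this
    rw [hp1, ← hw']
    exact this
  have z3 : w * p1 = 0 := by
    have := congrArg star z2
    rw [star_mul, star_star, hp1s, star_zero] at this
    exact this
  have z4 : star w * p0 = 0 := by
    have := congrArg star z1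
    rw [star_mul, hp0s, star_zero] at this
    exact this
  have e1 : ent (P * P) 0 0 = p0 * p0 := by
    rw [ent_mul, hp01, zero_mul, add_zero, ← hp0]
  have e2 : ent (P * P) 1 1 = p1 * p1 := by
    rw [ent_mul, hp10, zero_mul, zero_add, ← hp1]
  have e3 : ent (W * W) 0 0 = w * star w := by
    rw [ent_mul, hw00, zero_mul, zero_add, ← hw, hw']
  have e4 : ent (W * W) 1 1 = star w * w := by
    rw [ent_mul, hw11, mul_zero, add_zero, ← hw, hw']
  have n1 : N τ (p0 * star w) = (τ (ent (P * P) 0 0 * ent (W * W) 1 1)).re := by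
    unfold N
    rw [e1, e4, star_mul, star_star, hp0s, mul_assoc, hτ.comm]
    congr 2
    noncomm_ring
  have n2 : N τ (p1 * w) = (τ (ent (W * W) 0 0 * ent (P * P) 1 1)).re := by
    unfold N
    rw [e2, e3, star_mul, hp1s, mul_assoc, hτ.comm, hτ.comm (w * star w)]
    congr 2
    noncomm_ring
  rw [← n1, ← n2]
  have s1 : (p0 * star w) * (p0 * star w) = 0 := by
    rw [mul_assoc, ← mul_assoc (star w), z4, zero_mul, mul_zero]
  have s2 : (p1 * w) * (p1 * w) = 0 := by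
    rw [mul_assoc, ← mul_assoc w, z3, zero_mul, mul_zero]
  have b1 := hNM _ s1
  have b2 := hNM _ s2
  have c1 : ∀ u ∈ F, N τ (cm (p0 * star w) u) + N τ (cm (p1 * w) u) ≤
      2 * (N (tr2 τ) (cm P (UU u)) + N (tr2 τ) (cm W (UU u))) := by
    intro u _
    have d1 := N_cm_mul_le hτ hp0n hwn' u
    have d2 := N_cm_mul_le hτ hp1n hwn u
    rw [N_cm_UU hτ, N_cm_UU hτ, hp01, hp10, hw00, hw11, hw', ← hp0, ← hp1, ← hw, nil_cm_zero,
      N_zero]
    linarith
  calc N τ (p0 * star w) + N τ (p1 * w)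
      ≤ κ * ∑ u ∈ F, (N τ (cm (p0 * star w) u) + N τ (cm (p1 * w) u)) := by
        rw [Finset.sum_add_distrib, mul_add]
        exact add_le_add b1 b2
    _ ≤ κ * ∑ u ∈ F, 2 * (N (tr2 τ) (cm P (UU u)) + N (tr2 τ) (cm W (UU u))) :=
        mul_le_mul_of_nonneg_left (Finset.sum_le_sum c1) hκ
    _ = _ := by
        rw [← Finset.mul_sum]
        ring

end Pool.McT
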