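import Pool.Agent.McT.PT

/-! Consequences of the positivity transfer for commutators. -/

set_option autoImplicit false

namespace Pool.McT

variable {A : Type*} [CStarAlgebra A] {τ : A →ₗ[ℂ] ℂ}

theorem N_cm_selfAdjoint (hτ : IsTr τ) {b : A} (hb : IsSelfAdjoint b) (u : A) :
    N τ (cm b u) = (τ (b * b * u * star u)).re + (τ (u * (b * b) * star u)).re
      - 2 * (τ (b * u * b * star u)).re := by
  have hb' : star b = b := hb
  have h1 : star (cm b u) * cm b u =
      star u * (b * b * u) - star u * (b * u * b) - (b * star u) * (b * u) +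
        b * (star u * u * b) := by
    unfold cm
    rw [star_sub, star_mul, star_mul, hb']
    noncomm_ring
  have e1 : τ (star u * (b * b * u)) = τ (b * b * u * star u) := hτ.comm _ _
  have e2 : τ (star u * (b * u * b)) = τ (b * u * b * star u) := hτ.comm _ _
  have e3 : τ ((b * star u) * (b * u)) = τ (b * u * b * star u) := by
    rw [hτ.comm, mul_assoc (b * u) b (star u)]
  have e4 : τ (b * (star u * u * b)) = τ (u * (b * b) * star u) := by
    rw [hτ.comm, mul_assoc (star u) u b, mul_assoc, hτ.comm, mul_assoc u b b]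
  unfold N
  rw [h1, map_add, map_sub, map_sub, e1, e2, e3, e4]
  simp only [Complex.add_re, Complex.sub_re]
  ring

/-- the bilinear expression -/
private noncomputable def T_PTb (τ : A →ₗ[ℂ] ℂ) (h u : A) (f g : ℝ → ℝ) : ℝ :=
  (τ (cfc f h * u * cfc g h * star u)).re

private lemma T_mul_PTb {h : A} (u : A) (c : ℝ) {f : ℝ → ℝ} (hf : Continuous f) (g : ℝ → ℝ) :
    T_PTb τ h u (fun s => c * f s) g = c * T_PTb τ h u f g := by
  unfold T_PTb
  rw [cfc_const_mul c f h hf.continuousOn, smul_mul_assoc, smul_mul_assoc, smul_mul_assoc]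
  have h1 : ∀ x : A, (c • x : A) = (c : ℂ) • x := fun x => (Complex.coe_smul c x).symm
  rw [h1, map_smul, smul_eq_mul, Complex.re_ofReal_mul]

private lemma T_cm_PTb (hτ : IsTr τ) {h : A} (hh : IsSelfAdjoint h) (u : A) {g : ℝ → ℝ}
    (hg : Continuous g) : N τ (cm (cfc g h) u) =
      T_PTb τ h u (fun s => g s ^ 2) (fun _ => 1) + T_PTb τ h u (fun _ => 1) (fun s => g s ^ 2)
        - 2 * T_PTb τ h u g g := by
  rw [N_cm_selfAdjoint hτ (cfc_predicate g h)]
  unfold T_PTb
  rw [cfc_pow g 2 h hg.continuousOn hh, cfc_const_one ℝ h hh, mul_one, one_mul, sq]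

private lemma pos_PTb (hτ : IsTr τ) {h : A} (hh : IsSelfAdjoint h) (u : A) {J : Type} [Fintype J]
    (w : J → ℝ) (f g : J → ℝ → ℝ) (hf : ∀ j, Continuous (f j)) (hg : ∀ j, Continuous (g j))
    (hpos : ∀ s r : ℝ, |s| ≤ ‖h‖ → |r| ≤ ‖h‖ → 0 ≤ ∑ j, w j * f j s * g j r) :
    0 ≤ ∑ j, w j * T_PTb τ h u (f j) (g j) := by
  have h1 := pos_transfer hτ hh u (fun j s => w j * f j s) g
    (fun j => continuous_const.mul (hf j)) hg hpos
  refine h1.trans_eq (Finset.sum_congr rfl fun j _ => ?_)
  exact T_mul_PTb u (w j) (hf j) (g j)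

/-- From `pos_transfer` with the kernel `c (s - r)² - ∑ i, (g i s - g i r)²` (index type
`Fin 3 ⊕ (ι × Fin 3)`, `Fintype.sum_sum_type`) and `N_cm_selfAdjoint`. -/
theorem comm_sum (hτ : IsTr τ) {h : A} (hh : IsSelfAdjoint h) (u : A) {ι : Type}
    [Fintype ι] (g : ι → ℝ → ℝ) (hg : ∀ i, Continuous (g i)) (w : ι → ℝ) (c : ℝ)
    (hker : ∀ s r : ℝ, |s| ≤ ‖h‖ → |r| ≤ ‖h‖ →
      ∑ i, w i * (g i s - g i r) ^ 2 ≤ c * (s - r) ^ 2) :
    ∑ i, w i * N τ (cm (cfc (g i) h) u) ≤ c * N τ (cm h u) := by
  have h1 := pos_PTb hτ hh u (J := Fin 3 ⊕ (ι × Fin 3))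
    (Sum.elim ![c, -(2 * c), c] fun i => ![-(w i.1), 2 * w i.1, -(w i.1)] i.2)
    (Sum.elim ![fun s => s ^ 2, fun s => s, fun _ => 1]
      fun i => ![fun s => g i.1 s ^ 2, fun s => g i.1 s, fun _ => 1] i.2)
    (Sum.elim ![fun _ => 1, fun s => s, fun s => s ^ 2]
      fun i => ![fun _ => 1, fun s => g i.1 s, fun s => g i.1 s ^ 2] i.2)
    (by
      rintro (j | ⟨i, j⟩)
      · fin_cases j
        · exact continuous_pow 2
        · exact continuous_id
        · exact continuous_const
      · fin_cases j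
        · exact (hg i).pow 2
        · exact hg i
        · exact continuous_const)
    (by
      rintro (j | ⟨i, j⟩)
      · fin_cases j
        · exact continuous_const
        · exact continuous_id
        · exact continuous_pow 2
      · fin_cases j
        · exact continuous_const
        · exact hg i
        · exact (hg i).pow 2)
    (by
      intro s r hs hr
      have h2 := hker s r hs hr
      rw [Fintype.sum_sum_type, Fintype.sum_prod_type, Fin.sum_univ_three]
      simp only [Fin.sum_univ_three, Sum.elim_inl, Sum.elim_inr, Matrix.cons_val_zero,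
        Matrix.cons_val_one, Matrix.cons_val]
      have h3 : ∑ i, (-(w i) * g i s ^ 2 * 1 + 2 * w i * g i s * g i r + -(w i) * 1 * g i r ^ 2) =
          -∑ i, w i * (g i s - g i r) ^ 2 := by
        rw [← Finset.sum_neg_distrib]
        exact Finset.sum_congr rfl fun i _ => by ring
      rw [h3]
      linarith)
  rw [Fintype.sum_sum_type, Fintype.sum_prod_type, Fin.sum_univ_three] at h1
  simp only [Fin.sum_univ_three, Sum.elim_inl, Sum.elim_inr, Matrix.cons_val_zero,
    Matrix.cons_val_one, Matrix.cons_val] at h1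
  have h4 : N τ (cm h u) = T_PTb τ h u (fun s => s ^ 2) (fun _ => 1) +
      T_PTb τ h u (fun _ => 1) (fun s => s ^ 2) - 2 * T_PTb τ h u (fun s => s) fun s => s := by
    have h5 := T_cm_PTb hτ hh u (g := fun s => s) continuous_id
    rwa [cfc_id' ℝ h hh] at h5
  have h6 : ∑ i, w i * N τ (cm (cfc (g i) h) u) =
      -∑ i, (-(w i) * T_PTb τ h u (fun s => g i s ^ 2) (fun _ => 1) +
        2 * w i * T_PTb τ h u (fun s => g i s) (fun s => g i s) +
        -(w i) * T_PTb τ h u (fun _ => 1) (fun s => g i s ^ 2)) := by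
    rw [← Finset.sum_neg_distrib]
    refine Finset.sum_congr rfl fun i _ => ?_
    rw [T_cm_PTb hτ hh u (hg i)]
    ring
  rw [h6, h4]
  linarith

/-- From `pos_transfer` with the kernel
`α s² + β + ∑ i, w i (f i s² g i r² + g i s² f i r²) - (|s| - |r|)²` and `N_cm_selfAdjoint`. -/
theorem transfer_abs (hτ : IsTr τ) {h : A} (hh : IsSelfAdjoint h) (u : A) {ι : Type}
    [Fintype ι] (f g : ι → ℝ → ℝ) (hf : ∀ i, Continuous (f i)) (hg : ∀ i, Continuous (g i))
    (w : ι → ℝ) (α β : ℝ)
    (hker : ∀ s r : ℝ, |s| ≤ ‖h‖ → |r| ≤ ‖h‖ →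
      (|s| - |r|) ^ 2 ≤ α * s ^ 2 + β
        + ∑ i, w i * (f i s ^ 2 * g i r ^ 2 + g i s ^ 2 * f i r ^ 2)) :
    N τ (cm (cfc (fun s : ℝ => |s|) h) u) ≤ α * (τ (h * h * u * star u)).re + β * N τ u
      + ∑ i, w i *
        ((τ (cfc (fun s => f i s ^ 2) h * u * cfc (fun s => g i s ^ 2) h * star u)).re
        + (τ (cfc (fun s => g i s ^ 2) h * u * cfc (fun s => f i s ^ 2) h * star u)).re) := by
  have h1 := pos_PTb hτ hh u (J := Fin 5 ⊕ (ι × Fin 2))
    (Sum.elim ![α, β, -1, 2, -1] fun i => w i.1)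
    (Sum.elim ![fun s => s ^ 2, fun _ => 1, fun s => |s| ^ 2, fun s => |s|, fun _ => 1]
      fun i => ![fun s => f i.1 s ^ 2, fun s => g i.1 s ^ 2] i.2)
    (Sum.elim ![fun _ => 1, fun _ => 1, fun _ => 1, fun s => |s|, fun s => |s| ^ 2]
      fun i => ![fun s => g i.1 s ^ 2, fun s => f i.1 s ^ 2] i.2)
    (by
      rintro (j | ⟨i, j⟩)
      · fin_cases j
        · exact continuous_pow 2
        · exact continuous_const
        · exact continuous_abs.pow 2
        · exact continuous_abs
        · exact continuous_const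
      · fin_cases j
        · exact (hf i).pow 2
        · exact (hg i).pow 2)
    (by
      rintro (j | ⟨i, j⟩)
      · fin_cases j
        · exact continuous_const
        · exact continuous_const
        · exact continuous_const
        · exact continuous_abs
        · exact continuous_abs.pow 2
      · fin_cases j
        · exact (hg i).pow 2
        · exact (hf i).pow 2)
    (by
      intro s r hs hr
      have h2 := hker s r hs hr
      rw [Fintype.sum_sum_type, Fintype.sum_prod_type, Fin.sum_univ_five]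
      simp only [Fin.sum_univ_two, Sum.elim_inl, Sum.elim_inr, Matrix.cons_val_zero,
        Matrix.cons_val_one, Matrix.cons_val]
      have h3 : ∑ i, (w i * f i s ^ 2 * g i r ^ 2 + w i * g i s ^ 2 * f i r ^ 2) =
          ∑ i, w i * (f i s ^ 2 * g i r ^ 2 + g i s ^ 2 * f i r ^ 2) :=
        Finset.sum_congr rfl fun i _ => by ring
      rw [h3]
      linarith)
  rw [Fintype.sum_sum_type, Fintype.sum_prod_type, Fin.sum_univ_five] at h1
  simp only [Fin.sum_univ_two, Sum.elim_inl, Sum.elim_inr, Matrix.cons_val_zero,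
    Matrix.cons_val_one, Matrix.cons_val] at h1
  have h4 := T_cm_PTb hτ hh u (g := fun s => |s|) continuous_abs
  have h5 : T_PTb τ h u (fun s => s ^ 2) (fun _ => 1) = (τ (h * h * u * star u)).re := by
    unfold T_PTb
    rw [cfc_pow_id (R := ℝ) h 2 hh, cfc_const_one ℝ h hh, mul_one, sq]
  have h6 : T_PTb τ h u (fun _ => 1) (fun _ => 1) = N τ u := by
    unfold T_PTb N
    rw [cfc_const_one ℝ h hh, mul_one, one_mul, hτ.comm]
  have h7 : ∑ i, w i *
        ((τ (cfc (fun s => f i s ^ 2) h * u * cfc (fun s => g i s ^ 2) h * star u)).re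
        + (τ (cfc (fun s => g i s ^ 2) h * u * cfc (fun s => f i s ^ 2) h * star u)).re) =
      ∑ i, (w i * T_PTb τ h u (fun s => f i s ^ 2) (fun s => g i s ^ 2) +
        w i * T_PTb τ h u (fun s => g i s ^ 2) (fun s => f i s ^ 2)) := by
    refine Finset.sum_congr rfl fun i _ => ?_
    unfold T_PTb
    ring
  rw [h7, h4]
  rw [h5, h6] at h1
  linarith

end Pool.McT
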