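import Pool.Agent.McT.AD
import Pool.Agent.McT.Nil
import Pool.Agent.McT.PTb
import Pool.Agent.McT.GridB
import Pool.Agent.McT.GridD

/-! The distance of the absolute values of `x` and `x*`. -/

set_option autoImplicit false

namespace Pool.McT

variable {A : Type*} [CStarAlgebra A] {τ : A →ₗ[ℂ] ℂ}

/-- Let `X = XX x`, `Y = cfc |·| X = diag (g, h)` (`cfc_even`), `Y * Y = X * X` gives the first
four claims. For `ρ > 0` take `m j` from `exists_grid` with `R = ‖X‖`, `η = 2^(-j)`. By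
`N_cm_E01`, `transfer_abs` (index type the pairs `(j, n)`, `3 ≤ j ≤ J`, `-m j ≤ n ≤ m j`, for
instance the subtype of `(Finset.Icc 3 J).sigma _`; `f = fG η n`, `g = oG η n`,
`w = 130 η² (qq η n)²`, `α = 16 * 4^(-J)`, `β = ρ`, `detectM`), `tr2_E01`, `nil_bound`,
`comm_sum` (with `sum_fG_le`, `sum_oG_le`, `c = 1 / η²`), `N_cm_XX`:
`N (g - h) ≤ 16 * 4^(-J) τ (x x*) + ρ N (E01) + ∑_j 130 η² * 2 κ * ∑_u (2 / η²) N (cm X (UU u))
  ≤ 16 * 4^(-J) N x + ρ N E01 + 520 κ J S x`. Let `ρ → 0` (`g`, `h` do not depend on `ρ`). -/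
theorem absdiff (hτ : IsTr τ) {F : Finset A} {κ : ℝ} (hκ : 0 ≤ κ) (hNM : NM τ F κ) {J : ℕ}
    (hJ : 3 ≤ J) : AD τ F (16 * (1 / 4 : ℝ) ^ J) (520 * κ * J) := by
  intro x
  have hX : IsSelfAdjoint (XX x) := XX_selfAdjoint x
  obtain ⟨hY01, hY10⟩ := cfc_even x (f := fun s : ℝ => |s|) continuous_abs (fun s => abs_neg s)
  have hYs : IsSelfAdjoint (cfc (fun s : ℝ => |s|) (XX x)) := cfc_predicate _ _
  have hYY : cfc (fun s : ℝ => |s|) (XX x) * cfc (fun s : ℝ => |s|) (XX x) = XX x * XX x := by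
    rw [← cfc_mul (fun s : ℝ => |s|) (fun s : ℝ => |s|) (XX x) continuous_abs.continuousOn
      continuous_abs.continuousOn]
    have h1 : (fun s : ℝ => |s| * |s|) = fun s : ℝ => s ^ 2 := by
      funext s
      rw [abs_mul_abs_self, sq]
    rw [h1, cfc_pow_id (R := ℝ) (XX x) 2 hX, sq]
  rw [XX_mul_XX] at hYY
  refine ⟨ent (cfc (fun s : ℝ => |s|) (XX x)) 0 0, ent (cfc (fun s : ℝ => |s|) (XX x)) 1 1,
    ?_, ?_, ?_, ?_, ?_⟩
  · show star (ent (cfc (fun s : ℝ => |s|) (XX x)) 0 0) = _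
    rw [← ent_star, hYs.star_eq]
  · show star (ent (cfc (fun s : ℝ => |s|) (XX x)) 1 1) = _
    rw [← ent_star, hYs.star_eq]
  · have h1 := congrArg (fun M => ent M 0 0) hYY
    simp only [ent_mul, ent_mk2_00, hY01, zero_mul, add_zero] at h1
    exact h1
  · have h1 := congrArg (fun M => ent M 1 1) hYY
    simp only [ent_mul, ent_mk2_11, hY10, zero_mul, zero_add] at h1
    exact h1
  · rw [← N_cm_E01 hτ _ hY01 hY10]
    have hC : 0 ≤ N (tr2 τ) (E01 : M2 A) := N_nonneg (isTr_tr2 hτ) _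
    have hS : 0 ≤ S τ F x :=
      Finset.sum_nonneg fun u _ => add_nonneg (N_nonneg hτ _) (N_nonneg hτ _)
    refine le_of_forall_pos_le_add fun ε hε => ?_
    have hρ : 0 < ε / (N (tr2 τ) (E01 : M2 A) + 1) := div_pos hε (by linarith)
    have hη : ∀ j : ℕ, 0 < (1 / 2 : ℝ) ^ j := fun j => by positivity
    choose m hm1 hm2 using fun j : ℕ =>
      exists_grid (hη j) ‖XX x‖ (ε / (N (tr2 τ) (E01 : M2 A) + 1)) hρ
    -- the index set
    obtain ⟨I, hI⟩ : ∃ I : Finset (Σ _ : ℕ, ℤ),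
        I = (Finset.Icc 3 J).sigma fun j => Finset.Icc (-(m j : ℤ)) (m j) := ⟨_, rfl⟩
    have hsum : ∀ φ : ℕ → ℤ → ℝ, ∑ i : {p // p ∈ I}, φ i.1.1 i.1.2 =
        ∑ j ∈ Finset.Icc 3 J, ∑ n ∈ Finset.Icc (-(m j : ℤ)) (m j), φ j n := by
      intro φ
      rw [Finset.sum_coe_sort I (fun p => φ p.1 p.2), hI, Finset.sum_sigma]
    have h1 := transfer_abs (isTr_tr2 hτ) hX (E01 : M2 A)
      (ι := {p // p ∈ I}) (fun i => fG ((1 / 2 : ℝ) ^ i.1.1) i.1.2)
      (fun i => oG ((1 / 2 : ℝ) ^ i.1.1) i.1.2)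
      (fun i => continuous_fG _ _) (fun i => continuous_oG _ _)
      (fun i => 130 * (1 / 4 : ℝ) ^ i.1.1 * (qq ((1 / 2 : ℝ) ^ i.1.1) i.1.2) ^ 2)
      (16 * (1 / 4 : ℝ) ^ J) (ε / (N (tr2 τ) (E01 : M2 A) + 1))
      (by
        intro s r hs hr
        have h2 := detectM hJ m (fun j _ => hm2 j) (fun j _ => hs.trans (hm1 j))
          (fun j _ => hr.trans (hm1 j))
        rw [hsum (fun j n => 130 * (1 / 4 : ℝ) ^ j * (qq ((1 / 2 : ℝ) ^ j) n) ^ 2 *
          (fG ((1 / 2 : ℝ) ^ j) n s ^ 2 * oG ((1 / 2 : ℝ) ^ j) n r ^ 2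
          + oG ((1 / 2 : ℝ) ^ j) n s ^ 2 * fG ((1 / 2 : ℝ) ^ j) n r ^ 2))]
        exact h2)
    have h2 : (tr2 τ (XX x * XX x * E01 * star E01)).re = N τ x := by
      have h3 := tr2_E01 (τ := τ) (XX x * XX x) (1 : M2 A)
      rw [mul_one, ent_one_11, XX_mul_XX, ent_mk2_00, mul_one, hτ.comm] at h3
      rw [XX_mul_XX, h3]
      rfl
    have h3 : ε / (N (tr2 τ) (E01 : M2 A) + 1) * N (tr2 τ) (E01 : M2 A) ≤ ε := by
      rw [div_mul_eq_mul_div, div_le_iff₀ (by linarith)]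
      nlinarith
    have hf : ∀ (j : ℕ) (u : A), ∑ n ∈ Finset.Icc (-(m j : ℤ)) (m j),
        (qq ((1 / 2 : ℝ) ^ j) n) ^ 2 *
          N (tr2 τ) (cm (cfc (fG ((1 / 2 : ℝ) ^ j) n) (XX x)) (UU u)) ≤
          1 / ((1 / 2 : ℝ) ^ j) ^ 2 * N (tr2 τ) (cm (XX x) (UU u)) := by
      intro j u
      rw [← Finset.sum_coe_sort]
      refine comm_sum (isTr_tr2 hτ) hX (UU u)
        (ι := {n // n ∈ Finset.Icc (-(m j : ℤ)) (m j)}) (fun i => fG _ i)
        (fun i => continuous_fG _ i) (fun i => (qq _ i) ^ 2) _ ?_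
      intro s r _ _
      have h4 := sum_fG_le (hη j) (Finset.Icc (-(m j : ℤ)) (m j)) s r
      rw [← Finset.sum_coe_sort] at h4
      rw [one_div_mul_eq_div]
      exact h4
    have ho : ∀ (j : ℕ) (u : A), ∑ n ∈ Finset.Icc (-(m j : ℤ)) (m j),
        (qq ((1 / 2 : ℝ) ^ j) n) ^ 2 *
          N (tr2 τ) (cm (cfc (oG ((1 / 2 : ℝ) ^ j) n) (XX x)) (UU u)) ≤
          1 / ((1 / 2 : ℝ) ^ j) ^ 2 * N (tr2 τ) (cm (XX x) (UU u)) := by
      intro j u
      rw [← Finset.sum_coe_sort]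
      refine comm_sum (isTr_tr2 hτ) hX (UU u)
        (ι := {n // n ∈ Finset.Icc (-(m j : ℤ)) (m j)}) (fun i => oG _ i)
        (fun i => continuous_oG _ i) (fun i => (qq _ i) ^ 2) _ ?_
      intro s r _ _
      have h4 := sum_oG_le (hη j) (Finset.Icc (-(m j : ℤ)) (m j)) s r
      rw [← Finset.sum_coe_sort] at h4
      rw [one_div_mul_eq_div]
      exact h4
    have h4 : ∀ j : ℕ, ∑ n ∈ Finset.Icc (-(m j : ℤ)) (m j),
        130 * (1 / 4 : ℝ) ^ j * (qq ((1 / 2 : ℝ) ^ j) n) ^ 2 *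
        ((tr2 τ (cfc (fun s => fG ((1 / 2 : ℝ) ^ j) n s ^ 2) (XX x) * E01 *
          cfc (fun s => oG ((1 / 2 : ℝ) ^ j) n s ^ 2) (XX x) * star E01)).re
        + (tr2 τ (cfc (fun s => oG ((1 / 2 : ℝ) ^ j) n s ^ 2) (XX x) * E01 *
          cfc (fun s => fG ((1 / 2 : ℝ) ^ j) n s ^ 2) (XX x) * star E01)).re)
        ≤ 520 * κ * S τ F x := by
      intro j
      calc _ ≤ ∑ n ∈ Finset.Icc (-(m j : ℤ)) (m j),
            130 * (1 / 4 : ℝ) ^ j * (qq ((1 / 2 : ℝ) ^ j) n) ^ 2 *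
            (2 * κ * ∑ u ∈ F, (N (tr2 τ) (cm (cfc (fG ((1 / 2 : ℝ) ^ j) n) (XX x)) (UU u))
              + N (tr2 τ) (cm (cfc (oG ((1 / 2 : ℝ) ^ j) n) (XX x)) (UU u)))) := by
            refine Finset.sum_le_sum fun n _ => mul_le_mul_of_nonneg_left ?_ (by positivity)
            exact nil_bound hτ hκ hNM x (continuous_fG _ n) (continuous_oG _ n) (fG_neg _ n)
              (oG_neg _ n) (fG_mul_oG (hη j) n) (abs_fG_le _ n) (abs_oG_le _ n)
        _ = 260 * (1 / 4 : ℝ) ^ j * κ * ∑ u ∈ F, (∑ n ∈ Finset.Icc (-(m j : ℤ)) (m j),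
            (qq ((1 / 2 : ℝ) ^ j) n) ^ 2 *
              N (tr2 τ) (cm (cfc (fG ((1 / 2 : ℝ) ^ j) n) (XX x)) (UU u)) +
            ∑ n ∈ Finset.Icc (-(m j : ℤ)) (m j), (qq ((1 / 2 : ℝ) ^ j) n) ^ 2 *
              N (tr2 τ) (cm (cfc (oG ((1 / 2 : ℝ) ^ j) n) (XX x)) (UU u))) := by
            simp only [← Finset.sum_add_distrib]
            rw [Finset.sum_comm, Finset.mul_sum]
            refine Finset.sum_congr rfl fun i _ => ?_
            simp only [Finset.mul_sum]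
            refine Finset.sum_congr rfl fun u _ => ?_
            ring
        _ ≤ 260 * (1 / 4 : ℝ) ^ j * κ * ∑ u ∈ F,
            (1 / ((1 / 2 : ℝ) ^ j) ^ 2 * N (tr2 τ) (cm (XX x) (UU u)) +
            1 / ((1 / 2 : ℝ) ^ j) ^ 2 * N (tr2 τ) (cm (XX x) (UU u))) := by
            refine mul_le_mul_of_nonneg_left ?_ (by positivity)
            exact Finset.sum_le_sum fun u _ => add_le_add (hf j u) (ho j u)
        _ = 520 * κ * S τ F x := by
            have h5 : (1 / 4 : ℝ) ^ j = ((1 / 2 : ℝ) ^ j) ^ 2 := by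
              rw [← pow_mul, mul_comm, pow_mul]
              norm_num
            have h6 : ((1 / 2 : ℝ) ^ j) ^ 2 ≠ 0 := by positivity
            unfold S
            rw [h5, Finset.mul_sum, Finset.mul_sum]
            refine Finset.sum_congr rfl fun u _ => ?_
            rw [N_cm_XX hτ]
            field_simp
            ring
    have h5 : ∑ j ∈ Finset.Icc 3 J, 520 * κ * S τ F x ≤ 520 * κ * J * S τ F x := by
      rw [Finset.sum_const, Nat.card_Icc, nsmul_eq_mul]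
      have h6 : ((J + 1 - 3 : ℕ) : ℝ) ≤ J := by
        exact_mod_cast (by omega : J + 1 - 3 ≤ J)
      have h7 : 0 ≤ 520 * κ * S τ F x := by positivity
      calc ((J + 1 - 3 : ℕ) : ℝ) * (520 * κ * S τ F x) ≤ J * (520 * κ * S τ F x) :=
            mul_le_mul_of_nonneg_right h6 h7
        _ = 520 * κ * J * S τ F x := by ring
    have h6 := hsum (fun j n => 130 * (1 / 4 : ℝ) ^ j * (qq ((1 / 2 : ℝ) ^ j) n) ^ 2 *
        ((tr2 τ (cfc (fun s => fG ((1 / 2 : ℝ) ^ j) n s ^ 2) (XX x) * E01 *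
          cfc (fun s => oG ((1 / 2 : ℝ) ^ j) n s ^ 2) (XX x) * star E01)).re
        + (tr2 τ (cfc (fun s => oG ((1 / 2 : ℝ) ^ j) n s ^ 2) (XX x) * E01 *
          cfc (fun s => fG ((1 / 2 : ℝ) ^ j) n s ^ 2) (XX x) * star E01)).re))
    have h7 := Finset.sum_le_sum fun j (_ : j ∈ Finset.Icc 3 J) => h4 j
    rw [h2, h6] at h1
    linarith

end Pool.McT
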