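import Pool.Agent.McT.Defs

/-! Basic properties of the 2-norm of a positive tracial functional. -/

set_option autoImplicit false

namespace Pool.McT

variable {A : Type*} [CStarAlgebra A] {τ : A →ₗ[ℂ] ℂ}

theorem N_nonneg (hτ : IsTr τ) (x : A) : 0 ≤ N τ x := hτ.nonneg x

theorem N_star (hτ : IsTr τ) (x : A) : N τ (star x) = N τ x := by
  unfold N
  rw [star_star, hτ.comm]

theorem N_neg (x : A) : N τ (-x) = N τ x := by
  unfold N
  rw [star_neg, neg_mul_neg]

theorem N_zero : N τ (0 : A) = 0 := by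
  unfold N
  rw [mul_zero, map_zero, Complex.zero_re]

theorem N_smul (c : ℂ) (x : A) : N τ (c • x) = ‖c‖ ^ 2 * N τ x := by
  unfold N
  rw [star_smul, smul_mul_smul_comm, map_smul, smul_eq_mul]
  have h1 : star c * c = ((Complex.normSq c : ℝ) : ℂ) := (Complex.normSq_eq_conj_mul_self).symm
  rw [h1, Complex.re_ofReal_mul, Complex.normSq_eq_norm_sq]

theorem tau_star (hτ : IsTr τ) (x : A) : τ (star x) = starRingEnd ℂ (τ x) := by
  have h0 := hτ.real x
  have h1 : (τ (1 : A)).im = 0 := by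
    have := hτ.real (1 : A)
    rwa [star_one, one_mul] at this
  have h2 := hτ.real (x + 1)
  have h3 := hτ.real (x + Complex.I • (1 : A))
  have e2 : star (x + 1) * (x + 1) = star x * x + star x + x + 1 := by
    rw [star_add, star_one]
    noncomm_ring
  have e3 : star (x + Complex.I • (1 : A)) * (x + Complex.I • (1 : A)) =
      star x * x + Complex.I • star x - Complex.I • x + 1 := by
    have hI : star Complex.I = -Complex.I := Complex.conj_I
    rw [star_add, star_smul, star_one, hI, add_mul, mul_add, mul_add, smul_mul_smul_comm,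
      smul_mul_assoc, one_mul, mul_smul_comm, mul_one, one_mul, neg_mul, Complex.I_mul_I, neg_neg,
      one_smul, neg_smul]
    abel
  rw [e2] at h2
  rw [e3] at h3
  simp only [map_add, map_sub, map_smul, smul_eq_mul, Complex.add_im, Complex.sub_im,
    Complex.I_mul_im] at h2 h3
  apply Complex.ext
  · rw [Complex.conj_re]
    linarith
  · rw [Complex.conj_im]
    linarith

theorem N_par (x y : A) : N τ (x + y) + N τ (x - y) = 2 * N τ x + 2 * N τ y := by
  have h : star (x + y) * (x + y) + star (x - y) * (x - y) =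
      (star x * x + star x * x) + (star y * y + star y * y) := by
    rw [star_add, star_sub]
    noncomm_ring
  have h1 := congrArg (fun a => (τ a).re) h
  simp only [map_add, Complex.add_re] at h1
  unfold N
  linarith

theorem N_add_le (hτ : IsTr τ) (x y : A) : N τ (x + y) ≤ 2 * N τ x + 2 * N τ y := by
  have h1 := N_par (τ := τ) x y
  have h2 := N_nonneg hτ (x - y)
  linarith

private theorem basic_expand (hτ : IsTr τ) (x y : A) :
    N τ (x + y) = N τ x + N τ y + 2 * (τ (star x * y)).re := by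
  have h : star (x + y) * (x + y) = star x * x + star y * y + star x * y + star (star x * y) := by
    rw [star_add, star_mul, star_star]
    noncomm_ring
  unfold N
  rw [h]
  simp only [map_add, Complex.add_re]
  rw [tau_star hτ, Complex.conj_re]
  ring

private theorem basic_cs (hτ : IsTr τ) (a b : A) :
    ‖τ (star a * b)‖ ^ 2 ≤ N τ a * N τ b := by
  set z := τ (star a * b) with hz
  have ha := N_nonneg hτ a
  have hb := N_nonneg hτ b
  have h1 : ∀ s : ℝ, 0 ≤ (‖z‖ ^ 2 * N τ a) * (s * s) + (-2 * ‖z‖ ^ 2) * s + N τ b := by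
    intro s
    have h2 := N_nonneg hτ ((-(s : ℂ) * z) • a + b)
    rw [basic_expand hτ, N_smul, star_smul, smul_mul_assoc, map_smul, smul_eq_mul, ← hz] at h2
    have h3 : star (-(s : ℂ) * z) * z = ((-(s * ‖z‖ ^ 2) : ℝ) : ℂ) := by
      have h4 : star z * z = ((‖z‖ ^ 2 : ℝ) : ℂ) := by
        rw [← Complex.normSq_eq_norm_sq]
        exact (Complex.normSq_eq_conj_mul_self).symm
      have h5 : star (-(s : ℂ) * z) = -(s : ℂ) * star z := by
        rw [star_mul, star_neg]
        have : star (s : ℂ) = (s : ℂ) := Complex.conj_ofReal s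
        rw [this]
        ring
      rw [h5, mul_assoc, h4]
      push_cast
      ring
    rw [h3, Complex.ofReal_re, norm_mul, norm_neg, Complex.norm_real, mul_pow, Real.norm_eq_abs,
      sq_abs] at h2
    nlinarith [h2]
  have h6 := discrim_le_zero h1
  unfold discrim at h6
  by_cases hz0 : ‖z‖ ^ 2 = 0
  · rw [hz0]
    positivity
  · have hpos : 0 < ‖z‖ ^ 2 := lt_of_le_of_ne (by positivity) (Ne.symm hz0)
    by_contra hlt
    rw [not_le] at hlt
    nlinarith [mul_pos hpos (sub_pos.2 hlt)]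

/-- Cauchy-Schwarz. -/
theorem tau_mul_sq_le (hτ : IsTr τ) (x y : A) : ‖τ (x * y)‖ ^ 2 ≤ N τ x * N τ y := by
  have h := basic_cs hτ (star x) y
  rwa [star_star, N_star hτ] at h

/-- `star x * x ≤ ‖x‖²` gives this (write `‖x‖² - star x * x = star c * c`, local
`CStarAlgebra.spectralOrder`). -/
theorem N_mul_le_left (hτ : IsTr τ) (x y : A) : N τ (x * y) ≤ ‖x‖ ^ 2 * N τ y := by
  let _ := CStarAlgebra.spectralOrder A
  have _ := CStarAlgebra.spectralOrderedRing A
  have h1 : star x * x ≤ algebraMap ℝ A (‖x‖ ^ 2) := CStarAlgebra.star_mul_le_algebraMap_norm_sq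
  obtain ⟨c, hc⟩ := CStarAlgebra.nonneg_iff_eq_star_mul_self.1 (sub_nonneg.2 h1)
  have h2 : star (c * y) * (c * y) = ((‖x‖ ^ 2 : ℝ) : ℂ) • (star y * y) -
      star (x * y) * (x * y) := by
    have e : star (c * y) * (c * y) = star y * (star c * c) * y := by
      rw [star_mul]
      noncomm_ring
    have e' : star (x * y) * (x * y) = star y * (star x * x) * y := by
      rw [star_mul]
      noncomm_ring
    rw [e, e', ← hc, mul_sub, sub_mul, Algebra.algebraMap_eq_smul_one, mul_smul_comm, mul_one,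
      smul_mul_assoc]
    congr 1
  have h3 := N_nonneg hτ (c * y)
  unfold N at h3 ⊢
  rw [h2, map_sub, Complex.sub_re, map_smul, smul_eq_mul, Complex.re_ofReal_mul] at h3
  linarith

theorem N_mul_le_right (hτ : IsTr τ) (x y : A) : N τ (x * y) ≤ ‖y‖ ^ 2 * N τ x := by
  have h := N_mul_le_left hτ (star y) (star x)
  rwa [← star_mul, N_star hτ, norm_star, N_star hτ] at h

/-- The triangle inequality for the 2-norm. -/
theorem sqrt_N_add_le (hτ : IsTr τ) (x y : A) :
    Real.sqrt (N τ (x + y)) ≤ Real.sqrt (N τ x) + Real.sqrt (N τ y) := by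
  have hx := N_nonneg hτ x
  have hy := N_nonneg hτ y
  have h1 := basic_cs hτ x y
  have h2 : (τ (star x * y)).re ≤ Real.sqrt (N τ x) * Real.sqrt (N τ y) := by
    refine (Complex.re_le_norm _).trans ?_
    rw [← Real.sqrt_mul hx]
    exact Real.le_sqrt_of_sq_le h1
  apply Real.sqrt_le_iff.2
  refine ⟨by positivity, ?_⟩
  rw [basic_expand hτ, add_sq, Real.sq_sqrt hx, Real.sq_sqrt hy]
  linarith

/-- `τ` is bounded: Cauchy-Schwarz with `1` and `N_mul_le_left`. -/
theorem norm_tau_le (hτ : IsTr τ) (x : A) : ‖τ x‖ ≤ N τ 1 * ‖x‖ := by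
  have h1 := tau_mul_sq_le hτ 1 x
  rw [one_mul] at h1
  have h2 := N_mul_le_left hτ x 1
  rw [mul_one] at h2
  have h3 := N_nonneg hτ (1 : A)
  have h4 : ‖τ x‖ ^ 2 ≤ (N τ 1 * ‖x‖) ^ 2 := by
    calc ‖τ x‖ ^ 2 ≤ N τ 1 * N τ x := h1
      _ ≤ N τ 1 * (‖x‖ ^ 2 * N τ 1) := mul_le_mul_of_nonneg_left h2 h3
      _ = (N τ 1 * ‖x‖) ^ 2 := by ring
  exact (pow_le_pow_iff_left₀ (norm_nonneg _) (by positivity) two_ne_zero).1 h4

/-- `N [w, u] = N [w*, u*]`. -/
theorem N_cm_star (hτ : IsTr τ) (w u : A) : N τ (cm (star w) u) = N τ (cm w (star u)) := by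
  have h : star (cm (star w) u) = -cm w (star u) := by
    unfold cm
    rw [star_sub, star_mul, star_mul, star_star]
    abel
  rw [← N_star hτ, h, N_neg]

theorem N_cm_mul_le (hτ : IsTr τ) {p w : A} (hp : ‖p‖ ≤ 1) (hw : ‖w‖ ≤ 1) (u : A) :
    N τ (cm (p * w) u) ≤ 2 * N τ (cm p u) + 2 * N τ (cm w u) := by
  have h : cm (p * w) u = cm p u * w + p * cm w u := by
    unfold cm
    noncomm_ring
  rw [h]
  have h1 := N_add_le hτ (cm p u * w) (p * cm w u)
  have h2 := N_mul_le_right hτ (cm p u) w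
  have h3 := N_mul_le_left hτ p (cm w u)
  have h4 := N_nonneg hτ (cm p u)
  have h5 := N_nonneg hτ (cm w u)
  have h6 : ‖w‖ ^ 2 ≤ 1 := pow_le_one₀ (norm_nonneg _) hw
  have h7 : ‖p‖ ^ 2 ≤ 1 := pow_le_one₀ (norm_nonneg _) hp
  have h8 : ‖w‖ ^ 2 * N τ (cm p u) ≤ N τ (cm p u) := mul_le_of_le_one_left h4 h6
  have h9 : ‖p‖ ^ 2 * N τ (cm w u) ≤ N τ (cm w u) := mul_le_of_le_one_left h5 h7
  linarith

end Pool.McT
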