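import Mathlib

/-!
# MP_e74d26 (McDuff property of tensor factors), Theorem R: definitions

`τ` is a positive tracial functional on the C*-algebra `A`, `N τ x = τ (x* x)` the square of the
2-norm. `NM τ F κ`: every `w` with `w² = 0` has `N w ≤ κ ∑_{u ∈ F} N (w u - u w)`.
-/

set_option autoImplicit false
set_option linter.unusedSectionVars false

namespace Pool.McT

/-- A positive tracial functional. -/
structure IsTr {A : Type*} [CStarAlgebra A] (τ : A →ₗ[ℂ] ℂ) : Prop where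
  comm : ∀ x y, τ (x * y) = τ (y * x)
  nonneg : ∀ x, 0 ≤ (τ (star x * x)).re
  real : ∀ x, (τ (star x * x)).im = 0

/-- The square of the 2-norm. -/
noncomputable def N {A : Type*} [CStarAlgebra A] (τ : A →ₗ[ℂ] ℂ) (x : A) : ℝ :=
  (τ (star x * x)).re

/-- The commutator. -/
def cm {A : Type*} [CStarAlgebra A] (x y : A) : A := x * y - y * x

/-- `N w ≤ κ ∑_{u ∈ F} N [w, u]` for all `w` with `w² = 0`. -/
def NM {A : Type*} [CStarAlgebra A] (τ : A →ₗ[ℂ] ℂ) (F : Finset A) (κ : ℝ) : Prop :=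
  ∀ w : A, w * w = 0 → N τ w ≤ κ * ∑ u ∈ F, N τ (cm w u)

/-- Sum of the commutators of `x` and `x*` with the elements of `F`. -/
noncomputable def S {A : Type*} [CStarAlgebra A] (τ : A →ₗ[ℂ] ℂ) (F : Finset A) (x : A) : ℝ :=
  ∑ u ∈ F, (N τ (cm x u) + N τ (cm (star x) u))

/-- The grid `(1 + η) ^ n`. -/
noncomputable def qq (η : ℝ) (n : ℤ) : ℝ := (1 + η) ^ n

/-- `1` for `|s| ≤ q ^ n`, `0` for `|s| ≥ q ^ (n + 1)`, linear between. -/
noncomputable def fG (η : ℝ) (n : ℤ) (s : ℝ) : ℝ :=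
  max 0 (min 1 ((qq η (n + 1) - |s|) / (η * qq η n)))

/-- Odd function: `0` for `|s| ≤ q ^ (n + 1)`, `1` for `s ≥ q ^ (n + 2)`, linear between. -/
noncomputable def oG (η : ℝ) (n : ℤ) (s : ℝ) : ℝ :=
  max 0 (min 1 ((s - qq η (n + 1)) / (η * qq η (n + 1)))) -
    max 0 (min 1 ((- s - qq η (n + 1)) / (η * qq η (n + 1))))

/-- 2 by 2 matrices over `A`, with their C*-algebra structure. -/
def M2 (A : Type*) : Type _ := CStarMatrix (Fin 2) (Fin 2) A

noncomputable instance instM2 {A : Type*} [CStarAlgebra A] : CStarAlgebra (M2 A) :=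
  letI := CStarAlgebra.spectralOrder A
  letI := CStarAlgebra.spectralOrderedRing A
  inferInstanceAs (CStarAlgebra (CStarMatrix (Fin 2) (Fin 2) A))

variable {A : Type*} [CStarAlgebra A]

/-- The entries of a matrix. -/
def ent (M : M2 A) (i j : Fin 2) : A := (M : CStarMatrix (Fin 2) (Fin 2) A) i j

/-- The matrix with given entries. -/
def mk2 (a b c d : A) : M2 A := CStarMatrix.ofMatrix !![a, b; c, d]

theorem ent_mk2_00 (a b c d : A) : ent (mk2 a b c d) 0 0 = a := rfl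
theorem ent_mk2_01 (a b c d : A) : ent (mk2 a b c d) 0 1 = b := rfl
theorem ent_mk2_10 (a b c d : A) : ent (mk2 a b c d) 1 0 = c := rfl
theorem ent_mk2_11 (a b c d : A) : ent (mk2 a b c d) 1 1 = d := rfl

theorem ent_add (M M' : M2 A) (i j : Fin 2) : ent (M + M') i j = ent M i j + ent M' i j := rfl
theorem ent_sub (M M' : M2 A) (i j : Fin 2) : ent (M - M') i j = ent M i j - ent M' i j := rfl
theorem ent_neg (M : M2 A) (i j : Fin 2) : ent (-M) i j = - ent M i j := rfl
theorem ent_smul (c : ℂ) (M : M2 A) (i j : Fin 2) : ent (c • M) i j = c • ent M i j := rfl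
theorem ent_star (M : M2 A) (i j : Fin 2) : ent (star M) i j = star (ent M j i) := rfl
theorem ent_mul (M M' : M2 A) (i j : Fin 2) :
    ent (M * M') i j = ent M i 0 * ent M' 0 j + ent M i 1 * ent M' 1 j := by
  let _ := CStarAlgebra.spectralOrder A
  let _ := CStarAlgebra.spectralOrderedRing A
  have := CStarMatrix.mul_apply (M := (M : CStarMatrix (Fin 2) (Fin 2) A))
    (N := (M' : CStarMatrix (Fin 2) (Fin 2) A)) (i := i) (k := j)
  rw [Fin.sum_univ_two] at this
  exact this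

theorem ent_zero (i j : Fin 2) : ent (0 : M2 A) i j = 0 := rfl
theorem ent_one_00 : ent (1 : M2 A) 0 0 = 1 := rfl
theorem ent_one_11 : ent (1 : M2 A) 1 1 = 1 := rfl
theorem ent_one_01 : ent (1 : M2 A) 0 1 = 0 := rfl
theorem ent_one_10 : ent (1 : M2 A) 1 0 = 0 := rfl

theorem ext2 {M M' : M2 A} (h00 : ent M 0 0 = ent M' 0 0) (h01 : ent M 0 1 = ent M' 0 1)
    (h10 : ent M 1 0 = ent M' 1 0) (h11 : ent M 1 1 = ent M' 1 1) : M = M' := by
  refine CStarMatrix.ext fun i j => ?_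
  fin_cases i <;> fin_cases j
  · exact h00
  · exact h01
  · exact h10
  · exact h11

theorem norm_ent_le (M : M2 A) (i j : Fin 2) : ‖ent M i j‖ ≤ ‖M‖ := by
  let _ := CStarAlgebra.spectralOrder A
  let _ := CStarAlgebra.spectralOrderedRing A
  exact CStarMatrix.norm_entry_le_norm (M := (M : CStarMatrix (Fin 2) (Fin 2) A))

/-- The entry as a linear map. -/
def entₗ (i j : Fin 2) : M2 A →ₗ[ℂ] A where
  toFun M := ent M i j
  map_add' _ _ := rfl
  map_smul' _ _ := rfl

/-- The sum of the two diagonal values. -/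
noncomputable def tr2 (τ : A →ₗ[ℂ] ℂ) : M2 A →ₗ[ℂ] ℂ := τ ∘ₗ entₗ 0 0 + τ ∘ₗ entₗ 1 1

theorem tr2_apply (τ : A →ₗ[ℂ] ℂ) (M : M2 A) : tr2 τ M = τ (ent M 0 0) + τ (ent M 1 1) := rfl

/-- The matrix `((0, x), (x*, 0))`. -/
def XX (x : A) : M2 A := mk2 0 x (star x) 0

/-- The matrix `((u, 0), (0, u))`. -/
def UU (u : A) : M2 A := mk2 u 0 0 u

/-- The matrix unit `E 0 1`. -/
def E01 : M2 A := mk2 0 1 0 0

end Pool.McT
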