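import Pool.Agent.McT.Mat

/-! Functional calculus of `X = ((0, x), (x*, 0))`: even functions are diagonal, odd functions
off-diagonal. -/

set_option autoImplicit false

namespace Pool.McT

variable {A : Type*} [CStarAlgebra A]

private def gamMatCfc : M2 A := mk2 1 0 0 (-1)

private theorem gamMatCfc_star : star (gamMatCfc : M2 A) = gamMatCfc := by
  refine ext2 ?_ ?_ ?_ ?_ <;> rw [ent_star]
  · exact star_one A
  · exact star_zero A
  · exact star_zero A
  · show star (-1 : A) = -1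
    rw [star_neg, star_one]

private theorem gamMatCfc_sq : (gamMatCfc : M2 A) * gamMatCfc = 1 := by
  refine ext2 ?_ ?_ ?_ ?_ <;> rw [ent_mul]
  · show (1 : A) * 1 + 0 * 0 = 1
    simp
  · show (1 : A) * 0 + 0 * (-1) = 0
    simp
  · show (0 : A) * 1 + (-1) * 0 = 0
    simp
  · show (0 : A) * 0 + (-1) * (-1) = 1
    simp

private theorem gamMatCfc_conj (M : M2 A) : gamMatCfc * M * gamMatCfc =
    mk2 (ent M 0 0) (-ent M 0 1) (-ent M 1 0) (ent M 1 1) := by
  refine ext2 ?_ ?_ ?_ ?_ <;> rw [ent_mul, ent_mul, ent_mul]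
  · show (1 * ent M 0 0 + 0 * ent M 1 0) * 1 + (1 * ent M 0 1 + 0 * ent M 1 1) * 0 = ent M 0 0
    simp
  · show (1 * ent M 0 0 + 0 * ent M 1 0) * 0 + (1 * ent M 0 1 + 0 * ent M 1 1) * (-1) =
      -ent M 0 1
    simp
  · show (0 * ent M 0 0 + (-1) * ent M 1 0) * 1 + (0 * ent M 0 1 + (-1) * ent M 1 1) * 0 =
      -ent M 1 0
    simp
  · show (0 * ent M 0 0 + (-1) * ent M 1 0) * 0 + (0 * ent M 0 1 + (-1) * ent M 1 1) * (-1) =
      ent M 1 1
    simp

private theorem gamMatCfc_XX (x : A) : gamMatCfc * XX x * gamMatCfc = -XX x := by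
  rw [gamMatCfc_conj]
  refine ext2 ?_ ?_ ?_ ?_
  · show (0 : A) = -0
    simp
  · rfl
  · rfl
  · show (0 : A) = -0
    simp

private theorem gamMatCfc_cfc (x : A) {f : ℝ → ℝ} (hf : Continuous f) :
    gamMatCfc * cfc f (XX x) * gamMatCfc = cfc (fun s => f (-s)) (XX x) := by
  have hu : (gamMatCfc : M2 A) ∈ unitary (M2 A) := by
    rw [Unitary.mem_iff, gamMatCfc_star, gamMatCfc_sq]
    exact ⟨rfl, rfl⟩
  set φ : M2 A ≃⋆ₐ[ℂ] M2 A := Unitary.conjStarAlgAut ℂ (M2 A) ⟨gamMatCfc, hu⟩ with hφ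
  have hφa : ∀ M : M2 A, φ M = gamMatCfc * M * gamMatCfc := by
    intro M
    rw [hφ, Unitary.conjStarAlgAut_apply]
    show gamMatCfc * M * star gamMatCfc = _
    rw [gamMatCfc_star]
  have hcont : Continuous φ := by
    have h1 : (φ : M2 A → M2 A) = fun M => gamMatCfc * M * gamMatCfc := funext hφa
    rw [h1]
    exact (continuous_const.mul continuous_id).mul continuous_const
  have hX := XX_selfAdjoint x
  have h1 : φ (cfc f (XX x)) = cfc f (φ (XX x)) := by
    refine StarAlgHomClass.map_cfc φ f (XX x) hf.continuousOn hcont hX ?_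
    rw [hφa, gamMatCfc_XX]
    exact hX.neg
  rw [hφa, hφa, gamMatCfc_XX] at h1
  rw [h1, ← cfc_comp_neg f (XX x) hf.continuousOn hX]

/-- `γ X γ = - X` for `γ = diag (1, -1)`, so `cfc f X` commutes with `γ` if `f` is even
(`cfc_comp_neg`, `StarAlgHomClass.map_cfc` for conjugation by the unitary `γ`). -/
theorem cfc_even (x : A) {f : ℝ → ℝ} (hf : Continuous f) (he : ∀ s, f (-s) = f s) :
    ent (cfc f (XX x)) 0 1 = 0 ∧ ent (cfc f (XX x)) 1 0 = 0 := by
  have h1 := gamMatCfc_cfc x hf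
  have h2 : (fun s => f (-s)) = f := funext he
  rw [h2, gamMatCfc_conj] at h1
  have h3 : ∀ y : A, -y = y → y = 0 := by
    intro y hy
    have h4 : (2 : ℂ) • y = 0 := by
      rw [two_smul]
      nth_rewrite 1 [← hy]
      exact neg_add_cancel y
    exact (smul_eq_zero.1 h4).resolve_left two_ne_zero
  constructor
  · exact h3 _ (congrArg (fun M => ent M 0 1) h1)
  · exact h3 _ (congrArg (fun M => ent M 1 0) h1)

/-- `γ (cfc f X) γ = - cfc f X` if `f` is odd. -/
theorem cfc_odd (x : A) {f : ℝ → ℝ} (hf : Continuous f) (ho : ∀ s, f (-s) = - f s) :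
    ent (cfc f (XX x)) 0 0 = 0 ∧ ent (cfc f (XX x)) 1 1 = 0 := by
  have h1 := gamMatCfc_cfc x hf
  have h2 : (fun s => f (-s)) = fun s => -f s := funext ho
  rw [h2, gamMatCfc_conj, cfc_neg] at h1
  have h3 : ∀ y : A, y = -y → y = 0 := by
    intro y hy
    have h4 : (2 : ℂ) • y = 0 := by
      rw [two_smul]
      nth_rewrite 1 [hy]
      exact neg_add_cancel y
    exact (smul_eq_zero.1 h4).resolve_left two_ne_zero
  constructor
  · exact h3 _ (congrArg (fun M => ent M 0 0) h1)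
  · exact h3 _ (congrArg (fun M => ent M 1 1) h1)

theorem norm_cfc_le_one {M : Type*} [CStarAlgebra M] (h : M) {f : ℝ → ℝ}
    (h1 : ∀ s, |f s| ≤ 1) : ‖cfc f h‖ ≤ 1 := by
  exact norm_cfc_le zero_le_one fun s _ => by
    rw [Real.norm_eq_abs]
    exact h1 s

end Pool.McT
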