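import Pool.Agent.McT.GridA

/-! The grid reaches any bound. -/

set_option autoImplicit false

namespace Pool.McT

/-- The grid reaches any bound and its lower end tends to `0`. -/
theorem exists_grid {η : ℝ} (hη : 0 < η) (R ρ : ℝ) (hρ : 0 < ρ) :
    ∃ m : ℕ, R ≤ qq η (m + 2) ∧ (qq η (2 - m)) ^ 2 ≤ ρ := by
  have h1 : (1 : ℝ) < 1 + η := by linarith
  obtain ⟨m₁, hm₁⟩ := pow_unbounded_of_one_lt R h1
  obtain ⟨m₂, hm₂⟩ := pow_unbounded_of_one_lt ((1 + η) ^ 4 / ρ) h1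
  refine ⟨max m₁ m₂, ?_, ?_⟩
  · unfold qq
    have h2 : (1 + η) ^ m₁ ≤ (1 + η) ^ (max m₁ m₂ + 2) :=
      pow_le_pow_right₀ h1.le (le_trans (le_max_left _ _) (Nat.le_add_right _ _))
    have h3 : (1 + η : ℝ) ^ (((max m₁ m₂ : ℕ) : ℤ) + 2) = (1 + η) ^ (max m₁ m₂ + 2) := by
      have h4 : (((max m₁ m₂ : ℕ) : ℤ) + 2) = ((max m₁ m₂ + 2 : ℕ) : ℤ) := by push_cast; ring
      rw [h4, zpow_natCast]
    rw [h3]
    linarith
  · set m := max m₁ m₂ with hm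
    have hp : (0 : ℝ) < (1 + η) ^ m := by positivity
    have h5 : qq η (2 - m) = (1 + η) ^ 2 / (1 + η) ^ m := by
      unfold qq
      rw [zpow_sub₀ (by positivity), zpow_natCast]
      norm_cast
    have h6 : (1 : ℝ) ≤ (1 + η) ^ m := one_le_pow₀ h1.le
    have h7 : (1 + η) ^ m₂ ≤ (1 + η) ^ m := pow_le_pow_right₀ h1.le (le_max_right _ _)
    have h8 : (1 + η) ^ 4 ≤ ρ * (1 + η) ^ m := by
      have h9 := hm₂.le
      rw [div_le_iff₀ hρ] at h9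
      nlinarith
    rw [h5, div_pow, div_le_iff₀ (by positivity)]
    calc ((1 + η) ^ 2) ^ 2 = (1 + η) ^ 4 := by ring
      _ ≤ ρ * (1 + η) ^ m := h8
      _ ≤ ρ * ((1 + η) ^ m) ^ 2 := by
        apply mul_le_mul_of_nonneg_left _ hρ.le
        nlinarith

end Pool.McT
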