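import Pool.Agent.McT.AD
import Pool.Agent.McT.Basic

/-! Functionals on commutators. -/

set_option autoImplicit false

namespace Pool.McT

variable {A : Type*} [CStarAlgebra A] {τ : A →ₗ[ℂ] ℂ}

/-- With `g, h` from `AD`:
`star x * x - x * star x = h h - g g = ((h - g) (h + g) + (h + g) (h - g)) / 2`, so
`‖φ (..)‖ ≤ √N (h - g) √N (h + g) ≤ 2 √N x √N (h - g) ≤ η N x + N (h - g) / η`
(`N g = N h = N x`, `sqrt_N_add_le`, `N (h - g) = N (g - h)`). -/
theorem fun_abs (hτ : IsTr τ) {F : Finset A} {α Λ : ℝ} (hAD : AD τ F α Λ)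
    (φ : A →ₗ[ℂ] ℂ) (hφ : ∀ x y, ‖φ (x * y)‖ ^ 2 ≤ N τ x * N τ y) {η : ℝ} (hη : 0 < η)
    (x : A) :
    ‖φ (star x * x - x * star x)‖ ≤ (η + α / η) * N τ x + Λ / η * S τ F x := by
  obtain ⟨g, h, hg, hh, hgg, hhh, hgh⟩ := hAD x
  have hNg : N τ g = N τ x := by
    unfold N
    rw [hg.star_eq, hgg, hτ.comm]
  have hNh : N τ h = N τ x := by
    unfold N
    rw [hh.star_eq, hhh]
  have hid : star x * x - x * star x =
      (1 / 2 : ℂ) • ((h - g) * (h + g) + (h + g) * (h - g)) := by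
    rw [← hgg, ← hhh, sub_mul, mul_add, mul_add, add_mul, mul_sub, mul_sub]
    module
  have hN1 : 0 ≤ N τ (h - g) := N_nonneg hτ _
  have hN2 : 0 ≤ N τ (h + g) := N_nonneg hτ _
  have hNx : 0 ≤ N τ x := N_nonneg hτ _
  have h1 : ∀ a b : A, ‖φ (a * b)‖ ≤ Real.sqrt (N τ a) * Real.sqrt (N τ b) := by
    intro a b
    rw [← Real.sqrt_mul (N_nonneg hτ a)]
    exact Real.le_sqrt_of_sq_le (hφ a b)
  have h2 : ‖φ (star x * x - x * star x)‖ ≤
      Real.sqrt (N τ (h - g)) * Real.sqrt (N τ (h + g)) := by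
    rw [hid, map_smul, map_add, norm_smul]
    have h3 := h1 (h - g) (h + g)
    have h4 := h1 (h + g) (h - g)
    have h5 := norm_add_le (φ ((h - g) * (h + g))) (φ ((h + g) * (h - g)))
    have h6 : ‖(1 / 2 : ℂ)‖ = 1 / 2 := by norm_num
    rw [h6]
    rw [mul_comm (Real.sqrt (N τ (h + g)))] at h4
    linarith
  have h3 : Real.sqrt (N τ (h + g)) ≤ 2 * Real.sqrt (N τ x) := by
    have h4 := sqrt_N_add_le hτ h g
    rw [hNg, hNh] at h4
    linarith
  have h4 : N τ (h - g) ≤ α * N τ x + Λ * S τ F x := by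
    rw [← N_neg, neg_sub]
    exact hgh
  -- the inequality between the means
  have h5 : Real.sqrt (N τ (h - g)) * (2 * Real.sqrt (N τ x)) ≤
      η * N τ x + N τ (h - g) / η := by
    have h6 := Real.sq_sqrt hN1
    have h7 := Real.sq_sqrt hNx
    have h8 : 0 ≤ (η * Real.sqrt (N τ x) - Real.sqrt (N τ (h - g))) ^ 2 := sq_nonneg _
    have h9 : η * (Real.sqrt (N τ (h - g)) * (2 * Real.sqrt (N τ x))) ≤
        η * (η * N τ x + N τ (h - g) / η) := by
      have h10 : η * (N τ (h - g) / η) = N τ (h - g) := by field_simp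
      have h11 : η * (η * N τ x) = η ^ 2 * Real.sqrt (N τ x) ^ 2 := by
        rw [h7]
        ring
      rw [mul_add, h10, h11]
      nlinarith [h8, h6]
    exact le_of_mul_le_mul_left h9 hη
  have h6 : N τ (h - g) / η ≤ (α * N τ x + Λ * S τ F x) / η :=
    div_le_div_of_nonneg_right h4 hη.le
  calc ‖φ (star x * x - x * star x)‖
      ≤ Real.sqrt (N τ (h - g)) * Real.sqrt (N τ (h + g)) := h2
    _ ≤ Real.sqrt (N τ (h - g)) * (2 * Real.sqrt (N τ x)) :=
      mul_le_mul_of_nonneg_left h3 (Real.sqrt_nonneg _)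
    _ ≤ η * N τ x + N τ (h - g) / η := h5
    _ ≤ η * N τ x + (α * N τ x + Λ * S τ F x) / η := by linarith
    _ = (η + α / η) * N τ x + Λ / η * S τ F x := by ring

theorem S_nonneg (hτ : IsTr τ) (F : Finset A) (x : A) : 0 ≤ S τ F x := by
  exact Finset.sum_nonneg fun u _ => add_nonneg (N_nonneg hτ _) (N_nonneg hτ _)

theorem S_add_smul_le (hτ : IsTr τ) (F : Finset A) (x y : A) {c : ℂ} (hc : ‖c‖ = 1) :
    S τ F (x + c • y) ≤ 2 * S τ F x + 2 * S τ F y := by
  have h1 : ∀ (a b u : A) (d : ℂ), ‖d‖ = 1 →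
      N τ (cm (a + d • b) u) ≤ 2 * N τ (cm a u) + 2 * N τ (cm b u) := by
    intro a b u d hd
    have h2 : cm (a + d • b) u = cm a u + d • cm b u := by
      unfold cm
      rw [add_mul, mul_add, smul_mul_assoc, mul_smul_comm]
      module
    have h3 := N_add_le hτ (cm a u) (d • cm b u)
    rw [N_smul, hd] at h3
    rw [h2]
    linarith
  have hc' : ‖star c‖ = 1 := by rw [norm_star, hc]
  unfold S
  rw [Finset.mul_sum, Finset.mul_sum, ← Finset.sum_add_distrib]
  refine Finset.sum_le_sum fun u _ => ?_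
  have h2 := h1 x y u c hc
  have h3 := h1 (star x) (star y) u (star c) hc'
  rw [star_add, star_smul]
  linarith

/-- Expansion of `q (x + c y)`. -/
private theorem fun_expand (x y : A) (c : ℂ) :
    star (x + c • y) * (x + c • y) - (x + c • y) * star (x + c • y) =
      (star x * x - x * star x) + c • (star x * y - y * star x) +
        (starRingEnd ℂ c) • (star y * x - x * star y) +
          (c * starRingEnd ℂ c) • (star y * y - y * star y) := by
  rw [star_add, star_smul]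
  simp only [add_mul, mul_add, smul_mul_assoc, mul_smul_comm]
  rw [show star c = starRingEnd ℂ c from rfl]
  module

/-- `∑_{j < 4} i^j q (x + i^j y) = 4 (star y * x - x * star y)` for
`q z = star z * z - z * star z`; `fun_abs` for the four elements, `N_add_le`,
`S_add_smul_le`. -/
theorem fun_comm (hτ : IsTr τ) {F : Finset A} {α Λ : ℝ} (hα : 0 ≤ α) (hΛ : 0 ≤ Λ)
    (hAD : AD τ F α Λ) (φ : A →ₗ[ℂ] ℂ) (hφ : ∀ x y, ‖φ (x * y)‖ ^ 2 ≤ N τ x * N τ y)
    {η : ℝ} (hη : 0 < η) (x y : A) :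
    ‖φ (star y * x - x * star y)‖ ≤ 2 * (η + α / η) * (N τ x + N τ y)
      + 2 * (Λ / η) * (S τ F x + S τ F y) := by
  have hid : (4 : ℂ) • (star y * x - x * star y) =
      (star (x + (1 : ℂ) • y) * (x + (1 : ℂ) • y) - (x + (1 : ℂ) • y) * star (x + (1 : ℂ) • y)) +
      (-1 : ℂ) • (star (x + (-1 : ℂ) • y) * (x + (-1 : ℂ) • y) -
        (x + (-1 : ℂ) • y) * star (x + (-1 : ℂ) • y)) +
      Complex.I • (star (x + Complex.I • y) * (x + Complex.I • y) -
        (x + Complex.I • y) * star (x + Complex.I • y)) +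
      (-Complex.I) • (star (x + (-Complex.I) • y) * (x + (-Complex.I) • y) -
        (x + (-Complex.I) • y) * star (x + (-Complex.I) • y)) := by
    rw [fun_expand, fun_expand, fun_expand, fun_expand]
    simp only [map_neg, map_one, Complex.conj_I, neg_neg]
    simp only [smul_add, smul_smul]
    have hI : Complex.I * Complex.I = -1 := Complex.I_mul_I
    have hI1 : -Complex.I * -Complex.I = -1 := by rw [neg_mul_neg, hI]
    have hI2 : Complex.I * -Complex.I = 1 := by rw [mul_neg, hI, neg_neg]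
    have hI3 : -Complex.I * Complex.I = 1 := by rw [neg_mul, hI, neg_neg]
    rw [hI1, hI2, hI3, hI]
    module
  have hb : ∀ c : ℂ, ‖c‖ = 1 →
      ‖φ (star (x + c • y) * (x + c • y) - (x + c • y) * star (x + c • y))‖ ≤
        2 * (η + α / η) * (N τ x + N τ y) + 2 * (Λ / η) * (S τ F x + S τ F y) := by
    intro c hc
    have h1 := fun_abs hτ hAD φ hφ hη (x + c • y)
    have h2 := N_add_le hτ x (c • y)
    rw [N_smul, hc] at h2
    have h3 := S_add_smul_le hτ F x y hc
    have h4 : (η + α / η) * N τ (x + c • y) ≤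
        (η + α / η) * (2 * N τ x + 2 * (1 ^ 2 * N τ y)) :=
      mul_le_mul_of_nonneg_left h2 (by positivity)
    have h5 : Λ / η * S τ F (x + c • y) ≤ Λ / η * (2 * S τ F x + 2 * S τ F y) :=
      mul_le_mul_of_nonneg_left h3 (by positivity)
    calc ‖φ (star (x + c • y) * (x + c • y) - (x + c • y) * star (x + c • y))‖
        ≤ (η + α / η) * N τ (x + c • y) + Λ / η * S τ F (x + c • y) := h1
      _ ≤ (η + α / η) * (2 * N τ x + 2 * (1 ^ 2 * N τ y)) +
          Λ / η * (2 * S τ F x + 2 * S τ F y) := add_le_add h4 h5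
      _ = 2 * (η + α / η) * (N τ x + N τ y) + 2 * (Λ / η) * (S τ F x + S τ F y) := by ring
  have h1 := hb 1 (by simp)
  have h2 := hb (-1) (by simp)
  have h3 := hb Complex.I (by simp)
  have h4 := hb (-Complex.I) (by simp)
  have h5 : ‖φ ((4 : ℂ) • (star y * x - x * star y))‖ = 4 * ‖φ (star y * x - x * star y)‖ := by
    rw [map_smul, norm_smul]
    norm_num
  rw [hid, map_add, map_add, map_add, map_smul, map_smul, map_smul] at h5
  have h6 : ∀ a b c d : ℂ, ‖a + (-1 : ℂ) • b + Complex.I • c + (-Complex.I) • d‖ ≤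
      ‖a‖ + ‖b‖ + ‖c‖ + ‖d‖ := by
    intro a b c d
    have e1 : ‖(-1 : ℂ) • b‖ = ‖b‖ := by rw [norm_smul, norm_neg, norm_one, one_mul]
    have e2 : ‖Complex.I • c‖ = ‖c‖ := by rw [norm_smul, Complex.norm_I, one_mul]
    have e3 : ‖(-Complex.I) • d‖ = ‖d‖ := by rw [norm_smul, norm_neg, Complex.norm_I, one_mul]
    have e4 := norm_add_le (a + (-1 : ℂ) • b + Complex.I • c) ((-Complex.I) • d)
    have e5 := norm_add_le (a + (-1 : ℂ) • b) (Complex.I • c)
    have e6 := norm_add_le a ((-1 : ℂ) • b)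
    linarith
  have h7 := h6 (φ (star (x + (1 : ℂ) • y) * (x + (1 : ℂ) • y) -
      (x + (1 : ℂ) • y) * star (x + (1 : ℂ) • y)))
    (φ (star (x + (-1 : ℂ) • y) * (x + (-1 : ℂ) • y) -
      (x + (-1 : ℂ) • y) * star (x + (-1 : ℂ) • y)))
    (φ (star (x + Complex.I • y) * (x + Complex.I • y) -
      (x + Complex.I • y) * star (x + Complex.I • y)))
    (φ (star (x + (-Complex.I) • y) * (x + (-Complex.I) • y) -
      (x + (-Complex.I) • y) * star (x + (-Complex.I) • y)))
  linarith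

end Pool.McT
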