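import Pool.Agent.McT.Tens
import Pool.Agent.McT.Fun

/-! The bound of the two parts of the commutator. -/

set_option autoImplicit false

namespace Pool.McT

variable {A B D : Type*} [CStarAlgebra A] [CStarAlgebra B] [CStarAlgebra D]
  {τA : A →ₗ[ℂ] ℂ} {τB : B →ₗ[ℂ] ℂ} {τD : D →ₗ[ℂ] ℂ} {iA : A →⋆ₐ[ℂ] D} {iB : B →⋆ₐ[ℂ] D}

/-- the functional `c ↦ τD (iA c * u * z)` -/
private noncomputable def phi (τD : D →ₗ[ℂ] ℂ) (iA : A →⋆ₐ[ℂ] D) (u z : D) : A →ₗ[ℂ] ℂ where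
  toFun c := τD (iA c * u * z)
  map_add' x y := by rw [map_add, add_mul, add_mul, map_add]
  map_smul' c x := by
    rw [map_smul, smul_mul_assoc, smul_mul_assoc, map_smul, RingHom.id_apply]

private theorem prod_le_mul {a b c d : ℝ} (ha : 0 ≤ a) (hc : 0 ≤ c) (hb1 : b ≤ 1) (hd : 0 ≤ d)
    (hd1 : d ≤ 1) : a * b * (c * d) ≤ a * c := by
  have h1 : a * b ≤ a * 1 := mul_le_mul_of_nonneg_left hb1 ha
  have h2 : c * d ≤ c * 1 := mul_le_mul_of_nonneg_left hd1 hc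
  rw [mul_one] at h1 h2
  exact mul_le_mul h1 h2 (mul_nonneg hc hd) ha

private theorem phi_bound (T : Tens τA τB τD iA iB) {b b' : B} (hb : N τB b ≤ 1)
    (hb' : N τB b' ≤ 1) {z : D} (hz : ‖z‖ ≤ 1) (x y : A) :
    ‖phi τD iA (iB (b * b')) z (x * y)‖ ^ 2 ≤ N τA x * N τA y := by
  have h1 : phi τD iA (iB (b * b')) z (x * y) =
      τD ((z * (iA x * iB b)) * (iA y * iB b')) := by
    have h2 : phi τD iA (iB (b * b')) z (x * y) = τD (iA (x * y) * iB (b * b') * z) := rfl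
    rw [h2, T.trD.comm, map_mul iA, map_mul iB]
    congr 1
    have h3 := T.comm y b
    calc z * (iA x * iA y * (iB b * iB b')) = z * (iA x * (iA y * iB b) * iB b') := by
          simp only [mul_assoc]
      _ = z * (iA x * iB b) * (iA y * iB b') := by
          rw [h3]
          simp only [mul_assoc]
  rw [h1]
  refine (tau_mul_sq_le T.trD _ _).trans ?_
  have h2 := N_mul_le_left T.trD z (iA x * iB b)
  have h3 : N τD (z * (iA x * iB b)) ≤ N τD (iA x * iB b) := by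
    refine h2.trans ?_
    have h4 : ‖z‖ ^ 2 ≤ 1 := pow_le_one₀ (norm_nonneg _) hz
    have h5 := mul_le_mul_of_nonneg_right h4 (N_nonneg T.trD (iA x * iB b))
    rwa [one_mul] at h5
  rw [N_tens T] at h3
  rw [N_tens T y b']
  refine (mul_le_mul_of_nonneg_right h3 (mul_nonneg (N_nonneg T.trA y)
    (N_nonneg T.trB b'))).trans ?_
  exact prod_le_mul (N_nonneg T.trA x) (N_nonneg T.trA y) hb
    (N_nonneg T.trB b') hb'

/-- The functional `c ↦ τD (iA c * iB (b * b') * z)` satisfies the hypothesis of `fun_comm`: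
`iA (x y) iB (b b') = (iA x iB b) (iA y iB b')`, and
`‖τD (P * Q * z)‖² ≤ N (z * P) N Q ≤ ‖z‖² N P N Q`. -/
theorem tens_comm_le (T : Tens τA τB τD iA iB) {F : Finset A} {α Λ : ℝ} (hα : 0 ≤ α)
    (hΛ : 0 ≤ Λ) (hAD : AD τA F α Λ) {b b' : B} (hb : N τB b ≤ 1) (hb' : N τB b' ≤ 1) {z : D}
    (hz : ‖z‖ ≤ 1) {η : ℝ} (hη : 0 < η) (x y : A) :
    ‖τD (iA (star y * x - x * star y) * iB (b * b') * z)‖ ≤
      2 * (η + α / η) * (N τA x + N τA y) + 2 * (Λ / η) * (S τA F x + S τA F y) := by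
  exact fun_comm T.trA hα hΛ hAD (phi τD iA (iB (b * b')) z) (phi_bound T hb hb' hz) hη x y

private theorem sum_bound {n : ℕ} (f : Fin n → Fin n → ℂ) (u v : Fin n → ℝ) (α β : ℝ)
    (h : ∀ q r, ‖f q r‖ ≤ α * (u q + u r) + β * (v q + v r)) :
    ‖∑ q, ∑ r, f q r‖ ≤ n * (2 * α * ∑ q, u q + 2 * β * ∑ q, v q) := by
  have h1 : ‖∑ q, ∑ r, f q r‖ ≤ ∑ q, ∑ r, (α * (u q + u r) + β * (v q + v r)) := by
    refine (norm_sum_le _ _).trans (Finset.sum_le_sum fun q _ => ?_)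
    exact (norm_sum_le _ _).trans (Finset.sum_le_sum fun r _ => h q r)
  refine h1.trans (le_of_eq ?_)
  simp only [Finset.sum_add_distrib, ← Finset.mul_sum, Finset.sum_const, Finset.card_univ,
    Fintype.card_fin, nsmul_eq_mul]
  ring

private theorem tens_comm_le' (T : Tens τA τB τD iA iB) {F : Finset A} {α Λ : ℝ} (hα : 0 ≤ α)
    (hΛ : 0 ≤ Λ) (hAD : AD τA F α Λ) {b b' : B} (hb : N τB b ≤ 1) (hb' : N τB b' ≤ 1) {z : D}
    (hz : ‖z‖ ≤ 1) {η : ℝ} (hη : 0 < η) (x y : A) :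
    ‖τD (iA (x * star y - star y * x) * iB (b * b') * z)‖ ≤
      2 * (η + α / η) * (N τA x + N τA y) + 2 * (Λ / η) * (S τA F x + S τA F y) := by
  have h1 : x * star y - star y * x = -(star y * x - x * star y) := by abel
  rw [h1, map_neg, neg_mul, neg_mul, map_neg, norm_neg]
  exact tens_comm_le T hα hΛ hAD hb hb' hz hη x y

/-- Sum of `tens_comm_le` over `q, q'`. -/
theorem part_bound (T : Tens τA τB τD iA iB) {F : Finset A} {α Λ : ℝ} (hα : 0 ≤ α)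
    (hΛ : 0 ≤ Λ) (hAD : AD τA F α Λ) {n : ℕ} (a : Fin n → A) (b b' : Fin n → B)
    (hb : ∀ q, N τB (b q) ≤ 1) (hb' : ∀ q, N τB (b' q) ≤ 1) {z : D} (hz : ‖z‖ ≤ 1) {η : ℝ}
    (hη : 0 < η) :
    ‖∑ q, ∑ r, τD (iA (a q * star (a r) - star (a r) * a q) * iB (b q * b' r) * z)‖
      ≤ n * (4 * (η + α / η) * ∑ q, N τA (a q) + 4 * (Λ / η) * ∑ q, S τA F (a q)) := by
  refine (sum_bound _ (fun q => N τA (a q)) (fun q => S τA F (a q)) (2 * (η + α / η))
    (2 * (Λ / η)) fun q r =>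
    tens_comm_le' T hα hΛ hAD (hb q) (hb' r) hz hη (a q) (a r)).trans (le_of_eq ?_)
  ring

/-- The same with the factors of the second algebra in the other order. -/
theorem part_bound' (T : Tens τA τB τD iA iB) {F : Finset A} {α Λ : ℝ} (hα : 0 ≤ α)
    (hΛ : 0 ≤ Λ) (hAD : AD τA F α Λ) {n : ℕ} (a : Fin n → A) (b b' : Fin n → B)
    (hb : ∀ q, N τB (b q) ≤ 1) (hb' : ∀ q, N τB (b' q) ≤ 1) {z : D} (hz : ‖z‖ ≤ 1) {η : ℝ}
    (hη : 0 < η) :
    ‖∑ q, ∑ r, τD (iA (a q * star (a r) - star (a r) * a q) * iB (b' r * b q) * z)‖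
      ≤ n * (4 * (η + α / η) * ∑ q, N τA (a q) + 4 * (Λ / η) * ∑ q, S τA F (a q)) := by
  refine (sum_bound _ (fun q => N τA (a q)) (fun q => S τA F (a q)) (2 * (η + α / η))
    (2 * (Λ / η)) fun q r =>
    tens_comm_le' T hα hΛ hAD (hb' r) (hb q) hz hη (a q) (a r)).trans (le_of_eq ?_)
  ring

end Pool.McT
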