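import Pool.Agent.McT.MatCfc

/-! The contraction which sees `v v* - v* v`. -/

set_option autoImplicit false

namespace Pool.McT

variable {D : Type*} [CStarAlgebra D] {τ : D →ₗ[ℂ] ℂ}

private theorem cont_Trunc {ρ : ℝ} (hρ : 0 < ρ) : Continuous fun s : ℝ => (max s ρ)⁻¹ :=
  (continuous_id.max continuous_const).inv₀ fun s => (hρ.trans_le (le_max_right s ρ)).ne'

private theorem ineq_Trunc {ρ : ℝ} (hρ : 0 < ρ) {s : ℝ} (hs : 0 ≤ s) :
    0 ≤ s * (s * (max s ρ)⁻¹) - s + ρ := by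
  rcases le_total s ρ with h | h
  · rw [max_eq_right h]
    have h1 : s * (s * ρ⁻¹) - s + ρ = (s ^ 2 - s * ρ + ρ ^ 2) * ρ⁻¹ := by
      field_simp
    rw [h1]
    refine mul_nonneg ?_ (inv_nonneg.2 hρ.le)
    nlinarith [sq_nonneg (s - ρ), sq_nonneg (s + ρ), mul_nonneg hs hρ.le]
  · rw [max_eq_left h]
    have h1 : s * (s * s⁻¹) = s := by
      rw [mul_inv_cancel₀ (hρ.trans_le h).ne', mul_one]
    rw [h1]
    linarith

private theorem F_Trunc {ρ : ℝ} (hρ : 0 < ρ) {s : ℝ} (hs : 0 ≤ s) :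
    0 ≤ s * (max s ρ)⁻¹ ∧ s * (max s ρ)⁻¹ ≤ 1 := by
  have h0 : 0 < max s ρ := hρ.trans_le (le_max_right s ρ)
  refine ⟨mul_nonneg hs (inv_nonneg.2 h0.le), ?_⟩
  rw [← div_eq_mul_inv, div_le_one h0]
  exact le_max_left s ρ

private theorem split_Trunc {ρ : ℝ} (hρ : 0 < ρ) {p : D} (hp : IsSelfAdjoint p) :
    cfc (fun s : ℝ => s * (max s ρ)⁻¹) p = p * cfc (fun s : ℝ => (max s ρ)⁻¹) p := by
  have h1 := cfc_mul (fun s : ℝ => s) (fun s : ℝ => (max s ρ)⁻¹) p continuous_id.continuousOn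
    (cont_Trunc hρ).continuousOn
  have h2 : cfc (fun s : ℝ => s) p = p := cfc_id ℝ p hp
  rw [h1, h2]

private theorem key_Trunc (hτ : IsTr τ) {ρ : ℝ} (hρ : 0 < ρ) {p : D} (hp : IsSelfAdjoint p)
    (hs : ∀ x ∈ spectrum ℝ p, 0 ≤ x) :
    (τ p).re - ρ * (τ 1).re ≤ (τ (p * cfc (fun s : ℝ => s * (max s ρ)⁻¹) p)).re := by
  have hc : Continuous fun s : ℝ => s * (max s ρ)⁻¹ := continuous_id.mul (cont_Trunc hρ)
  have hcs : Continuous fun s : ℝ => s * (s * (max s ρ)⁻¹) := continuous_id.mul hc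
  have hh : Continuous fun s : ℝ => s * (s * (max s ρ)⁻¹) - s + ρ :=
    (hcs.sub continuous_id).add continuous_const
  have hsq : Continuous fun s : ℝ => √(s * (s * (max s ρ)⁻¹) - s + ρ) :=
    Real.continuous_sqrt.comp hh
  obtain ⟨b, hb⟩ : ∃ b : D, b = cfc (fun s : ℝ => √(s * (s * (max s ρ)⁻¹) - s + ρ)) p := ⟨_, rfl⟩
  have hbs : star b = b := by
    rw [hb]
    exact (cfc_predicate (R := ℝ) (p := IsSelfAdjoint) _ p).star_eq
  have h1 : star b * b = cfc (fun s : ℝ => s * (s * (max s ρ)⁻¹) - s + ρ) p := by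
    rw [hbs, hb, ← cfc_mul _ _ p hsq.continuousOn hsq.continuousOn]
    refine cfc_congr fun s hs' => ?_
    exact Real.mul_self_sqrt (ineq_Trunc hρ (hs s hs'))
  have h2 : cfc (fun s : ℝ => s) p = p := cfc_id ℝ p hp
  have h3 : cfc (fun s : ℝ => s * (s * (max s ρ)⁻¹) - s + ρ) p =
      p * cfc (fun s : ℝ => s * (max s ρ)⁻¹) p - p + algebraMap ℝ D ρ := by
    rw [cfc_add p (fun s : ℝ => s * (s * (max s ρ)⁻¹) - s) (fun _ => ρ)
      (hcs.sub continuous_id).continuousOn continuous_const.continuousOn,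
      cfc_sub (fun s : ℝ => s * (s * (max s ρ)⁻¹)) (fun s : ℝ => s) p hcs.continuousOn
      continuous_id.continuousOn,
      cfc_mul (fun s : ℝ => s) (fun s : ℝ => s * (max s ρ)⁻¹) p continuous_id.continuousOn
      hc.continuousOn, cfc_const ρ p hp, h2]
  have h4 := hτ.nonneg b
  rw [h1, h3, map_add, map_sub, Algebra.algebraMap_eq_smul_one, LinearMap.map_smul_of_tower,
    Complex.add_re, Complex.sub_re, Complex.real_smul, Complex.re_ofReal_mul] at h4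
  linarith

private theorem norm_Trunc {z : D} (hz : IsSelfAdjoint z)
    (h : ∀ x ∈ spectrum ℝ z, |x| ≤ 1) : ‖z‖ ≤ 1 := by
  have h2 : cfc (fun s : ℝ => s) z = z := cfc_id ℝ z hz
  rw [← h2]
  exact norm_cfc_le zero_le_one fun x hx => by
    rw [Real.norm_eq_abs]
    exact h x hx

private theorem norm_sub_Trunc {ρ : ℝ} (hρ : 0 < ρ) {p q : D} (hp : IsSelfAdjoint p)
    (hq : IsSelfAdjoint q) (hps : ∀ x ∈ spectrum ℝ p, 0 ≤ x) (hqs : ∀ x ∈ spectrum ℝ q, 0 ≤ x) :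
    ‖cfc (fun s : ℝ => s * (max s ρ)⁻¹) p - cfc (fun s : ℝ => s * (max s ρ)⁻¹) q‖ ≤ 1 := by
  let _ := CStarAlgebra.spectralOrder D
  let _ := CStarAlgebra.spectralOrderedRing D
  have a0 : 0 ≤ cfc (fun s : ℝ => s * (max s ρ)⁻¹) p :=
    cfc_nonneg fun x hx => (F_Trunc hρ (hps x hx)).1
  have a1 : cfc (fun s : ℝ => s * (max s ρ)⁻¹) p ≤ 1 :=
    cfc_le_one _ _ fun x hx => (F_Trunc hρ (hps x hx)).2
  have b0 : 0 ≤ cfc (fun s : ℝ => s * (max s ρ)⁻¹) q :=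
    cfc_nonneg fun x hx => (F_Trunc hρ (hqs x hx)).1
  have b1 : cfc (fun s : ℝ => s * (max s ρ)⁻¹) q ≤ 1 :=
    cfc_le_one _ _ fun x hx => (F_Trunc hρ (hqs x hx)).2
  have hsa : IsSelfAdjoint (cfc (fun s : ℝ => s * (max s ρ)⁻¹) p -
      cfc (fun s : ℝ => s * (max s ρ)⁻¹) q) :=
    (cfc_predicate (R := ℝ) (p := IsSelfAdjoint) _ p).sub
      (cfc_predicate (R := ℝ) (p := IsSelfAdjoint) _ q)
  refine norm_Trunc hsa fun x hx => abs_le.2 ⟨?_, ?_⟩
  · refine (algebraMap_le_iff_le_spectrum (R := ℝ) (p := IsSelfAdjoint) hsa).1 ?_ x hx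
    rw [map_neg, map_one]
    have h1 : -(1 : D) ≤ -cfc (fun s : ℝ => s * (max s ρ)⁻¹) q := neg_le_neg b1
    refine h1.trans ?_
    rw [sub_eq_add_neg]
    exact le_add_of_nonneg_left a0
  · refine (le_algebraMap_iff_spectrum_le (R := ℝ) (p := IsSelfAdjoint) hsa).1 ?_ x hx
    rw [map_one]
    exact (sub_le_self _ b0).trans a1

/-- `z = F (v v*) - F (v* v)` with `F s = s / max s ρ`, continuous, `F 0 = 0`,
`0 ≤ F ≤ 1` for `s ≥ 0`, `s F s ≥ s - ρ` for `s ≥ 0`. `(v* v) (v v*) = 0 = (v v*) (v* v)`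
gives `v v* F (v* v) = 0` and `v* v F (v v*) = 0` (for instance `F s = s G s` with
`G s = 1 / max s ρ`). `‖z‖ ≤ 1`: `-1 ≤ z ≤ 1`. `ρ τ 1` appears since
`τ (v v* F (v v*)) ≥ τ (v v*) - ρ τ 1` (positivity of `τ` on `s F s - s + ρ ≥ 0`). -/
theorem exists_trunc (hτ : IsTr τ) {v : D} (hv : v * v = 0) {ρ : ℝ} (hρ : 0 < ρ) :
    ∃ z : D, ‖z‖ ≤ 1 ∧
      2 * N τ v - 2 * ρ * N τ 1 ≤ (τ ((v * star v - star v * v) * z)).re := by
  have hvs : star v * star v = 0 := by rw [← star_mul, hv, star_zero]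
  have hp : IsSelfAdjoint (v * star v) := IsSelfAdjoint.mul_star_self v
  have hq : IsSelfAdjoint (star v * v) := IsSelfAdjoint.star_mul_self v
  have hqs : ∀ x ∈ spectrum ℝ (star v * v), 0 ≤ x := spectrum_star_mul_self_nonneg
  have hps : ∀ x ∈ spectrum ℝ (v * star v), 0 ≤ x := by
    have h := spectrum_star_mul_self_nonneg (b := star v)
    rwa [star_star] at h
  have hpq : (v * star v) * (star v * v) = 0 := by
    rw [mul_assoc, ← mul_assoc (star v) (star v) v, hvs, zero_mul, mul_zero]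
  have hqp : (star v * v) * (v * star v) = 0 := by
    rw [mul_assoc, ← mul_assoc v v (star v), hv, zero_mul, mul_zero]
  refine ⟨cfc (fun s : ℝ => s * (max s ρ)⁻¹) (v * star v) -
    cfc (fun s : ℝ => s * (max s ρ)⁻¹) (star v * v), norm_sub_Trunc hρ hp hq hps hqs, ?_⟩
  have k1 := key_Trunc hτ hρ hp hps
  have k2 := key_Trunc hτ hρ hq hqs
  have e1 : (v * star v) * cfc (fun s : ℝ => s * (max s ρ)⁻¹) (star v * v) = 0 := by
    rw [split_Trunc hρ hq, ← mul_assoc, hpq, zero_mul]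
  have e2 : (star v * v) * cfc (fun s : ℝ => s * (max s ρ)⁻¹) (v * star v) = 0 := by
    rw [split_Trunc hρ hp, ← mul_assoc, hqp, zero_mul]
  have e3 : (v * star v - star v * v) * (cfc (fun s : ℝ => s * (max s ρ)⁻¹) (v * star v) -
      cfc (fun s : ℝ => s * (max s ρ)⁻¹) (star v * v)) =
      (v * star v) * cfc (fun s : ℝ => s * (max s ρ)⁻¹) (v * star v) +
        (star v * v) * cfc (fun s : ℝ => s * (max s ρ)⁻¹) (star v * v) := by
    rw [sub_mul, mul_sub, mul_sub, e1, e2]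
    abel
  have e4 : τ (v * star v) = τ (star v * v) := hτ.comm _ _
  have e5 : N τ 1 = (τ 1).re := by
    unfold N
    rw [star_one, mul_one]
  rw [e3, map_add, Complex.add_re, e5]
  rw [e4] at k1
  unfold N
  linarith

end Pool.McT
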