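import Pool.Agent.McT.Ident
import Pool.Agent.McT.Trunc
import Pool.Agent.McT.TensB

/-! The estimate for elements close to elements of finite tensor rank. -/

set_option autoImplicit false

namespace Pool.McT

variable {A B D : Type*} [CStarAlgebra A] [CStarAlgebra B] [CStarAlgebra D]
  {τA : A →ₗ[ℂ] ℂ} {τB : B →ₗ[ℂ] ℂ} {τD : D →ₗ[ℂ] ℂ} {iA : A →⋆ₐ[ℂ] D} {iB : B →⋆ₐ[ℂ] D}

private theorem Final_one {A : Type*} [CStarAlgebra A] {τ : A →ₗ[ℂ] ℂ} {n : ℕ} {f : Fin n → A}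
    (hf : ∀ p q, τ (star (f p) * f q) = if p = q then 1 else 0) (q : Fin n) :
    N τ (f q) ≤ 1 := by
  unfold N
  rw [hf q q, if_pos rfl, Complex.one_re]

/-- For every contraction `z`. From `comm_ident`, `part_bound` (for `T`, `a = A_q`, `b = f`,
`b' = star f`) and `part_bound'` (for `T.symm`, `a = B_p`, `b = e`, `b' = star e`),
`N_sum_tens`, `S_sum_tens` (for `T` and `T.symm`), `N_star`, `exists_repr`, `repr_left`,
`repr_right`. -/
theorem comm_le (T : Tens τA τB τD iA iB) (hfA : ∀ x : A, N τA x = 0 → x = 0)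
    (hfB : ∀ x : B, N τB x = 0 → x = 0) {FA : Finset A} {FB : Finset B} {α Λ : ℝ}
    (hα : 0 ≤ α) (hΛ : 0 ≤ Λ) (hA : AD τA FA α Λ) (hB : AD τB FB α Λ) (k : ℕ)
    (a : Fin k → A) (b : Fin k → B) (v : D) (hv : v = ∑ i, iA (a i) * iB (b i)) {z : D}
    (hz : ‖z‖ ≤ 1) {η : ℝ} (hη : 0 < η) :
    ‖τD ((v * star v - star v * v) * z)‖ ≤
      k * (8 * (η + α / η) * N τD v + 4 * (Λ / η) *
      (∑ u ∈ FA, (N τD (cm v (iA u)) + N τD (cm (star v) (iA u)))
        + ∑ u ∈ FB, (N τD (cm v (iB u)) + N τD (cm (star v) (iB u))))) := by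
  obtain ⟨m, n, e, f, c, hm, hn, he, hf, hrep⟩ := exists_repr T hfA hfB k a b
  have hv' : v = ∑ p, ∑ q, c p q • (iA (e p) * iB (f q)) := hv.trans hrep
  have hl : v = ∑ q, iA (∑ p, c p q • e p) * iB (f q) := hv'.trans (repr_left e f c)
  have hr : v = ∑ p, iB (∑ q, c p q • f q) * iA (e p) := hv'.trans (repr_right T e f c)
  have hNA : ∑ q, N τA (∑ p, c p q • e p) = N τD v := by
    rw [← N_sum_tens T (fun q => ∑ p, c p q • e p) f hf, ← hl]
  have hNB : ∑ p, N τB (∑ q, c p q • f q) = N τD v := by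
    rw [← N_sum_tens T.symm (fun p => ∑ q, c p q • f q) e he, ← hr]
  have hSA : ∑ q, S τA FA (∑ p, c p q • e p) =
      ∑ u ∈ FA, (N τD (cm v (iA u)) + N τD (cm (star v) (iA u))) := by
    rw [← S_sum_tens T (fun q => ∑ p, c p q • e p) f hf FA, ← hl]
  have hSB : ∑ p, S τB FB (∑ q, c p q • f q) =
      ∑ u ∈ FB, (N τD (cm v (iB u)) + N τD (cm (star v) (iB u))) := by
    rw [← S_sum_tens T.symm (fun p => ∑ q, c p q • f q) e he FB, ← hr]
  have h1 := part_bound T hα hΛ hA (fun q => ∑ p, c p q • e p) f (fun q => star (f q))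
    (Final_one hf) (fun q => by rw [N_star T.trB]; exact Final_one hf q) hz hη
  have h2 := part_bound' T.symm hα hΛ hB (fun p => ∑ q, c p q • f q) e (fun p => star (e p))
    (Final_one he) (fun p => by rw [N_star T.trA]; exact Final_one he p) hz hη
  rw [hNA, hSA] at h1
  rw [hNB, hSB] at h2
  have h3 : τD ((v * star v - star v * v) * z) =
      (∑ q, ∑ r, τD (iA ((∑ p, c p q • e p) * star (∑ p, c p r • e p)
        - star (∑ p, c p r • e p) * (∑ p, c p q • e p)) * iB (f q * star (f r)) * z))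
      + ∑ p, ∑ r, τD (iB ((∑ q, c p q • f q) * star (∑ q, c r q • f q)
        - star (∑ q, c r q • f q) * (∑ q, c p q • f q)) * iA (star (e r) * e p) * z) := by
    rw [comm_ident T e f c v hv', add_mul, map_add]
    simp only [Finset.sum_mul, map_sum]
  rw [h3]
  refine (norm_add_le _ _).trans ?_
  set SA := ∑ u ∈ FA, (N τD (cm v (iA u)) + N τD (cm (star v) (iA u))) with hSAd
  set SB := ∑ u ∈ FB, (N τD (cm v (iB u)) + N τD (cm (star v) (iB u))) with hSBd
  have hSA0 : 0 ≤ SA := Finset.sum_nonneg fun _ _ =>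
    add_nonneg (N_nonneg T.trD _) (N_nonneg T.trD _)
  have hSB0 : 0 ≤ SB := Finset.sum_nonneg fun _ _ =>
    add_nonneg (N_nonneg T.trD _) (N_nonneg T.trD _)
  have hN0 : 0 ≤ N τD v := N_nonneg T.trD v
  have hK : 0 ≤ 4 * (Λ / η) := by positivity
  have hE : 0 ≤ η + α / η := by positivity
  have hn' : (n : ℝ) ≤ k := by exact_mod_cast hn
  have hm' : (m : ℝ) ≤ k := by exact_mod_cast hm
  have h4 : (n : ℝ) * (4 * (η + α / η) * N τD v + 4 * (Λ / η) * SA) ≤
      k * (4 * (η + α / η) * N τD v + 4 * (Λ / η) * SA) :=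
    mul_le_mul_of_nonneg_right hn' (by positivity)
  have h5 : (m : ℝ) * (4 * (η + α / η) * N τD v + 4 * (Λ / η) * SB) ≤
      k * (4 * (η + α / η) * N τD v + 4 * (Λ / η) * SB) :=
    mul_le_mul_of_nonneg_right hm' (by positivity)
  have h6 : (k : ℝ) * (8 * (η + α / η) * N τD v + 4 * (Λ / η) * (SA + SB)) =
      k * (4 * (η + α / η) * N τD v + 4 * (Λ / η) * SA) +
      k * (4 * (η + α / η) * N τD v + 4 * (Λ / η) * SB) := by ring
  rw [h6]
  exact add_le_add (h1.trans h4) (h2.trans h5)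

end Pool.McT
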