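import Pool.Agent.McT.Basic

/-! Gram-Schmidt for a faithful positive functional. -/

set_option autoImplicit false

namespace Pool.McT

variable {A : Type*} [CStarAlgebra A] {τ : A →ₗ[ℂ] ℂ}

/-- Induction on `k`: for a new element `a`, `a' = a - ∑ p, τ (star (e p) * a) • e p` is
orthogonal to the `e p`; if `N a' = 0` then `a' = 0`, otherwise add `a' / √(N a')`. -/
theorem gram_schmidt (hτ : IsTr τ) (hf : ∀ x : A, N τ x = 0 → x = 0) (k : ℕ)
    (a : Fin k → A) :
    ∃ (m : ℕ) (e : Fin m → A) (c : Fin k → Fin m → ℂ), m ≤ k ∧
      (∀ p q, τ (star (e p) * e q) = if p = q then 1 else 0) ∧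
      ∀ i, a i = ∑ p, c i p • e p := by
  induction k with
  | zero =>
    exact ⟨0, Fin.elim0, fun i => Fin.elim0 i, le_rfl, fun p => Fin.elim0 p,
      fun i => Fin.elim0 i⟩
  | succ k ih =>
    obtain ⟨m, e, c, hmk, he, hc⟩ := ih fun i => a i.castSucc
    obtain ⟨b, hb⟩ : ∃ b : A, b = a (Fin.last k) := ⟨_, rfl⟩
    obtain ⟨t, ht⟩ : ∃ t : Fin m → ℂ, t = fun p => τ (star (e p) * b) := ⟨_, rfl⟩
    obtain ⟨a', ha'⟩ : ∃ a' : A, a' = b - ∑ p, t p • e p := ⟨_, rfl⟩
    have hba : b = ∑ p, t p • e p + a' := by
      rw [ha']
      abel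
    have horth : ∀ p, τ (star (e p) * a') = 0 := by
      intro p
      rw [ha', mul_sub, map_sub, Finset.mul_sum, map_sum]
      have h1 : ∀ q, τ (star (e p) * t q • e q) = if p = q then t q else 0 := by
        intro q
        rw [mul_smul_comm, map_smul, he, smul_eq_mul]
        split_ifs <;> simp
      simp only [h1]
      rw [Finset.sum_ite_eq, if_pos (Finset.mem_univ p), ht]
      simp
    have horth' : ∀ p, τ (star a' * e p) = 0 := by
      intro p
      have h1 := tau_star hτ (star (e p) * a')
      rw [star_mul, star_star, horth, map_zero] at h1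
      exact h1
    by_cases hN : N τ a' = 0
    · have h0 := hf a' hN
      rw [h0, add_zero] at hba
      refine ⟨m, e, Fin.snoc (α := fun _ => Fin m → ℂ) c t, by omega, he, fun i => ?_⟩
      induction i using Fin.lastCases with
      | last => rw [Fin.snoc_last, ← hb, hba]
      | cast i => rw [Fin.snoc_castSucc, ← hc]
    · obtain ⟨r, hr⟩ : ∃ r : ℝ, r = Real.sqrt (N τ a') := ⟨_, rfl⟩
      have hN0 : 0 < N τ a' := lt_of_le_of_ne (hτ.nonneg a') (Ne.symm hN)
      have hr0 : 0 < r := by
        rw [hr]
        exact Real.sqrt_pos.2 hN0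
      have hrr : r * r = N τ a' := by
        rw [hr]
        exact Real.mul_self_sqrt hN0.le
      have hrc : (r : ℂ) ≠ 0 := by exact_mod_cast hr0.ne'
      have haa : τ (star a' * a') = (r : ℂ) * r := by
        apply Complex.ext
        · have h1 : (τ (star a' * a')).re = r * r := hrr.symm
          rw [h1]
          simp
        · rw [hτ.real a']
          simp
      obtain ⟨f, hfd⟩ : ∃ f : A, f = ((r : ℂ)⁻¹) • a' := ⟨_, rfl⟩
      have hsf : star f = ((r : ℂ)⁻¹) • star a' := by
        rw [hfd, star_smul]
        congr 1
        rw [star_inv₀]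
        congr 1
        exact Complex.conj_ofReal r
      have hfa : (r : ℂ) • f = a' := by
        rw [hfd, smul_smul, mul_inv_cancel₀ hrc, one_smul]
      have hff : τ (star f * f) = 1 := by
        rw [hsf, hfd, smul_mul_smul_comm, map_smul, haa, smul_eq_mul]
        field_simp
      have hef : ∀ p, τ (star (e p) * f) = 0 := by
        intro p
        rw [hfd, mul_smul_comm, map_smul, horth, smul_zero]
      have hfe : ∀ p, τ (star f * e p) = 0 := by
        intro p
        rw [hsf, smul_mul_assoc, map_smul, horth', smul_zero]
      refine ⟨m + 1, Fin.snoc (α := fun _ => A) e f,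
        Fin.snoc (α := fun _ => Fin (m + 1) → ℂ)
          (fun i => Fin.snoc (α := fun _ => ℂ) (c i) 0)
          (Fin.snoc (α := fun _ => ℂ) t (r : ℂ)), by omega, ?_, ?_⟩
      · intro p q
        induction p using Fin.lastCases with
        | last =>
          induction q using Fin.lastCases with
          | last => rw [Fin.snoc_last, if_pos rfl, hff]
          | cast q =>
            rw [Fin.snoc_last, Fin.snoc_castSucc, hfe, if_neg]
            exact (Fin.castSucc_lt_last q).ne'
        | cast p =>
          induction q using Fin.lastCases with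
          | last =>
            rw [Fin.snoc_last, Fin.snoc_castSucc, hef, if_neg]
            exact (Fin.castSucc_lt_last p).ne
          | cast q =>
            rw [Fin.snoc_castSucc, Fin.snoc_castSucc, he]
            simp only [Fin.castSucc_inj]
      · intro i
        induction i using Fin.lastCases with
        | last =>
          rw [Fin.snoc_last, Fin.sum_univ_castSucc]
          simp only [Fin.snoc_castSucc, Fin.snoc_last]
          rw [hfa, ← hb]
          exact hba
        | cast i =>
          rw [Fin.snoc_castSucc, Fin.sum_univ_castSucc]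
          simp only [Fin.snoc_castSucc, Fin.snoc_last]
          rw [zero_smul, add_zero, ← hc]

end Pool.McT
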