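import Pool.Agent.McT.Defs

/-! The grid functions: continuity, parity, bounds. -/

set_option autoImplicit false

namespace Pool.McT

theorem qq_pos {η : ℝ} (hη : 0 < η) (n : ℤ) : 0 < qq η n :=
  zpow_pos (by linarith) n

theorem qq_succ {η : ℝ} (hη : 0 < η) (n : ℤ) : qq η (n + 1) = qq η n + η * qq η n := by
  have h : (1 + η : ℝ) ≠ 0 := by positivity
  unfold qq
  rw [zpow_add_one₀ h]
  ring

private theorem gridA_clip_zero {x : ℝ} (h : x ≤ 0) : max 0 (min 1 x) = 0 :=
  max_eq_left ((min_le_right _ _).trans h)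

private theorem gridA_clip_one {x : ℝ} (h : 1 ≤ x) : max 0 (min 1 x) = 1 := by
  rw [min_eq_left h]
  exact max_eq_right zero_le_one

private theorem gridA_clip_nonneg (x : ℝ) : 0 ≤ max 0 (min 1 x) := le_max_left _ _

private theorem gridA_clip_le (x : ℝ) : max 0 (min 1 x) ≤ 1 :=
  max_le zero_le_one (min_le_left _ _)

theorem continuous_fG (η : ℝ) (n : ℤ) : Continuous (fG η n) := by
  unfold fG
  exact continuous_const.max
    (continuous_const.min ((continuous_const.sub continuous_abs).div_const _))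

theorem continuous_oG (η : ℝ) (n : ℤ) : Continuous (oG η n) := by
  unfold oG
  exact (continuous_const.max
    (continuous_const.min ((continuous_id.sub continuous_const).div_const _))).sub
    (continuous_const.max
      (continuous_const.min ((continuous_id.neg.sub continuous_const).div_const _)))

theorem fG_neg (η : ℝ) (n : ℤ) (s : ℝ) : fG η n (-s) = fG η n s := by
  unfold fG
  rw [abs_neg]

theorem oG_neg (η : ℝ) (n : ℤ) (s : ℝ) : oG η n (-s) = - oG η n s := by
  unfold oG
  rw [neg_neg]
  ring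

theorem abs_fG_le (η : ℝ) (n : ℤ) (s : ℝ) : |fG η n s| ≤ 1 := by
  unfold fG
  rw [abs_of_nonneg (gridA_clip_nonneg _)]
  exact gridA_clip_le _

theorem abs_oG_le (η : ℝ) (n : ℤ) (s : ℝ) : |oG η n s| ≤ 1 := by
  unfold oG
  have h1 := gridA_clip_nonneg ((s - qq η (n + 1)) / (η * qq η (n + 1)))
  have h2 := gridA_clip_le ((s - qq η (n + 1)) / (η * qq η (n + 1)))
  have h3 := gridA_clip_nonneg ((- s - qq η (n + 1)) / (η * qq η (n + 1)))
  have h4 := gridA_clip_le ((- s - qq η (n + 1)) / (η * qq η (n + 1)))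
  exact abs_le.2 ⟨by linarith, by linarith⟩

theorem fG_mul_oG {η : ℝ} (hη : 0 < η) (n : ℤ) (s : ℝ) : fG η n s * oG η n s = 0 := by
  have hq := qq_pos hη n
  have hq1 := qq_pos hη (n + 1)
  rcases le_total (qq η (n + 1)) |s| with h | h
  · have h0 : fG η n s = 0 := by
      unfold fG
      exact gridA_clip_zero (div_nonpos_of_nonpos_of_nonneg (by linarith) (by positivity))
    rw [h0, zero_mul]
  · have h1 := le_abs_self s
    have h2 := neg_le_abs s
    have h0 : oG η n s = 0 := by
      unfold oG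
      rw [gridA_clip_zero (div_nonpos_of_nonpos_of_nonneg (by linarith) (by positivity)),
        gridA_clip_zero (div_nonpos_of_nonpos_of_nonneg (by linarith) (by positivity)), sub_zero]
    rw [h0, mul_zero]

theorem fG_eq_one {η : ℝ} (hη : 0 < η) {n : ℤ} {s : ℝ} (h : |s| ≤ qq η n) :
    fG η n s = 1 := by
  have hq := qq_pos hη n
  unfold fG
  apply gridA_clip_one
  rw [le_div_iff₀ (by positivity), qq_succ hη]
  linarith

theorem oG_sq_eq_one {η : ℝ} (hη : 0 < η) {n : ℤ} {s : ℝ} (h : qq η (n + 2) ≤ |s|) :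
    oG η n s ^ 2 = 1 := by
  have hq1 := qq_pos hη (n + 1)
  have h2 : qq η (n + 2) = qq η (n + 1) + η * qq η (n + 1) := by
    rw [← qq_succ hη, add_assoc]
    norm_num
  have hp : 0 < η * qq η (n + 1) := by positivity
  rw [h2] at h
  unfold oG
  rcases le_total 0 s with hs | hs
  · rw [abs_of_nonneg hs] at h
    rw [gridA_clip_one (by rw [le_div_iff₀ hp]; linarith),
      gridA_clip_zero (div_nonpos_of_nonpos_of_nonneg (by linarith) hp.le)]
    norm_num
  · rw [abs_of_nonpos hs] at h
    rw [gridA_clip_zero (div_nonpos_of_nonpos_of_nonneg (by linarith) hp.le),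
      gridA_clip_one (by rw [le_div_iff₀ hp]; linarith)]
    norm_num

end Pool.McT
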