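import Pool.Agent.McT.Tens
import Pool.Agent.McT.GS

/-! The identity for `v v* - v* v`. -/

set_option autoImplicit false

namespace Pool.McT

variable {A B D : Type*} [CStarAlgebra A] [CStarAlgebra B] [CStarAlgebra D]
  {τA : A →ₗ[ℂ] ℂ} {τB : B →ₗ[ℂ] ℂ} {τD : D →ₗ[ℂ] ℂ} {iA : A →⋆ₐ[ℂ] D} {iB : B →⋆ₐ[ℂ] D}

private theorem repr_left_Ident {m n : ℕ} (e : Fin m → A) (f : Fin n → B)
    (c : Fin m → Fin n → ℂ) :
    ∑ p, ∑ q, c p q • (iA (e p) * iB (f q)) = ∑ q, iA (∑ p, c p q • e p) * iB (f q) := by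
  rw [Finset.sum_comm]
  refine Finset.sum_congr rfl fun q _ => ?_
  rw [map_sum, Finset.sum_mul]
  refine Finset.sum_congr rfl fun p _ => ?_
  rw [map_smul, smul_mul_assoc]

private theorem repr_right_Ident (T : Tens τA τB τD iA iB) {m n : ℕ} (e : Fin m → A)
    (f : Fin n → B) (c : Fin m → Fin n → ℂ) :
    ∑ p, ∑ q, c p q • (iA (e p) * iB (f q)) = ∑ p, iB (∑ q, c p q • f q) * iA (e p) := by
  refine Finset.sum_congr rfl fun p _ => ?_
  rw [map_sum, Finset.sum_mul]
  refine Finset.sum_congr rfl fun q _ => ?_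
  rw [map_smul, smul_mul_assoc, T.comm]

private theorem mul_star_Ident (T : Tens τA τB τD iA iB) {n : ℕ} (a : Fin n → A)
    (f : Fin n → B) {v : D} (hv : v = ∑ q, iA (a q) * iB (f q)) :
    v * star v = ∑ q, ∑ r, iA (a q * star (a r)) * iB (f q * star (f r)) := by
  rw [hv, star_sum, Finset.sum_mul]
  refine Finset.sum_congr rfl fun q _ => ?_
  rw [Finset.mul_sum]
  refine Finset.sum_congr rfl fun r _ => ?_
  rw [star_mul, ← map_star, ← map_star, map_mul, map_mul, ← T.comm (star (a r)) (star (f r)),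
    mul_assoc, mul_assoc, ← mul_assoc (iB (f q)), ← T.comm (star (a r)) (f q), mul_assoc]

private theorem star_mul_Ident (T : Tens τA τB τD iA iB) {m : ℕ} (b : Fin m → B)
    (e : Fin m → A) {v : D} (hv : v = ∑ p, iB (b p) * iA (e p)) :
    star v * v = ∑ p, ∑ r, iB (star (b r) * b p) * iA (star (e r) * e p) := by
  rw [hv, star_sum, Finset.mul_sum]
  refine Finset.sum_congr rfl fun p _ => ?_
  rw [Finset.sum_mul]
  refine Finset.sum_congr rfl fun r _ => ?_
  rw [star_mul, ← map_star, ← map_star, map_mul, map_mul, T.comm (star (e r)) (star (b r)),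
    mul_assoc, mul_assoc, ← mul_assoc (iA (star (e r))), T.comm (star (e r)) (b p), mul_assoc]

private theorem mid_left_Ident (T : Tens τA τB τD iA iB) {n : ℕ} (a : Fin n → A)
    (f : Fin n → B) {v : D} (hv : v = ∑ q, iA (a q) * iB (f q)) :
    ∑ q, ∑ r, iA (star (a r) * a q) * iB (f q * star (f r))
      = ∑ r, iA (star (a r)) * v * iB (star (f r)) := by
  have _ := T
  rw [Finset.sum_comm, hv]
  refine Finset.sum_congr rfl fun r _ => ?_
  rw [Finset.mul_sum, Finset.sum_mul]
  refine Finset.sum_congr rfl fun q _ => ?_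
  rw [map_mul, map_mul]
  simp only [mul_assoc]

private theorem mid_right_Ident (T : Tens τA τB τD iA iB) {m : ℕ} (b : Fin m → B)
    (e : Fin m → A) {v : D} (hv : v = ∑ p, iB (b p) * iA (e p)) :
    ∑ p, ∑ r, iB (b p * star (b r)) * iA (star (e r) * e p)
      = ∑ r, iA (star (e r)) * v * iB (star (b r)) := by
  rw [Finset.sum_comm, hv]
  refine Finset.sum_congr rfl fun r _ => ?_
  rw [Finset.mul_sum, Finset.sum_mul]
  refine Finset.sum_congr rfl fun p _ => ?_
  rw [← T.comm (star (e r) * e p) (b p * star (b r)), map_mul, map_mul, mul_assoc, mul_assoc,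
    mul_assoc, ← mul_assoc (iA (e p)), T.comm (e p) (b p), mul_assoc]

/-- Pure algebra, only commutation is used. With `A_q = ∑ p, c p q • e p`,
`B_p = ∑ q, c p q • f q` and `v = ∑_q A_q f_q = ∑_p e_p B_p`:
`v v* = ∑ A_q A_r* f_q f_r*`, `v* v = ∑ A_r* A_q f_r* f_q`, the difference is
`∑ [A_q, A_r*] f_q f_r* + ∑ A_r* A_q (f_q f_r* - f_r* f_q)`, and the second sum is
`∑ e_r* e_p (B_p B_r* - B_r* B_p)`. -/
theorem comm_ident (T : Tens τA τB τD iA iB) {m n : ℕ} (e : Fin m → A) (f : Fin n → B)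
    (c : Fin m → Fin n → ℂ) (v : D) (hv : v = ∑ p, ∑ q, c p q • (iA (e p) * iB (f q))) :
    v * star v - star v * v =
      (∑ q, ∑ r, iA ((∑ p, c p q • e p) * star (∑ p, c p r • e p)
        - star (∑ p, c p r • e p) * (∑ p, c p q • e p)) * iB (f q * star (f r)))
      + ∑ p, ∑ r, iB ((∑ q, c p q • f q) * star (∑ q, c r q • f q)
        - star (∑ q, c r q • f q) * (∑ q, c p q • f q)) * iA (star (e r) * e p) := by
  have hv1 : v = ∑ q, iA (∑ p, c p q • e p) * iB (f q) := by
    rw [hv]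
    exact repr_left_Ident e f c
  have hv2 : v = ∑ p, iB (∑ q, c p q • f q) * iA (e p) := by
    rw [hv]
    exact repr_right_Ident T e f c
  have h1 := mul_star_Ident T (fun q => ∑ p, c p q • e p) f hv1
  have h2 := star_mul_Ident T (fun p => ∑ q, c p q • f q) e hv2
  have h3 := mid_left_Ident T (fun q => ∑ p, c p q • e p) f hv1
  have h4 := mid_right_Ident T (fun p => ∑ q, c p q • f q) e hv2
  have h5 : ∑ r, iA (star (∑ p, c p r • e p)) * v * iB (star (f r))
      = ∑ r, iA (star (e r)) * v * iB (star (∑ q, c r q • f q)) := by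
    have h6 : ∀ r, iA (star (∑ p, c p r • e p)) * v * iB (star (f r))
        = ∑ s, star (c s r) • (iA (star (e s)) * v * iB (star (f r))) := by
      intro r
      rw [star_sum, map_sum, Finset.sum_mul, Finset.sum_mul]
      refine Finset.sum_congr rfl fun s _ => ?_
      rw [star_smul, map_smul, smul_mul_assoc, smul_mul_assoc]
    have h7 : ∀ s, iA (star (e s)) * v * iB (star (∑ q, c s q • f q))
        = ∑ r, star (c s r) • (iA (star (e s)) * v * iB (star (f r))) := by
      intro s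
      rw [star_sum, map_sum, Finset.mul_sum]
      refine Finset.sum_congr rfl fun r _ => ?_
      rw [star_smul, map_smul, mul_smul_comm]
    rw [Finset.sum_congr rfl fun r _ => h6 r, Finset.sum_congr rfl fun s _ => h7 s,
      Finset.sum_comm]
  have h8 : (∑ q, ∑ r, iA ((∑ p, c p q • e p) * star (∑ p, c p r • e p)
        - star (∑ p, c p r • e p) * (∑ p, c p q • e p)) * iB (f q * star (f r)))
      = (∑ q, ∑ r, iA ((∑ p, c p q • e p) * star (∑ p, c p r • e p)) * iB (f q * star (f r)))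
        - ∑ q, ∑ r, iA (star (∑ p, c p r • e p) * (∑ p, c p q • e p))
          * iB (f q * star (f r)) := by
    rw [← Finset.sum_sub_distrib]
    refine Finset.sum_congr rfl fun q _ => ?_
    rw [← Finset.sum_sub_distrib]
    refine Finset.sum_congr rfl fun r _ => ?_
    rw [map_sub, sub_mul]
  have h9 : (∑ p, ∑ r, iB ((∑ q, c p q • f q) * star (∑ q, c r q • f q)
        - star (∑ q, c r q • f q) * (∑ q, c p q • f q)) * iA (star (e r) * e p))
      = (∑ p, ∑ r, iB ((∑ q, c p q • f q) * star (∑ q, c r q • f q)) * iA (star (e r) * e p))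
        - ∑ p, ∑ r, iB (star (∑ q, c r q • f q) * (∑ q, c p q • f q))
          * iA (star (e r) * e p) := by
    rw [← Finset.sum_sub_distrib]
    refine Finset.sum_congr rfl fun q _ => ?_
    rw [← Finset.sum_sub_distrib]
    refine Finset.sum_congr rfl fun r _ => ?_
    rw [map_sub, sub_mul]
  rw [h8, h9, ← h1, ← h2, h3, h4, h5]
  abel

/-- The tensor rank `k` element in orthonormal systems: `gram_schmidt` for both families. -/
theorem exists_repr (T : Tens τA τB τD iA iB) (hfA : ∀ x : A, N τA x = 0 → x = 0)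
    (hfB : ∀ x : B, N τB x = 0 → x = 0) (k : ℕ) (a : Fin k → A) (b : Fin k → B) :
    ∃ (m n : ℕ) (e : Fin m → A) (f : Fin n → B) (c : Fin m → Fin n → ℂ), m ≤ k ∧ n ≤ k ∧
      (∀ p q, τA (star (e p) * e q) = if p = q then 1 else 0) ∧
      (∀ p q, τB (star (f p) * f q) = if p = q then 1 else 0) ∧
      ∑ i, iA (a i) * iB (b i) = ∑ p, ∑ q, c p q • (iA (e p) * iB (f q)) := by
  obtain ⟨m, e, s, hm, he, hs⟩ := gram_schmidt T.trA hfA k a
  obtain ⟨n, f, t, hn, hf, ht⟩ := gram_schmidt T.trB hfB k b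
  refine ⟨m, n, e, f, fun p q => ∑ i, s i p * t i q, hm, hn, he, hf, ?_⟩
  have h1 : ∀ i, iA (a i) * iB (b i)
      = ∑ p, ∑ q, (s i p * t i q) • (iA (e p) * iB (f q)) := by
    intro i
    rw [hs, ht, map_sum, map_sum, Finset.sum_mul]
    refine Finset.sum_congr rfl fun p _ => ?_
    rw [Finset.mul_sum]
    refine Finset.sum_congr rfl fun q _ => ?_
    rw [map_smul, map_smul, smul_mul_smul_comm]
  rw [Finset.sum_congr rfl fun i _ => h1 i, Finset.sum_comm]
  refine Finset.sum_congr rfl fun p _ => ?_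
  rw [Finset.sum_comm]
  refine Finset.sum_congr rfl fun q _ => ?_
  rw [Finset.sum_smul]

/-- `v = ∑_q A_q f_q = ∑_p B_p e_p`. -/
theorem repr_left {m n : ℕ} (e : Fin m → A) (f : Fin n → B) (c : Fin m → Fin n → ℂ) :
    ∑ p, ∑ q, c p q • (iA (e p) * iB (f q)) = ∑ q, iA (∑ p, c p q • e p) * iB (f q) :=
  repr_left_Ident e f c

theorem repr_right (T : Tens τA τB τD iA iB) {m n : ℕ} (e : Fin m → A) (f : Fin n → B)
    (c : Fin m → Fin n → ℂ) :
    ∑ p, ∑ q, c p q • (iA (e p) * iB (f q)) = ∑ p, iB (∑ q, c p q • f q) * iA (e p) :=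
  repr_right_Ident T e f c

end Pool.McT
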