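import Pool.Agent.McT.Robust
import Pool.Agent.McT.AbsDiff

/-! The main theorem. -/

set_option autoImplicit false

namespace Pool.McT

variable {A B D : Type*} [CStarAlgebra A] [CStarAlgebra B] [CStarAlgebra D]
  {τA : A →ₗ[ℂ] ℂ} {τB : B →ₗ[ℂ] ℂ} {τD : D →ₗ[ℂ] ℂ} {iA : A →⋆ₐ[ℂ] D} {iB : B →⋆ₐ[ℂ] D}

private lemma exists_J_Main {k : ℕ} (hk : 1 ≤ k) :
    ∃ J : ℕ, 3 ≤ J ∧ 136 * (k : ℝ) ≤ 2 ^ J ∧ (2 : ℝ) ^ J ≤ 272 * k := by
  have h1 : 136 * k ≤ 2 ^ Nat.clog 2 (136 * k) := Nat.le_pow_clog (by norm_num) _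
  have h2 : 2 ^ (Nat.clog 2 (136 * k)).pred < 136 * k :=
    Nat.pow_pred_clog_lt_self (by norm_num) (by omega)
  have h3 : 3 ≤ Nat.clog 2 (136 * k) := by
    by_contra hc
    have h4 : 2 ^ Nat.clog 2 (136 * k) ≤ 2 ^ 2 :=
      Nat.pow_le_pow_right (by norm_num) (by omega)
    omega
  refine ⟨Nat.clog 2 (136 * k), h3, ?_, ?_⟩
  · exact_mod_cast h1
  · have h5 : 2 ^ Nat.clog 2 (136 * k) = 2 * 2 ^ (Nat.clog 2 (136 * k)).pred := by
      rw [← pow_succ', Nat.pred_eq_sub_one, Nat.sub_add_cancel (by omega)]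
    have h6 : 2 ^ Nat.clog 2 (136 * k) ≤ 272 * k := by
      rw [h5]
      omega
    exact_mod_cast h6

private lemma J_le_Main {k J : ℕ} (hk : 1 ≤ k) (hJ : (2 : ℝ) ^ J ≤ 272 * k) :
    (J : ℝ) ≤ 9 * (1 + Real.log k) := by
  have hk' : (1 : ℝ) ≤ k := by exact_mod_cast hk
  have hl := Real.log_two_gt_d9
  have hlk : 0 ≤ Real.log k := Real.log_nonneg hk'
  have h1 : (J : ℝ) * Real.log 2 ≤ Real.log 272 + Real.log k := by
    rw [← Real.log_pow, ← Real.log_mul (by norm_num) (by positivity)]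
    exact Real.log_le_log (by positivity) hJ
  have h2 : Real.log 272 ≤ 9 * Real.log 2 := by
    have e : (9 : ℝ) * Real.log 2 = Real.log (2 ^ 9) := by
      rw [Real.log_pow]
      norm_num
    rw [e]
    exact Real.log_le_log (by norm_num) (by norm_num)
  have h3 : (J : ℝ) * Real.log 2 ≤ 9 * (1 + Real.log k) * Real.log 2 := by
    nlinarith
  exact le_of_mul_le_mul_right h3 (by linarith)

/-- `robust` with `absdiff`: `J` minimal with `136 k ≤ 2 ^ J` (`J ≥ 8`, `2 ^ J < 272 k`),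
`η = 2^(-J)`, `α = 16 η²`, `Λ = 520 κ J`, `8 (η + α / η) = 136 η`. Then
`8 k Λ / η ≤ 8 * 520 * 272 κ J k²` and `J ≤ log₂ (272 k) ≤ 9 (1 + log k)`,
`8 * 520 * 272 * 9 ≤ 2 * 10^7`. -/
theorem main (T : Tens τA τB τD iA iB) (hfA : ∀ x : A, N τA x = 0 → x = 0)
    (hfB : ∀ x : B, N τB x = 0 → x = 0) {FA : Finset A} {FB : Finset B} {κ : ℝ}
    (hκ : 0 ≤ κ) (hA : NM τA FA κ) (hB : NM τB FB κ) {k : ℕ} (hk : 1 ≤ k)
    {a : Fin k → A} {b : Fin k → B} {v v' : D} (h : Sch τD iA iB a b v v')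
    (hvv : v * v = 0) (h64 : 64 * N τD (v - v') ≤ N τD v) :
    N τD v ≤ 2 * 10 ^ 7 * κ * k ^ 2 * (1 + Real.log k) *
      (∑ u ∈ FA, (N τD (cm v (iA u)) + N τD (cm v (star (iA u))))
        + ∑ u ∈ FB, (N τD (cm v (iB u)) + N τD (cm v (star (iB u))))) := by
  obtain ⟨J, hJ3, hJ1, hJ2⟩ := exists_J_Main hk
  have hk' : (1 : ℝ) ≤ k := by exact_mod_cast hk
  have hk0 : (0 : ℝ) ≤ k := by linarith
  have hlk : 0 ≤ Real.log k := Real.log_nonneg hk'
  have hJ := J_le_Main hk hJ2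
  have h2J : (0 : ℝ) < 2 ^ J := by positivity
  have hη : (0 : ℝ) < (1 / 2) ^ J := by positivity
  have hinv : ((1 : ℝ) / 2) ^ J * 2 ^ J = 1 := by
    rw [← mul_pow]
    norm_num
  have hinv' : ((1 : ℝ) / 2) ^ J = 1 / 2 ^ J := by
    rw [eq_div_iff h2J.ne', hinv]
  have h4J : ((1 : ℝ) / 4) ^ J = (1 / 2) ^ J * (1 / 2) ^ J := by
    rw [← mul_pow]
    norm_num
  have hkη : (k : ℝ) * (8 * ((1 / 2) ^ J + 16 * (1 / 4) ^ J / (1 / 2) ^ J)) ≤ 1 := by
    have e : (16 : ℝ) * (1 / 4) ^ J / (1 / 2) ^ J = 16 * (1 / 2) ^ J := by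
      rw [h4J, ← mul_assoc, mul_div_assoc, div_self hη.ne', mul_one]
    rw [e, hinv']
    have e2 : (k : ℝ) * (8 * (1 / 2 ^ J + 16 * (1 / 2 ^ J))) = 136 * k / 2 ^ J := by
      ring
    rw [e2, div_le_one h2J]
    exact hJ1
  have hrob := robust T hfA hfB (α := 16 * (1 / 4) ^ J) (Λ := 520 * κ * J) (by positivity)
    (by positivity) (absdiff T.trA hκ hA hJ3) (absdiff T.trB hκ hB hJ3) h hvv h64 hη hkη
  have hsum : (∑ u ∈ FA, (N τD (cm v (iA u)) + N τD (cm (star v) (iA u)))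
        + ∑ u ∈ FB, (N τD (cm v (iB u)) + N τD (cm (star v) (iB u)))) =
      (∑ u ∈ FA, (N τD (cm v (iA u)) + N τD (cm v (star (iA u))))
        + ∑ u ∈ FB, (N τD (cm v (iB u)) + N τD (cm v (star (iB u))))) := by
    congr 1
    · exact Finset.sum_congr rfl fun u _ => by rw [N_cm_star T.trD]
    · exact Finset.sum_congr rfl fun u _ => by rw [N_cm_star T.trD]
  rw [hsum] at hrob
  refine hrob.trans (mul_le_mul_of_nonneg_right ?_ ?_)
  · have e : (520 : ℝ) * κ * J / (1 / 2) ^ J = 520 * κ * J * 2 ^ J := by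
      rw [hinv', div_div_eq_mul_div, div_one]
    rw [e]
    have h1 : (520 : ℝ) * κ * J * 2 ^ J ≤ 520 * κ * (9 * (1 + Real.log k)) * (272 * k) := by
      refine mul_le_mul ?_ hJ2 h2J.le (by positivity)
      exact mul_le_mul_of_nonneg_left hJ (by positivity)
    have h2 : 8 * (k : ℝ) * (520 * κ * J * 2 ^ J) ≤
        8 * k * (520 * κ * (9 * (1 + Real.log k)) * (272 * k)) :=
      mul_le_mul_of_nonneg_left h1 (by positivity)
    have h3 : 0 ≤ κ * (k : ℝ) ^ 2 * (1 + Real.log k) := by positivity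
    calc 8 * (k : ℝ) * (520 * κ * J * 2 ^ J)
        ≤ 8 * k * (520 * κ * (9 * (1 + Real.log k)) * (272 * k)) := h2
      _ = 10183680 * (κ * k ^ 2 * (1 + Real.log k)) := by ring
      _ ≤ 2 * 10 ^ 7 * (κ * k ^ 2 * (1 + Real.log k)) := by
          refine mul_le_mul_of_nonneg_right (by norm_num) h3
      _ = 2 * 10 ^ 7 * κ * k ^ 2 * (1 + Real.log k) := by ring
  · have hnn := fun x : D => N_nonneg T.trD x
    refine add_nonneg (Finset.sum_nonneg fun u _ => add_nonneg (hnn _) (hnn _))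
      (Finset.sum_nonneg fun u _ => add_nonneg (hnn _) (hnn _))

end Pool.McT
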