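import Pool.Agent.McT.Basic

/-! The 2 by 2 matrices over `A`. -/

set_option autoImplicit false

namespace Pool.McT

variable {A : Type*} [CStarAlgebra A] {τ : A →ₗ[ℂ] ℂ}

theorem N_tr2 (hτ : IsTr τ) (M : M2 A) :
    N (tr2 τ) M = N τ (ent M 0 0) + N τ (ent M 0 1) + N τ (ent M 1 0) + N τ (ent M 1 1) := by
  unfold N
  rw [tr2_apply, ent_mul, ent_mul]
  simp only [ent_star, map_add, Complex.add_re]
  ring

theorem isTr_tr2 (hτ : IsTr τ) : IsTr (tr2 τ) := by
  refine ⟨fun x y => ?_, fun x => ?_, fun x => ?_⟩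
  · rw [tr2_apply, tr2_apply]
    simp only [ent_mul, map_add]
    rw [hτ.comm (ent x 0 0), hτ.comm (ent x 0 1), hτ.comm (ent x 1 0), hτ.comm (ent x 1 1)]
    ring
  · rw [tr2_apply]
    simp only [ent_mul, ent_star, map_add, Complex.add_re]
    have h1 := hτ.nonneg (ent x 0 0)
    have h2 := hτ.nonneg (ent x 0 1)
    have h3 := hτ.nonneg (ent x 1 0)
    have h4 := hτ.nonneg (ent x 1 1)
    linarith
  · rw [tr2_apply]
    simp only [ent_mul, ent_star, map_add, Complex.add_im, hτ.real, add_zero]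

theorem XX_selfAdjoint (x : A) : IsSelfAdjoint (XX x) := by
  show star (XX x) = XX x
  refine ext2 ?_ ?_ ?_ ?_ <;> rw [ent_star]
  · show star (0 : A) = 0
    exact star_zero A
  · show star (star x) = x
    exact star_star x
  · rfl
  · show star (0 : A) = 0
    exact star_zero A

theorem XX_mul_XX (x : A) :
    XX x * XX x = mk2 (x * star x) 0 0 (star x * x) := by
  refine ext2 ?_ ?_ ?_ ?_ <;> rw [ent_mul]
  · show (0 : A) * 0 + x * star x = x * star x
    rw [zero_mul, zero_add]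
  · show (0 : A) * x + x * 0 = 0
    rw [zero_mul, mul_zero, zero_add]
  · show star x * (0 : A) + 0 * star x = 0
    rw [zero_mul, mul_zero, zero_add]
  · show star x * x + (0 : A) * 0 = star x * x
    rw [zero_mul, add_zero]

private theorem mat_N_zero : N τ (0 : A) = 0 := by
  unfold N
  rw [mul_zero, map_zero, Complex.zero_re]

private theorem mat_N_star (hτ : IsTr τ) (x : A) : N τ (star x) = N τ x := by
  unfold N
  rw [star_star, hτ.comm]

theorem N_XX (hτ : IsTr τ) (x : A) : N (tr2 τ) (XX x) = 2 * N τ x := by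
  rw [N_tr2 hτ]
  have h1 : ent (XX x) 0 0 = 0 := rfl
  have h2 : ent (XX x) 0 1 = x := rfl
  have h3 : ent (XX x) 1 0 = star x := rfl
  have h4 : ent (XX x) 1 1 = 0 := rfl
  rw [h1, h2, h3, h4, mat_N_zero, mat_N_star hτ]
  ring

/-- `[X, u 1] = ((0, [x, u]), ([x*, u], 0))`. -/
theorem N_cm_XX (hτ : IsTr τ) (x u : A) :
    N (tr2 τ) (cm (XX x) (UU u)) = N τ (cm x u) + N τ (cm (star x) u) := by
  rw [N_tr2 hτ]
  have h1 : ent (cm (XX x) (UU u)) 0 0 = 0 := by
    unfold cm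
    rw [ent_sub, ent_mul, ent_mul]
    show (0 : A) * u + x * 0 - (u * 0 + 0 * star x) = 0
    simp
  have h2 : ent (cm (XX x) (UU u)) 0 1 = cm x u := by
    unfold cm
    rw [ent_sub, ent_mul, ent_mul]
    show (0 : A) * 0 + x * u - (u * x + 0 * 0) = x * u - u * x
    simp
  have h3 : ent (cm (XX x) (UU u)) 1 0 = cm (star x) u := by
    unfold cm
    rw [ent_sub, ent_mul, ent_mul]
    show star x * u + (0 : A) * 0 - (0 * 0 + u * star x) = star x * u - u * star x
    simp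
  have h4 : ent (cm (XX x) (UU u)) 1 1 = 0 := by
    unfold cm
    rw [ent_sub, ent_mul, ent_mul]
    show star x * (0 : A) + 0 * u - (0 * x + u * 0) = 0
    simp
  rw [h1, h2, h3, h4, mat_N_zero]
  ring

theorem N_cm_UU (hτ : IsTr τ) (M : M2 A) (u : A) :
    N (tr2 τ) (cm M (UU u)) = N τ (cm (ent M 0 0) u) + N τ (cm (ent M 0 1) u)
      + N τ (cm (ent M 1 0) u) + N τ (cm (ent M 1 1) u) := by
  rw [N_tr2 hτ]
  have h : ∀ i j, ent (cm M (UU u)) i j = cm (ent M i j) u := by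
    intro i j
    unfold cm
    rw [ent_sub, ent_mul, ent_mul]
    fin_cases i <;> fin_cases j
    · show ent M 0 0 * u + ent M 0 1 * 0 - (u * ent M 0 0 + 0 * ent M 1 0) =
        ent M 0 0 * u - u * ent M 0 0
      simp
    · show ent M 0 0 * 0 + ent M 0 1 * u - (u * ent M 0 1 + 0 * ent M 1 1) =
        ent M 0 1 * u - u * ent M 0 1
      simp
    · show ent M 1 0 * u + ent M 1 1 * 0 - (0 * ent M 0 0 + u * ent M 1 0) =
        ent M 1 0 * u - u * ent M 1 0
      simp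
    · show ent M 1 0 * 0 + ent M 1 1 * u - (0 * ent M 0 1 + u * ent M 1 1) =
        ent M 1 1 * u - u * ent M 1 1
      simp
  rw [h, h, h, h]

/-- `N (M 0 0 - M 1 1)` for a diagonal matrix `M`. -/
theorem N_cm_E01 (hτ : IsTr τ) (M : M2 A) (h01 : ent M 0 1 = 0)
    (h10 : ent M 1 0 = 0) : N (tr2 τ) (cm M E01) = N τ (ent M 0 0 - ent M 1 1) := by
  rw [N_tr2 hτ]
  have h1 : ent (cm M E01) 0 0 = 0 := by
    unfold cm
    rw [ent_sub, ent_mul, ent_mul]
    show ent M 0 0 * 0 + ent M 0 1 * 0 - (0 * ent M 0 0 + 1 * ent M 1 0) = 0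
    rw [h10]
    simp
  have h2 : ent (cm M E01) 0 1 = ent M 0 0 - ent M 1 1 := by
    unfold cm
    rw [ent_sub, ent_mul, ent_mul]
    show ent M 0 0 * 1 + ent M 0 1 * 0 - (0 * ent M 0 1 + 1 * ent M 1 1) = _
    simp
  have h3 : ent (cm M E01) 1 0 = 0 := by
    unfold cm
    rw [ent_sub, ent_mul, ent_mul]
    show ent M 1 0 * 0 + ent M 1 1 * 0 - (0 * ent M 0 0 + 0 * ent M 1 0) = 0
    simp
  have h4 : ent (cm M E01) 1 1 = 0 := by
    unfold cm
    rw [ent_sub, ent_mul, ent_mul]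
    show ent M 1 0 * 1 + ent M 1 1 * 0 - (0 * ent M 0 1 + 0 * ent M 1 1) = 0
    rw [h10]
    simp
  rw [h1, h2, h3, h4, mat_N_zero]
  ring

/-- `T (P E P' E*) = τ (ent P 0 0 * ent P' 1 1)` for all matrices `P`, `P'`. -/
theorem tr2_E01 (P P' : M2 A) :
    tr2 τ (P * E01 * P' * star E01) = τ (ent P 0 0 * ent P' 1 1) := by
  have e00 : ent (E01 : M2 A) 0 0 = 0 := rfl
  have e01 : ent (E01 : M2 A) 0 1 = 1 := rfl
  have e10 : ent (E01 : M2 A) 1 0 = 0 := rfl
  have e11 : ent (E01 : M2 A) 1 1 = 0 := rfl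
  rw [tr2_apply]
  simp only [ent_mul, ent_star, e00, e01, e10, e11, star_zero, star_one, mul_zero, mul_one,
    zero_mul, add_zero, zero_add, map_zero]

end Pool.McT
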