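import Pool.Agent.McT.Basic

/-! Positivity transfer. -/

set_option autoImplicit false

open Filter Topology

namespace Pool.McT

variable {A : Type*} [CStarAlgebra A] {τ : A →ₗ[ℂ] ℂ}

private theorem PT_abs_le {h : A} {s : ℝ} (hs : s ∈ spectrum ℝ h) : |s| ≤ ‖h‖ := by
  rcases subsingleton_or_nontrivial A with hA | hA
  · exfalso
    exact hs (isUnit_of_subsingleton _)
  · have := spectrum.norm_le_norm_of_mem hs
    rwa [Real.norm_eq_abs] at this

/-- the real part of `τ` as a real linear map -/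
private noncomputable def PTre (τ : A →ₗ[ℂ] ℂ) : A →ₗ[ℝ] ℝ :=
  Complex.reLm ∘ₗ (τ.restrictScalars ℝ)

private theorem PTre_apply (τ : A →ₗ[ℂ] ℂ) (x : A) : PTre τ x = (τ x).re := rfl


/-- `τ (e(h) u e'(h) u*) ≥ 0` for `e, e' ≥ 0`: it is `N (√e'(h) u* √e(h))`. -/
theorem tau_cfc_pos (hτ : IsTr τ) {h : A} (hh : IsSelfAdjoint h) (u : A) {e e' : ℝ → ℝ}
    (he : Continuous e) (he' : Continuous e') (h0 : ∀ s, |s| ≤ ‖h‖ → 0 ≤ e s)
    (h0' : ∀ s, |s| ≤ ‖h‖ → 0 ≤ e' s) :
    0 ≤ (τ (cfc e h * u * cfc e' h * star u)).re := by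
  have hc : Continuous (fun s => Real.sqrt (e s)) := Real.continuous_sqrt.comp he
  have hc' : Continuous (fun s => Real.sqrt (e' s)) := Real.continuous_sqrt.comp he'
  have h1 : cfc e h = cfc (fun s => Real.sqrt (e s)) h * cfc (fun s => Real.sqrt (e s)) h := by
    rw [← cfc_mul _ _ h hc.continuousOn hc.continuousOn]
    refine cfc_congr fun s hs => ?_
    exact (Real.mul_self_sqrt (h0 s (PT_abs_le hs))).symm
  have h1' : cfc e' h =
      cfc (fun s => Real.sqrt (e' s)) h * cfc (fun s => Real.sqrt (e' s)) h := by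
    rw [← cfc_mul _ _ h hc'.continuousOn hc'.continuousOn]
    refine cfc_congr fun s hs => ?_
    exact (Real.mul_self_sqrt (h0' s (PT_abs_le hs))).symm
  have hb : star (cfc (fun s => Real.sqrt (e s)) h) = cfc (fun s => Real.sqrt (e s)) h :=
    (cfc_predicate (fun s => Real.sqrt (e s)) h : IsSelfAdjoint _)
  have ha : star (cfc (fun s => Real.sqrt (e' s)) h) = cfc (fun s => Real.sqrt (e' s)) h :=
    (cfc_predicate (fun s => Real.sqrt (e' s)) h : IsSelfAdjoint _)
  rw [h1, h1']
  generalize cfc (fun s => Real.sqrt (e s)) h = b at hb ⊢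
  generalize cfc (fun s => Real.sqrt (e' s)) h = a at ha ⊢
  have key : τ (b * b * u * (a * a) * star u) =
      τ (star (a * star u * b) * (a * star u * b)) := by
    calc τ (b * b * u * (a * a) * star u) = τ (b * (b * u * (a * a) * star u)) := by
          simp only [mul_assoc]
      _ = τ ((b * u * (a * a) * star u) * b) := hτ.comm _ _
      _ = τ (star (a * star u * b) * (a * star u * b)) := by
          rw [star_mul, star_mul, star_star, ha, hb]
          simp only [mul_assoc]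
  rw [key]
  exact hτ.nonneg _

/-- The affine map of `[-R, R]` to `[0, 1]`. -/
private noncomputable def PTp (R : ℝ) : ℝ → unitInterval := fun s =>
  Set.projIcc 0 1 zero_le_one ((s + R) / (2 * R))

private theorem PTp_cont (R : ℝ) : Continuous (PTp R) :=
  continuous_projIcc.comp (by fun_prop)

private theorem PTp_eq {R s : ℝ} (hR : 0 < R) (hs : |s| ≤ R) :
    2 * R * (PTp R s : ℝ) - R = s := by
  obtain ⟨h1, h2⟩ := abs_le.1 hs
  have h3 : (s + R) / (2 * R) ∈ Set.Icc (0 : ℝ) 1 := by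
    refine ⟨div_nonneg (by linarith) (by linarith), ?_⟩
    rw [div_le_one (by linarith)]
    linarith
  unfold PTp
  rw [Set.projIcc_of_mem _ h3]
  show 2 * R * ((s + R) / (2 * R)) - R = s
  field_simp
  ring

/-- The pull back of a function to `[0, 1]`. -/
private noncomputable def PTq (R : ℝ) {f : ℝ → ℝ} (hf : Continuous f) : C(unitInterval, ℝ) :=
  ⟨fun t => f (2 * R * (t : ℝ) - R), hf.comp (by fun_prop)⟩

/-- The approximation. -/
private noncomputable def PTa (R : ℝ) (n : ℕ) {f : ℝ → ℝ} (hf : Continuous f) : ℝ → ℝ :=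
  fun s => bernsteinApproximation n (PTq R hf) (PTp R s)

private theorem PTa_eq (R : ℝ) (n : ℕ) {f : ℝ → ℝ} (hf : Continuous f) :
    PTa R n hf = ∑ k : Fin (n + 1), fun s => PTq R hf (bernstein.z k) *
      bernstein n k (PTp R s) := by
  funext s
  unfold PTa
  rw [bernsteinApproximation.apply, Finset.sum_apply]
  refine Finset.sum_congr rfl fun k _ => ?_
  rw [smul_eq_mul, mul_comm]

private theorem PTa_cont (R : ℝ) (n : ℕ) {f : ℝ → ℝ} (hf : Continuous f) :
    Continuous (PTa R n hf) :=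
  (bernsteinApproximation n (PTq R hf)).continuous.comp (PTp_cont R)

private theorem PTe_cont (R : ℝ) (n k : ℕ) :
    Continuous (fun s => bernstein n k (PTp R s)) :=
  (bernstein n k).continuous.comp (PTp_cont R)

private theorem PTa_cfc (R : ℝ) (n : ℕ) {f : ℝ → ℝ} (hf : Continuous f) (h : A) :
    cfc (PTa R n hf) h = ∑ k : Fin (n + 1), PTq R hf (bernstein.z k) •
      cfc (fun s => bernstein n k (PTp R s)) h := by
  have h1 : ∀ k : Fin (n + 1), ContinuousOn (fun s : ℝ => PTq R hf (bernstein.z k) *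
      bernstein n k (PTp R s)) (spectrum ℝ h) := fun k =>
    (continuous_const.mul (PTe_cont R n (k : ℕ))).continuousOn
  rw [PTa_eq, cfc_sum_univ (fun (k : Fin (n + 1)) (s : ℝ) => PTq R hf (bernstein.z k) *
      bernstein n k (PTp R s)) h h1]
  refine Finset.sum_congr rfl fun k _ => ?_
  rw [cfc_const_mul _ _ h (PTe_cont R n k).continuousOn]

private theorem PTa_lim {h : A} {R : ℝ} (hR : 0 < R) (hhR : ‖h‖ ≤ R) {f : ℝ → ℝ}
    (hf : Continuous f) : Tendsto (fun n => cfc (PTa R n hf) h) atTop (𝓝 (cfc f h)) := by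
  rw [tendsto_iff_norm_sub_tendsto_zero]
  have h1 : Tendsto (fun n => ‖bernsteinApproximation n (PTq R hf) - PTq R hf‖) atTop (𝓝 0) :=
    tendsto_iff_norm_sub_tendsto_zero.1 (bernsteinApproximation_uniform (PTq R hf))
  refine squeeze_zero (fun n => norm_nonneg _) (fun n => ?_) h1
  rw [← cfc_sub _ _ h (PTa_cont R n hf).continuousOn hf.continuousOn]
  refine norm_cfc_le (norm_nonneg _) fun s hs => ?_
  have h2 : f s = PTq R hf (PTp R s) := by
    show f s = f (2 * R * (PTp R s : ℝ) - R)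
    rw [PTp_eq hR ((PT_abs_le hs).trans hhR)]
  rw [h2]
  exact ContinuousMap.norm_coe_le_norm (bernsteinApproximation n (PTq R hf) - PTq R hf)
    (PTp R s)

private theorem PT_all (hτ : IsTr τ) {h : A} (hh : IsSelfAdjoint h) (u : A) {ι : Type}
    [Fintype ι] (F G : ι → ℝ → ℝ) (hF : ∀ i, Continuous (F i)) (hG : ∀ i, Continuous (G i))
    (hpos : ∀ s r : ℝ, 0 ≤ ∑ i, F i s * G i r) :
    0 ≤ ∑ i, (τ (cfc (F i) h * u * cfc (G i) h * star u)).re := by
  have hR : 0 < ‖h‖ + 1 := by positivity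
  have hτc : Continuous τ := AddMonoidHomClass.continuous_of_bound τ _ (norm_tau_le hτ)
  have hlim : Tendsto (fun n => ∑ i, (τ (cfc (PTa (‖h‖ + 1) n (hF i)) h * u *
      cfc (PTa (‖h‖ + 1) n (hG i)) h * star u)).re) atTop
      (𝓝 (∑ i, (τ (cfc (F i) h * u * cfc (G i) h * star u)).re)) := by
    refine tendsto_finsetSum _ fun i _ => ?_
    refine (Complex.continuous_re.tendsto _).comp ((hτc.tendsto _).comp ?_)
    exact (((PTa_lim hR (by linarith) (hF i)).mul tendsto_const_nhds).mul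
      (PTa_lim hR (by linarith) (hG i))).mul tendsto_const_nhds
  refine ge_of_tendsto hlim (Eventually.of_forall fun n => ?_)
  have hexp : ∀ i, (τ (cfc (PTa (‖h‖ + 1) n (hF i)) h * u *
      cfc (PTa (‖h‖ + 1) n (hG i)) h * star u)).re =
      ∑ k : Fin (n + 1), ∑ l : Fin (n + 1), (PTq (‖h‖ + 1) (hF i) (bernstein.z k) *
        PTq (‖h‖ + 1) (hG i) (bernstein.z l)) *
        (τ (cfc (fun s => bernstein n k (PTp (‖h‖ + 1) s)) h * u *
          cfc (fun s => bernstein n l (PTp (‖h‖ + 1) s)) h * star u)).re := by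
    intro i
    rw [PTa_cfc, PTa_cfc, Finset.sum_mul, Finset.sum_mul, Finset.sum_mul, ← PTre_apply, map_sum]
    refine Finset.sum_congr rfl fun k _ => ?_
    rw [Finset.mul_sum, Finset.sum_mul, map_sum]
    refine Finset.sum_congr rfl fun l _ => ?_
    rw [smul_mul_assoc, smul_mul_assoc, smul_mul_assoc, mul_smul_comm, smul_mul_assoc, map_smul,
      map_smul, PTre_apply, smul_eq_mul, smul_eq_mul, ← mul_assoc (PTq _ _ _)]
  rw [Finset.sum_congr rfl fun i _ => hexp i, Finset.sum_comm]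
  refine Finset.sum_nonneg fun k _ => ?_
  rw [Finset.sum_comm]
  refine Finset.sum_nonneg fun l _ => ?_
  rw [← Finset.sum_mul]
  refine mul_nonneg (hpos _ _) ?_
  exact tau_cfc_pos hτ hh u (PTe_cont _ _ _) (PTe_cont _ _ _) (fun s _ => bernstein_nonneg)
    (fun s _ => bernstein_nonneg)

/-- POSITIVITY TRANSFER. Proof: let `R = ‖h‖ + 1`. Take `e_0, ..., e_M : ℝ → ℝ` continuous,
nonnegative on `[-R, R]`, and points `x_j ∈ [-‖h‖, ‖h‖]` such that for each continuous `f`
(there are finitely many to treat: the `F i` and the `G i`) the sum `∑ j, f (x_j) e_j` is within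
`ε` of `f` on `[-‖h‖, ‖h‖]` (for instance the Bernstein polynomials of
`bernsteinApproximation_uniform` transported by `s ↦ (s + R') / (2 R')` with `R' = ‖h‖` (if
`h = 0` all is scalar), or tents).
Then `∑ i, τ (F i^(h) u G i^(h) u*)` for the approximants is
`∑ j, ∑ l, (∑ i, F i (x_j) * G i (x_l)) * τ (e_j(h) u e_l(h) u*) ≥ 0` by `tau_cfc_pos`, and it
converges to the left side by `norm_tau_le` and `‖cfc f h - cfc g h‖ ≤ sup |f - g|`. -/
theorem pos_transfer (hτ : IsTr τ) {h : A} (hh : IsSelfAdjoint h) (u : A) {ι : Type}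
    [Fintype ι] (F G : ι → ℝ → ℝ) (hF : ∀ i, Continuous (F i)) (hG : ∀ i, Continuous (G i))
    (hpos : ∀ s r : ℝ, |s| ≤ ‖h‖ → |r| ≤ ‖h‖ → 0 ≤ ∑ i, F i s * G i r) :
    0 ≤ ∑ i, (τ (cfc (F i) h * u * cfc (G i) h * star u)).re := by
  set c : ℝ → ℝ := fun s => max (-‖h‖) (min ‖h‖ s) with hc
  have hcc : Continuous c := continuous_const.max (continuous_const.min continuous_id)
  have hn := norm_nonneg h
  have hc1 : ∀ s, |c s| ≤ ‖h‖ := by
    intro s
    rw [abs_le]
    exact ⟨le_max_left _ _, max_le (by linarith) (min_le_left _ _)⟩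
  have hc2 : ∀ s, |s| ≤ ‖h‖ → c s = s := by
    intro s hs
    obtain ⟨h1, h2⟩ := abs_le.1 hs
    rw [hc]
    show max (-‖h‖) (min ‖h‖ s) = s
    rw [min_eq_right h2, max_eq_right h1]
  have hcfc : ∀ f : ℝ → ℝ, cfc f h = cfc (fun s => f (c s)) h := by
    intro f
    refine cfc_congr fun s hs => ?_
    show f s = f (c s)
    rw [hc2 s (PT_abs_le hs)]
  have := PT_all hτ hh u (fun i s => F i (c s)) (fun i s => G i (c s))
    (fun i => (hF i).comp hcc) (fun i => (hG i).comp hcc)
    (fun s r => hpos (c s) (c r) (hc1 s) (hc1 r))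
  refine this.trans_eq (Finset.sum_congr rfl fun i _ => ?_)
  rw [← hcfc, ← hcfc]

end Pool.McT
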