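import Pool.Agent.McT.Final

/-! Elements of `D` with a finite part of their Schmidt decomposition. -/

set_option autoImplicit false

namespace Pool.McT

variable {A B D : Type*} [CStarAlgebra A] [CStarAlgebra B] [CStarAlgebra D]
  {τA : A →ₗ[ℂ] ℂ} {τB : B →ₗ[ℂ] ℂ} {τD : D →ₗ[ℂ] ℂ} {iA : A →⋆ₐ[ℂ] D} {iB : B →⋆ₐ[ℂ] D}

/-- `v' = ∑ i, iA (a i) * iB (b i)` and `v - v'` is orthogonal to all `iA (a i) * iB y` and all
`iA x * iB (b i)`: `v'` is a part of the Schmidt decomposition of `v`. -/
structure Sch (τD : D →ₗ[ℂ] ℂ) (iA : A →⋆ₐ[ℂ] D) (iB : B →⋆ₐ[ℂ] D) {k : ℕ} (a : Fin k → A)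
    (b : Fin k → B) (v v' : D) : Prop where
  sum : v' = ∑ i, iA (a i) * iB (b i)
  left : ∀ i y, τD (star (v - v') * (iA (a i) * iB y)) = 0
  right : ∀ i x, τD (star (v - v') * (iA x * iB (b i))) = 0

private lemma N_add_orth_Robust (hτ : IsTr τD) {x r : D} (h : τD (star r * x) = 0) :
    N τD (x + r) = N τD x + N τD r := by
  have h1 : τD (star x * r) = 0 := by
    have h2 : star x * r = star (star r * x) := by rw [star_mul, star_star]
    rw [h2, tau_star hτ, h, map_zero]
  unfold N
  have h3 : star (x + r) * (x + r) =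
      star x * x + star x * r + star r * x + star r * r := by
    rw [star_add]
    noncomm_ring
  rw [h3, map_add, map_add, map_add, h, h1, add_zero, add_zero, Complex.add_re]

/-- `N v = N v' + N (v - v')`. -/
theorem Sch.N_eq (T : Tens τA τB τD iA iB) {k : ℕ} {a : Fin k → A} {b : Fin k → B} {v v' : D}
    (h : Sch τD iA iB a b v v') : N τD v = N τD v' + N τD (v - v') := by
  have h1 : τD (star (v - v') * v') = 0 := by
    have e : star (v - v') * v' = ∑ i, star (v - v') * (iA (a i) * iB (b i)) := by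
      rw [← Finset.mul_sum, ← h.sum]
    rw [e, map_sum]
    exact Finset.sum_eq_zero fun i _ => h.left i (b i)
  rw [← N_add_orth_Robust T.trD h1, add_sub_cancel]

private lemma Sch.left_aux_Robust (T : Tens τA τB τD iA iB) {k : ℕ} {a : Fin k → A}
    {b : Fin k → B} {v v' : D} (h : Sch τD iA iB a b v v') (u : A) :
    N τD (cm v' (iA u)) ≤ N τD (cm v (iA u)) := by
  have h0 : cm v (iA u) = cm v' (iA u) + cm (v - v') (iA u) := by
    unfold cm
    noncomm_ring
  have h1 : cm v' (iA u) = ∑ i, iA (a i * u - u * a i) * iB (b i) := by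
    unfold cm
    rw [h.sum, Finset.sum_mul, Finset.mul_sum, ← Finset.sum_sub_distrib]
    refine Finset.sum_congr rfl fun i _ => ?_
    rw [map_sub, map_mul, map_mul, sub_mul, mul_assoc (iA (a i)) (iB (b i)), ← T.comm u (b i),
      mul_assoc (iA (a i)), mul_assoc (iA u)]
  have h2 : ∀ (i : Fin k) (x : A),
      τD (star (cm (v - v') (iA u)) * (iA x * iB (b i))) = 0 := by
    intro i x
    have e1 : star (cm (v - v') (iA u)) * (iA x * iB (b i)) =
        star (iA u) * (star (v - v') * (iA x * iB (b i))) -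
          star (v - v') * (star (iA u) * (iA x * iB (b i))) := by
      unfold cm
      rw [star_sub, star_mul, star_mul, sub_mul, mul_assoc, mul_assoc]
    have e2 : star (v - v') * (iA x * iB (b i)) * star (iA u) =
        star (v - v') * (iA (x * star u) * iB (b i)) := by
      rw [← map_star, map_mul, mul_assoc, mul_assoc (iA x) (iB (b i)), ← T.comm (star u) (b i),
        mul_assoc (iA x)]
    have e3 : star (v - v') * (star (iA u) * (iA x * iB (b i))) =
        star (v - v') * (iA (star u * x) * iB (b i)) := by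
      rw [← map_star, map_mul, mul_assoc (iA (star u))]
    rw [e1, map_sub, T.trD.comm, e2, e3, h.right, h.right, sub_zero]
  have h3 : τD (star (cm (v - v') (iA u)) * cm v' (iA u)) = 0 := by
    rw [h1, Finset.mul_sum, map_sum]
    exact Finset.sum_eq_zero fun i _ => h2 i _
  rw [h0, N_add_orth_Robust T.trD h3]
  exact le_add_of_nonneg_right (N_nonneg T.trD _)

private lemma Sch.symm_Robust (T : Tens τA τB τD iA iB) {k : ℕ} {a : Fin k → A}
    {b : Fin k → B} {v v' : D} (h : Sch τD iA iB a b v v') : Sch τD iB iA b a v v' where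
  sum := by
    conv_lhs => rw [h.sum]
    exact Finset.sum_congr rfl fun i _ => T.comm _ _
  left := fun i y => by
    rw [← T.comm]
    exact h.right i y
  right := fun i x => by
    rw [← T.comm]
    exact h.left i x

private lemma Sch.both_Robust (T : Tens τA τB τD iA iB) {k : ℕ} {a : Fin k → A}
    {b : Fin k → B} {v v' : D} (h : Sch τD iA iB a b v v') (u : A) :
    N τD (cm v' (iA u)) ≤ N τD (cm v (iA u)) ∧
      N τD (cm (star v') (iA u)) ≤ N τD (cm (star v) (iA u)) := by
  refine ⟨Sch.left_aux_Robust T h u, ?_⟩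
  rw [N_cm_star T.trD, N_cm_star T.trD, ← map_star]
  exact Sch.left_aux_Robust T h (star u)

/-- `[v', iA u]` is a sum of `iA x * iB (b i)`, and `[v - v', iA u]` is orthogonal to these:
`τD (star (cm r (iA u)) * (iA x * iB (b i)))` is a combination of
`τD (star r * (iA x' * iB (b i)))`, by the trace property and since `iA u` commutes with
`iB (b i)`. The same for `star v`, `N_cm_star`. -/
theorem Sch.N_cm_left (T : Tens τA τB τD iA iB) {k : ℕ} {a : Fin k → A} {b : Fin k → B}
    {v v' : D} (h : Sch τD iA iB a b v v') (u : A) :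
    N τD (cm v' (iA u)) ≤ N τD (cm v (iA u)) ∧
      N τD (cm (star v') (iA u)) ≤ N τD (cm (star v) (iA u)) :=
  Sch.both_Robust T h u

theorem Sch.N_cm_right (T : Tens τA τB τD iA iB) {k : ℕ} {a : Fin k → A} {b : Fin k → B}
    {v v' : D} (h : Sch τD iA iB a b v v') (u : B) :
    N τD (cm v' (iB u)) ≤ N τD (cm v (iB u)) ∧
      N τD (cm (star v') (iB u)) ≤ N τD (cm (star v) (iB u)) :=
  Sch.both_Robust T.symm (Sch.symm_Robust T h) u

private lemma tau_le_Robust (hτ : IsTr τD) {x y : D} {c : ℝ} (hc : 0 ≤ c)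
    (h : N τD x * N τD y ≤ c ^ 2) : ‖τD (x * y)‖ ≤ c := by
  have h1 := (tau_mul_sq_le hτ x y).trans h
  exact (pow_le_pow_iff_left₀ (norm_nonneg _) hc two_ne_zero).1 h1

/-- `v v* - v' v'* = (v - v') v* + v' (v - v')*`, so for a contraction `z` the values
`τD ([v, v*] z)` and `τD ([v', v'*] z)` differ by at most
`2 √N (v - v') (√N v + √N v') ≤ 4 √(N (v - v') N v)`. -/
theorem comm_close (hτ : IsTr τD) {v v' z : D} (hz : ‖z‖ ≤ 1) (h1 : N τD v' ≤ N τD v)
    (h2 : 64 * N τD (v - v') ≤ N τD v) :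
    ‖τD ((v * star v - star v * v) * z) - τD ((v' * star v' - star v' * v') * z)‖
      ≤ N τD v / 2 := by
  have hN := N_nonneg hτ v
  have hr := N_nonneg hτ (v - v')
  have hN' := N_nonneg hτ v'
  have hz2 : ‖z‖ ^ 2 ≤ 1 := by
    rw [← one_pow 2]
    exact pow_le_pow_left₀ (norm_nonneg z) hz 2
  have hmul : ∀ x : D, N τD (x * z) ≤ N τD x := by
    intro x
    refine (N_mul_le_right hτ x z).trans ?_
    exact mul_le_of_le_one_left (N_nonneg hτ x) hz2
  have key : N τD (v - v') * N τD v ≤ (N τD v / 8) ^ 2 := by nlinarith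
  have e : (v * star v - star v * v) * z - (v' * star v' - star v' * v') * z =
      (v - v') * (star v * z) + v' * (star (v - v') * z) - star (v - v') * (v * z) -
        star v' * ((v - v') * z) := by
    rw [star_sub]
    noncomm_ring
  have t1 : ‖τD ((v - v') * (star v * z))‖ ≤ N τD v / 8 := by
    refine tau_le_Robust hτ (by positivity) (le_trans ?_ key)
    refine mul_le_mul_of_nonneg_left ?_ hr
    exact (hmul _).trans_eq (N_star hτ v)
  have t2 : ‖τD (v' * (star (v - v') * z))‖ ≤ N τD v / 8 := by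
    refine tau_le_Robust hτ (by positivity) (le_trans ?_ key)
    rw [mul_comm]
    refine mul_le_mul ((hmul _).trans_eq (N_star hτ _)) h1 hN' hr
  have t3 : ‖τD (star (v - v') * (v * z))‖ ≤ N τD v / 8 := by
    refine tau_le_Robust hτ (by positivity) (le_trans ?_ key)
    rw [N_star hτ]
    exact mul_le_mul_of_nonneg_left (hmul v) hr
  have t4 : ‖τD (star v' * ((v - v') * z))‖ ≤ N τD v / 8 := by
    refine tau_le_Robust hτ (by positivity) (le_trans ?_ key)
    rw [N_star hτ, mul_comm]
    exact mul_le_mul (hmul _) h1 hN' hr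
  rw [← map_sub, e, map_sub, map_sub, map_add]
  have n1 := norm_sub_le (τD ((v - v') * (star v * z)) + τD (v' * (star (v - v') * z)) -
    τD (star (v - v') * (v * z))) (τD (star v' * ((v - v') * z)))
  have n2 := norm_sub_le (τD ((v - v') * (star v * z)) + τD (v' * (star (v - v') * z)))
    (τD (star (v - v') * (v * z)))
  have n3 := norm_add_le (τD ((v - v') * (star v * z))) (τD (v' * (star (v - v') * z)))
  linarith

/-- `comm_le` for `v'` with `z` from `exists_trunc` for `v`, `comm_close`: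
`2 N v - 2 ρ N 1 ≤ N v' + 4 k Λ / η S (v') + N v / 2`, and `ρ → 0`. -/
theorem robust (T : Tens τA τB τD iA iB) (hfA : ∀ x : A, N τA x = 0 → x = 0)
    (hfB : ∀ x : B, N τB x = 0 → x = 0) {FA : Finset A} {FB : Finset B} {α Λ : ℝ}
    (hα : 0 ≤ α) (hΛ : 0 ≤ Λ) (hA : AD τA FA α Λ) (hB : AD τB FB α Λ) {k : ℕ}
    {a : Fin k → A} {b : Fin k → B} {v v' : D} (h : Sch τD iA iB a b v v')
    (hvv : v * v = 0) (h64 : 64 * N τD (v - v') ≤ N τD v) {η : ℝ} (hη : 0 < η)
    (hk : k * (8 * (η + α / η)) ≤ 1) :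
    N τD v ≤ 8 * k * (Λ / η) *
      (∑ u ∈ FA, (N τD (cm v (iA u)) + N τD (cm (star v) (iA u)))
        + ∑ u ∈ FB, (N τD (cm v (iB u)) + N τD (cm (star v) (iB u)))) := by
  have hN := N_nonneg T.trD v
  have hN' := N_nonneg T.trD v'
  have hN1 := N_nonneg T.trD 1
  have hle : N τD v' ≤ N τD v := by
    rw [Sch.N_eq T h]
    exact le_add_of_nonneg_right (N_nonneg T.trD _)
  have hS : (∑ u ∈ FA, (N τD (cm v' (iA u)) + N τD (cm (star v') (iA u)))
        + ∑ u ∈ FB, (N τD (cm v' (iB u)) + N τD (cm (star v') (iB u)))) ≤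
      (∑ u ∈ FA, (N τD (cm v (iA u)) + N τD (cm (star v) (iA u)))
        + ∑ u ∈ FB, (N τD (cm v (iB u)) + N τD (cm (star v) (iB u)))) := by
    refine add_le_add (Finset.sum_le_sum fun u _ => ?_) (Finset.sum_le_sum fun u _ => ?_)
    · exact add_le_add (Sch.N_cm_left T h u).1 (Sch.N_cm_left T h u).2
    · exact add_le_add (Sch.N_cm_right T h u).1 (Sch.N_cm_right T h u).2
  set S' := (∑ u ∈ FA, (N τD (cm v' (iA u)) + N τD (cm (star v') (iA u)))
        + ∑ u ∈ FB, (N τD (cm v' (iB u)) + N τD (cm (star v') (iB u))))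
  set S := (∑ u ∈ FA, (N τD (cm v (iA u)) + N τD (cm (star v) (iA u)))
        + ∑ u ∈ FB, (N τD (cm v (iB u)) + N τD (cm (star v) (iB u))))
  have hkΛ : 0 ≤ (k : ℝ) * (4 * (Λ / η)) := by positivity
  have main : ∀ ρ : ℝ, 0 < ρ → N τD v ≤ 8 * k * (Λ / η) * S + 4 * N τD 1 * ρ := by
    intro ρ hρ
    obtain ⟨z, hz, hz'⟩ := exists_trunc T.trD hvv hρ
    have h1 := comm_close T.trD hz hle h64
    have h2 := comm_le T hfA hfB hα hΛ hA hB k a b v' h.sum hz hη
    have h3 : (τD ((v * star v - star v * v) * z)).re ≤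
        ‖τD ((v * star v - star v * v) * z)‖ := Complex.re_le_norm _
    have h4 := norm_sub_norm_le (τD ((v * star v - star v * v) * z))
      (τD ((v' * star v' - star v' * v') * z))
    have h5 : (k : ℝ) * (8 * (η + α / η) * N τD v' + 4 * (Λ / η) * S') ≤
        N τD v + k * (4 * (Λ / η)) * S := by
      have h6 : (k : ℝ) * (8 * (η + α / η)) * N τD v' ≤ 1 * N τD v' :=
        mul_le_mul_of_nonneg_right hk hN'
      have h7 : (k : ℝ) * (4 * (Λ / η)) * S' ≤ k * (4 * (Λ / η)) * S :=
        mul_le_mul_of_nonneg_left hS hkΛ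
      have h8 : (k : ℝ) * (8 * (η + α / η) * N τD v' + 4 * (Λ / η) * S') =
          k * (8 * (η + α / η)) * N τD v' + k * (4 * (Λ / η)) * S' := by ring
      rw [h8]
      linarith
    have h9 : 8 * (k : ℝ) * (Λ / η) * S = 2 * (k * (4 * (Λ / η)) * S) := by ring
    rw [h9]
    linarith
  refine le_of_forall_pos_le_add fun ε hε => ?_
  have h1 := main (ε / (4 * (N τD 1 + 1))) (by positivity)
  refine h1.trans (add_le_add_right ?_ _)
  have h2 : 4 * N τD 1 * (ε / (4 * (N τD 1 + 1))) = ε * (N τD 1 / (N τD 1 + 1)) := by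
    field_simp
  rw [h2]
  refine mul_le_of_le_one_right hε.le ?_
  rw [div_le_one (by positivity)]
  linarith

end Pool.McT
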