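import Pool.Agent.McT.Basic

/-! Tensor products: the commuting subalgebras. -/

set_option autoImplicit false

namespace Pool.McT

/-- `A` and `B` are mapped to commuting subalgebras of `D` and the functional of `D` is the
product functional on the algebraic tensor product. -/
structure Tens {A B D : Type*} [CStarAlgebra A] [CStarAlgebra B] [CStarAlgebra D]
    (τA : A →ₗ[ℂ] ℂ) (τB : B →ₗ[ℂ] ℂ) (τD : D →ₗ[ℂ] ℂ) (iA : A →⋆ₐ[ℂ] D)
    (iB : B →⋆ₐ[ℂ] D) : Prop where
  trA : IsTr τA
  trB : IsTr τB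
  trD : IsTr τD
  comm : ∀ a b, iA a * iB b = iB b * iA a
  tau : ∀ a b, τD (iA a * iB b) = τA a * τB b

variable {A B D : Type*} [CStarAlgebra A] [CStarAlgebra B] [CStarAlgebra D]
  {τA : A →ₗ[ℂ] ℂ} {τB : B →ₗ[ℂ] ℂ} {τD : D →ₗ[ℂ] ℂ} {iA : A →⋆ₐ[ℂ] D} {iB : B →⋆ₐ[ℂ] D}

theorem Tens.symm (T : Tens τA τB τD iA iB) : Tens τB τA τD iB iA := by
  refine ⟨T.trB, T.trA, T.trD, fun a b => (T.comm b a).symm, fun a b => ?_⟩
  rw [← T.comm b a, T.tau, mul_comm]

private theorem prod_tens (T : Tens τA τB τD iA iB) (a a' : A) (b b' : B) :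
    star (iA a * iB b) * (iA a' * iB b') = iA (star a * a') * iB (star b * b') := by
  rw [star_mul, ← map_star, ← map_star, map_mul, map_mul]
  have h1 := T.comm (star a) (star b)
  have h2 := T.comm a' (star b)
  rw [← h1, mul_assoc, mul_assoc, ← mul_assoc (iB (star b)), ← h2, mul_assoc]

private theorem tau_tens (T : Tens τA τB τD iA iB) (a a' : A) (b b' : B) :
    τD (star (iA a * iB b) * (iA a' * iB b')) = τA (star a * a') * τB (star b * b') := by
  rw [prod_tens T, T.tau]

private theorem cm_tens (T : Tens τA τB τD iA iB) {n : ℕ} (a : Fin n → A) (f : Fin n → B)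
    (u : A) : cm (∑ q, iA (a q) * iB (f q)) (iA u) = ∑ q, iA (cm (a q) u) * iB (f q) := by
  unfold cm
  rw [Finset.sum_mul, Finset.mul_sum, ← Finset.sum_sub_distrib]
  refine Finset.sum_congr rfl fun q _ => ?_
  rw [mul_assoc, ← T.comm u (f q), map_sub, map_mul, map_mul, sub_mul, mul_assoc, mul_assoc]

theorem N_tens (T : Tens τA τB τD iA iB) (a : A) (b : B) :
    N τD (iA a * iB b) = N τA a * N τB b := by
  unfold N
  rw [tau_tens T, Complex.mul_re, T.trA.real, zero_mul, sub_zero]

/-- For orthonormal `f`. -/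
theorem N_sum_tens (T : Tens τA τB τD iA iB) {n : ℕ} (a : Fin n → A) (f : Fin n → B)
    (hf : ∀ p q, τB (star (f p) * f q) = if p = q then 1 else 0) :
    N τD (∑ q, iA (a q) * iB (f q)) = ∑ q, N τA (a q) := by
  unfold N
  rw [star_sum, Finset.sum_mul, map_sum, Complex.re_sum]
  refine Finset.sum_congr rfl fun p _ => ?_
  rw [Finset.mul_sum, map_sum]
  have h1 : ∀ q, τD (star (iA (a p) * iB (f p)) * (iA (a q) * iB (f q))) =
      if p = q then τA (star (a p) * a q) else 0 := by
    intro q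
    rw [tau_tens T, hf]
    split_ifs <;> simp
  rw [Finset.sum_congr rfl fun q _ => h1 q, Finset.sum_ite_eq, if_pos (Finset.mem_univ p)]

/-- For orthonormal `f`; the adjoints `star (f q)` are orthonormal too (`IsTr.comm`), and
`cm (∑ q, iA (a q) * iB (f q)) (iA u) = ∑ q, iA (cm (a q) u) * iB (f q)`. -/
theorem S_sum_tens (T : Tens τA τB τD iA iB) {n : ℕ} (a : Fin n → A) (f : Fin n → B)
    (hf : ∀ p q, τB (star (f p) * f q) = if p = q then 1 else 0) (F : Finset A) :
    ∑ u ∈ F, (N τD (cm (∑ q, iA (a q) * iB (f q)) (iA u))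
      + N τD (cm (star (∑ q, iA (a q) * iB (f q))) (iA u))) = ∑ q, S τA F (a q) := by
  have hs : star (∑ q, iA (a q) * iB (f q)) = ∑ q, iA (star (a q)) * iB (star (f q)) := by
    rw [star_sum]
    refine Finset.sum_congr rfl fun q _ => ?_
    rw [star_mul, ← map_star, ← map_star, T.comm]
  have hf' : ∀ p q, τB (star (star (f p)) * star (f q)) = if p = q then 1 else 0 := by
    intro p q
    rw [star_star, T.trB.comm, hf]
    by_cases h : p = q
    · rw [if_pos h, if_pos h.symm]
    · rw [if_neg h, if_neg (fun h' => h h'.symm)]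
  unfold S
  rw [Finset.sum_comm]
  refine Finset.sum_congr rfl fun u _ => ?_
  rw [hs, cm_tens T, cm_tens T (fun q => star (a q)) (fun q => star (f q)), N_sum_tens T _ _ hf,
    N_sum_tens T _ _ hf', ← Finset.sum_add_distrib]

end Pool.McT
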